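import Pool.Agent.LDCX.Defs

/-!
# Recovery sets of linear locally decodable codes
-/

open scoped BigOperators
open Finset

namespace Pool.Agent.LDCX

noncomputable section

open Classical

variable {F : Type} [Field F] [Fintype F] {n k : ℕ}

/-- The word `r` with the coordinates in `H` replaced by zeros. -/
def zr (H : Finset (Fin n)) (r : Fin n → F) : Fin n → F := fun j => if j ∈ H then 0 else r j

/-- The decision tree has no advantage. -/
theorem half (E : (Fin k → F) →ₗ[F] (Fin n → F)) (i : Fin k) (H : Finset (Fin n)) (t : ℕ)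
    (hno : ∀ Q : Finset (Fin n), Q.card ≤ t → Disjoint Q H → ∃ y : Fin k → F, (∀ j ∈ Q, E y j = 0) ∧ y i = 1) :
    ∀ (T : DTree n F) (s : ℕ), T.AtMost s → ∀ (Q : Finset (Fin n)), Q.card + s ≤ t → Disjoint Q H →
      ∀ A : Finset (Fin k → F), (∀ x ∈ A, ∀ z, (∀ j ∈ Q, E z j = 0) → x + z ∈ A) →
        Fintype.card F * (A.filter (fun x => T.run (zr H (E x)) = x i)).card = A.card := by
  intro T
  induction T with
  | out c =>
    intro s _ Q hQ hQH A hA
    obtain ⟨y, hy0, hy1⟩ := hno Q (by omega) hQH
    have e1 : A.card = ∑ b : F, (A.filter (fun x => x i = b)).card := by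
      rw [Finset.card_eq_sum_card_fiberwise (f := fun x : Fin k → F => x i) (t := Finset.univ)
        (fun x _ => by simp)]
    have e2 : ∀ b : F, (A.filter (fun x => x i = b)).card = (A.filter (fun x => c = x i)).card := by
      intro b
      refine Finset.card_nbij' (fun x => x + (c - b) • y) (fun x => x + (b - c) • y) ?_ ?_ ?_ ?_
      · intro x hx
        rw [Finset.mem_coe, Finset.mem_filter] at hx ⊢
        refine ⟨hA x hx.1 _ fun j hj => ?_, ?_⟩
        · rw [map_smul, Pi.smul_apply, hy0 j hj, smul_zero]
        · show c = (x + (c - b) • y) i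
          rw [Pi.add_apply, Pi.smul_apply, hy1, hx.2, smul_eq_mul]; ring
      · intro x hx
        rw [Finset.mem_coe, Finset.mem_filter] at hx ⊢
        refine ⟨hA x hx.1 _ fun j hj => ?_, ?_⟩
        · rw [map_smul, Pi.smul_apply, hy0 j hj, smul_zero]
        · show (x + (b - c) • y) i = b
          rw [Pi.add_apply, Pi.smul_apply, hy1, ← hx.2, smul_eq_mul]; ring
      · intro x _
        show x + (c - b) • y + (b - c) • y = x
        rw [add_assoc, ← add_smul]
        simp
      · intro x _
        show x + (b - c) • y + (c - b) • y = x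
        rw [add_assoc, ← add_smul]
        simp
    rw [e1, Finset.sum_congr rfl fun b _ => e2 b, Finset.sum_const, Finset.card_univ, smul_eq_mul]
    rfl
  | query j next ih =>
    intro s hs Q hQ hQH A hA
    cases s with
    | zero => exact absurd hs (by simp [DTree.AtMost])
    | succ s =>
      have hs' : ∀ b, (next b).AtMost s := hs
      by_cases hj : j ∈ H
      · have h := ih 0 s (hs' 0) Q (by omega) hQH A hA
        rw [← h]
        congr 2
        refine Finset.filter_congr fun x _ => ?_
        have : (DTree.query j next).run (zr H (E x)) = (next (zr H (E x) j)).run (zr H (E x)) := rfl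
        rw [this]
        have h0 : zr H (E x) j = 0 := by simp [zr, hj]
        rw [h0]
      · have hQ' : (insert j Q).card ≤ Q.card + 1 := Finset.card_insert_le _ _
        have hd : Disjoint (insert j Q) H := by
          rw [Finset.disjoint_insert_left]
          exact ⟨hj, hQH⟩
        have h : ∀ b : F, Fintype.card F * ((A.filter (fun x => E x j = b)).filter
            (fun x => (next b).run (zr H (E x)) = x i)).card = (A.filter (fun x => E x j = b)).card := by
          intro b
          refine ih b s (hs' b) (insert j Q) (by omega) hd _ ?_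
          intro x hx z hz
          rw [Finset.mem_filter] at hx ⊢
          refine ⟨hA x hx.1 z fun l hl => hz l (Finset.mem_insert_of_mem hl), ?_⟩
          rw [map_add, Pi.add_apply, hx.2, hz j (Finset.mem_insert_self _ _), add_zero]
        have e1 : A.card = ∑ b : F, (A.filter (fun x => E x j = b)).card := by
          rw [Finset.card_eq_sum_card_fiberwise (f := fun x : Fin k → F => E x j) (t := Finset.univ)
            (fun x _ => by simp)]
        have e2 : (A.filter (fun x => (DTree.query j next).run (zr H (E x)) = x i)).card =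
            ∑ b : F, ((A.filter (fun x => E x j = b)).filter
            (fun x => (next b).run (zr H (E x)) = x i)).card := by
          rw [Finset.card_eq_sum_card_fiberwise (f := fun x : Fin k → F => E x j) (t := Finset.univ)
            (fun x _ => by simp)]
          refine Finset.sum_congr rfl fun b _ => ?_
          congr 1
          ext x
          simp only [Finset.mem_filter]
          have : (DTree.query j next).run (zr H (E x)) = (next (zr H (E x) j)).run (zr H (E x)) := rfl
          rw [this]
          have h0 : zr H (E x) j = E x j := by simp [zr, hj]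
          rw [h0]
          constructor
          · rintro ⟨⟨h1, h2⟩, h3⟩
            rw [h3] at h2
            exact ⟨⟨h1, h3⟩, h2⟩
          · rintro ⟨⟨h1, h3⟩, h2⟩
            rw [h3]
            exact ⟨⟨h1, h2⟩, rfl⟩
        rw [e1, e2, Finset.mul_sum]
        exact Finset.sum_congr rfl fun b _ => h b

/-- A locally decodable linear code has recovery sets avoiding every small set. -/
theorem exists_recovery (E : (Fin k → F) →ₗ[F] (Fin n → F)) {δ : ℝ} {t : ℕ} (hE : IsLDC (fun x => E x) δ t)
    (i : Fin k) (H : Finset (Fin n)) (hH : (H.card : ℝ) < δ * n) :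
    ∃ (Q : Finset (Fin n)) (c : Fin n → F), Q.card ≤ t ∧ Disjoint Q H ∧ (∀ j, j ∉ Q → c j = 0) ∧
      ∀ x, ∑ j, c j * E x j = x i := by
  by_contra hcon
  have hno : ∀ Q : Finset (Fin n), Q.card ≤ t → Disjoint Q H →
      ∃ y : Fin k → F, (∀ j ∈ Q, E y j = 0) ∧ y i = 1 := by
    intro Q hQ hQH
    by_contra hy
    apply hcon
    have hker : ⨅ j : Q, LinearMap.ker ((LinearMap.proj (j : Fin n)).comp E : (Fin k → F) →ₗ[F] F) ≤
        LinearMap.ker (LinearMap.proj i : (Fin k → F) →ₗ[F] F) := by
      intro z hz
      rw [Submodule.mem_iInf] at hz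
      rw [LinearMap.mem_ker, LinearMap.proj_apply]
      by_contra hzi
      apply hy
      refine ⟨(z i)⁻¹ • z, fun j hj => ?_, ?_⟩
      · have := hz ⟨j, hj⟩
        rw [LinearMap.mem_ker, LinearMap.comp_apply, LinearMap.proj_apply] at this
        rw [map_smul, Pi.smul_apply]
        rw [this, smul_zero]
      · rw [Pi.smul_apply, smul_eq_mul]
        exact inv_mul_cancel₀ hzi
    have hsp := mem_span_of_iInf_ker_le_ker hker
    rw [Submodule.mem_span_range_iff_exists_fun] at hsp
    obtain ⟨c, hc⟩ := hsp
    refine ⟨Q, fun j => if h : j ∈ Q then c ⟨j, h⟩ else 0, hQ, hQH, fun j hj => by simp [hj], fun x => ?_⟩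
    have h1 : x i = (∑ j : Q, c j • ((LinearMap.proj (j : Fin n)).comp E : (Fin k → F) →ₗ[F] F)) x := by
      rw [hc, LinearMap.proj_apply]
    rw [h1, LinearMap.sum_apply]
    rw [← Finset.sum_subset (Finset.subset_univ Q)]
    · rw [← Finset.sum_coe_sort Q]
      refine Finset.sum_congr rfl fun j _ => ?_
      simp
    · intro j _ hj
      simp [hj]
  obtain ⟨A, hA⟩ := hE i
  let _ := A.fin
  have h1 : ∀ ω, Fintype.card F * ((Finset.univ : Finset (Fin k → F)).filter
      (fun x => (A.tree ω).run (zr H (E x)) = x i)).card = (Finset.univ : Finset (Fin k → F)).card := by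
    intro ω
    exact half E i H t hno (A.tree ω) t (A.queries ω) ∅ (by simp) (by simp) Finset.univ (by simp)
  have h2 : ∀ x : Fin k → F, 2 / 3 ≤ A.pr (zr H (E x)) (x i) := by
    intro x
    apply hA
    refine lt_of_le_of_lt ?_ hH
    have : (Finset.univ.filter (fun j => zr H (E x) j ≠ E x j)) ⊆ H := by
      intro j hj
      rw [Finset.mem_filter] at hj
      by_contra h
      apply hj.2
      simp [zr, h]
    exact_mod_cast Finset.card_le_card this
  have h3 : ∑ x : Fin k → F, A.pr (zr H (E x)) (x i) =
      ∑ ω, A.prob ω * (((Finset.univ : Finset (Fin k → F)).filter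
      (fun x => (A.tree ω).run (zr H (E x)) = x i)).card : ℝ) := by
    unfold RandAlg.pr
    rw [Finset.sum_comm]
    refine Finset.sum_congr rfl fun ω _ => ?_
    rw [← Finset.sum_filter, Finset.sum_const, nsmul_eq_mul, mul_comm]
  have h4 : (Fintype.card F : ℝ) * ∑ x : Fin k → F, A.pr (zr H (E x)) (x i) =
      ((Finset.univ : Finset (Fin k → F)).card : ℝ) := by
    rw [h3, Finset.mul_sum]
    have : ∀ ω, (Fintype.card F : ℝ) * (A.prob ω * (((Finset.univ : Finset (Fin k → F)).filter
        (fun x => (A.tree ω).run (zr H (E x)) = x i)).card : ℝ)) =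
        A.prob ω * ((Finset.univ : Finset (Fin k → F)).card : ℝ) := by
      intro ω
      rw [← h1 ω]
      push_cast
      ring
    rw [Finset.sum_congr rfl fun ω _ => this ω, ← Finset.sum_mul, A.sum_one, one_mul]
  have h5 : ((Finset.univ : Finset (Fin k → F)).card : ℝ) * (2 / 3) ≤
      ∑ x : Fin k → F, A.pr (zr H (E x)) (x i) := by
    rw [← nsmul_eq_mul, ← Finset.sum_const]
    exact Finset.sum_le_sum fun x _ => h2 x
  have h6 : (2 : ℝ) ≤ Fintype.card F := by
    exact_mod_cast Fintype.one_lt_card (α := F)
  have h7 : (0 : ℝ) < ((Finset.univ : Finset (Fin k → F)).card : ℝ) := by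
    rw [Finset.card_univ]
    exact_mod_cast Fintype.card_pos
  nlinarith

/-- Disjoint recovery sets. -/
theorem exists_disjoint (E : (Fin k → F) →ₗ[F] (Fin n → F)) {δ : ℝ} {t : ℕ} (hE : IsLDC (fun x => E x) δ t)
    (i : Fin k) (m : ℕ) (hm : (m : ℝ) * t < δ * n) :
    ∃ (Q : Fin m → Finset (Fin n)) (c : Fin m → Fin n → F), (∀ a, (Q a).card ≤ t) ∧
      (∀ a b, a ≠ b → Disjoint (Q a) (Q b)) ∧ (∀ a j, j ∉ Q a → c a j = 0) ∧
      ∀ a x, ∑ j, c a j * E x j = x i := by
  induction m with
  | zero =>
    exact ⟨fun a => a.elim0, fun a => a.elim0, fun a => a.elim0, fun a => a.elim0, fun a => a.elim0,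
      fun a => a.elim0⟩
  | succ m ih =>
    have hm' : (m : ℝ) * t < δ * n := by
      push_cast at hm
      have : (0 : ℝ) ≤ t := Nat.cast_nonneg t
      nlinarith
    obtain ⟨Q, c, h1, h2, h3, h4⟩ := ih hm'
    obtain ⟨Q0, c0, g1, g2, g3, g4⟩ := exists_recovery E hE i (Finset.univ.biUnion Q) (by
      refine lt_of_le_of_lt ?_ hm'
      have : (Finset.univ.biUnion Q).card ≤ m * t := by
        refine le_trans Finset.card_biUnion_le ?_
        refine le_trans (Finset.sum_le_sum fun a _ => h1 a) ?_
        simp
      exact_mod_cast this)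
    rw [Finset.disjoint_biUnion_right] at g2
    refine ⟨Fin.cons Q0 Q, Fin.cons c0 c, ?_, ?_, ?_, ?_⟩
    · intro a
      refine Fin.cases ?_ (fun a => ?_) a
      · simpa using g1
      · simpa using h1 a
    · intro a b
      refine Fin.cases ?_ (fun a => ?_) a
      · refine Fin.cases ?_ (fun b => ?_) b
        · intro h; exact absurd rfl h
        · intro _
          simpa using g2 b (Finset.mem_univ _)
      · refine Fin.cases ?_ (fun b => ?_) b
        · intro _
          simpa using (g2 a (Finset.mem_univ _)).symm
        · intro h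
          have : a ≠ b := fun h' => h (by rw [h'])
          simpa using h2 a b this
    · intro a
      refine Fin.cases ?_ (fun a => ?_) a
      · simpa using g3
      · simpa using h3 a
    · intro a
      refine Fin.cases ?_ (fun a => ?_) a
      · simpa using g4
      · simpa using h4 a

end

end Pool.Agent.LDCX
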