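import Pool.Agent.LDCX.Main
import Pool.Agent.LDCX.Code

/-!
# The finite inequality for binary linear locally decodable codes
-/

open scoped BigOperators
open Finset

namespace Pool.Agent.LDCX

noncomputable section

theorem zmod2_ite (a : ZMod 2) : (if a = 1 then (1 : ZMod 2) else 0) = a := by
  revert a; decide

theorem binary_bound {n k t : ℕ} (E : (Fin k → ZMod 2) →ₗ[ZMod 2] (Fin n → ZMod 2)) {δ p : ℝ}
    (hE : IsLDC (fun x => E x) δ t) (hp : 0 < p) (hp1 : p < 1) (m r : ℕ) (hr : t ≤ 2 * r)
    (hm : (m : ℝ) * t < δ * n) :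
    Real.log 2 * ((k : ℝ) * (1 - (1 - ((2 * r).choose r : ℝ) * (p * (1 - p)) ^ r) ^ m)) ≤
      ((n : ℝ) + m * (2 * r)) * Real.binEntropy p := by
  have h := fun i => exists_disjoint E hE i m hm
  choose Q c h1 h2 h3 h4 using h
  let C0 : Fin k → Fin m → Finset (Fin n) := fun i a => Finset.univ.filter (fun j => c i a j = 1)
  have hC0Q : ∀ i a, C0 i a ⊆ Q i a := by
    intro i a j hj
    rw [Finset.mem_filter] at hj
    by_contra h
    rw [h3 i a j h] at hj
    exact absurd hj.2 (by decide)
  have hC0 : ∀ i a, (C0 i a).card ≤ 2 * r := fun i a =>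
    (Finset.card_le_card (hC0Q i a)).trans ((h1 i a).trans hr)
  have hP : ∀ i a, ∃ P : Finset (Fin (2 * r)), P.card = 2 * r - (C0 i a).card := by
    intro i a
    obtain ⟨P, _, hP⟩ := Finset.exists_subset_card_eq (s := (Finset.univ : Finset (Fin (2 * r))))
      (n := 2 * r - (C0 i a).card) (by simp)
    exact ⟨P, hP⟩
  choose P hP using hP
  let C : Fin k → Fin m → Finset (Fin n ⊕ (Fin m × Fin (2 * r))) := fun i a =>
    (C0 i a).disjSum ((P i a).map ⟨fun y => (a, y), fun y y' h => (Prod.mk.inj h).2⟩)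
  let g : (Fin n ⊕ (Fin m × Fin (2 * r)) → ZMod 2) → (Fin k → ZMod 2) := fun S i' =>
    ∑ j : Fin n, S (Sum.inl j) * E (Pi.single i' 1) j
  have hmain := main_binary (k := k) (m := m) (r := r) hp hp1 g C ?_ ?_ ?_
  · refine hmain.trans (le_of_eq ?_)
    rw [Fintype.card_sum, Fintype.card_prod, Fintype.card_fin, Fintype.card_fin, Fintype.card_fin]
    push_cast
    ring
  · intro i a b hab
    rw [Finset.disjoint_left]
    intro x hx hx'
    simp only [C] at hx hx'
    cases x with
    | inl j =>
      rw [Finset.inl_mem_disjSum] at hx hx'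
      exact Finset.disjoint_left.1 (h2 i a b hab) (hC0Q i a hx) (hC0Q i b hx')
    | inr y =>
      rw [Finset.inr_mem_disjSum, Finset.mem_map] at hx hx'
      obtain ⟨z, _, hz⟩ := hx
      obtain ⟨z', _, hz'⟩ := hx'
      apply hab
      have e1 : a = y.1 := by rw [← hz]; rfl
      have e2 : b = y.1 := by rw [← hz']; rfl
      rw [e1, e2]
  · intro i a
    simp only [C]
    rw [Finset.card_disjSum, Finset.card_map, hP]
    have := hC0 i a
    omega
  · intro i a S
    funext i'
    simp only [g, Pi.add_apply]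
    have e1 : ∀ j : Fin n, ind (C i a) (Sum.inl j) = c i a j := by
      intro j
      simp only [ind, C, Finset.inl_mem_disjSum, C0, Finset.mem_filter, Finset.mem_univ, true_and]
      exact zmod2_ite _
    simp only [e1, add_mul]
    rw [Finset.sum_add_distrib, h4 i a]
    congr 1
    rw [Pi.single_apply, Pi.single_apply]
    by_cases h : i = i'
    · rw [if_pos h, if_pos h.symm]
    · rw [if_neg h, if_neg (fun h' => h h'.symm)]

end

end Pool.Agent.LDCX
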