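import Mathlib

/-!
# Locally decodable codes: definitions

Randomized algorithms with query access to a word (adaptive queries), and locally decodable codes.
-/

open scoped BigOperators
open Finset

namespace Pool.Agent.LDCX

/-- A deterministic algorithm with query access to a word of length `n` over the alphabet `S`: it outputs a symbol,
or it queries a position of the word and continues depending on the answer (so the queries may be adaptive). -/
inductive DTree (n : ℕ) (S : Type) : Type
  | out (s : S) : DTree n S
  | query (j : Fin n) (next : S → DTree n S) : DTree n S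

/-- The output of the algorithm on the word `r`. -/
def DTree.run {n : ℕ} {S : Type} : DTree n S → (Fin n → S) → S
  | .out s, _ => s
  | .query j next, r => (next (r j)).run r

/-- The algorithm makes at most `t` queries on every word. -/
def DTree.AtMost {n : ℕ} {S : Type} : DTree n S → ℕ → Prop
  | .out _, _ => True
  | .query _ _, 0 => False
  | .query _ next, t + 1 => ∀ s, (next s).AtMost t

/-- A randomized algorithm with query access to a word of length `n` over `S`, which makes at most `t` queries: a
finite probability space of deterministic ones. -/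
structure RandAlg (n t : ℕ) (S : Type) where
  Ω : Type
  fin : Fintype Ω
  prob : Ω → ℝ
  nonneg : ∀ ω, 0 ≤ prob ω
  sum_one : ∑ ω, prob ω = 1
  tree : Ω → DTree n S
  queries : ∀ ω, (tree ω).AtMost t

open Classical in
/-- The probability that the output on the word `r` is `s`. -/
noncomputable def RandAlg.pr {n t : ℕ} {S : Type} (A : RandAlg n t S) (r : Fin n → S) (s : S) : ℝ :=
  letI := A.fin
  ∑ ω, if (A.tree ω).run r = s then A.prob ω else 0

open Classical in
/-- The code with encoding map `E` is locally decodable from a `δ`-fraction of errors with `t` queries. -/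
def IsLDC {n k : ℕ} {S : Type} (E : (Fin k → S) → (Fin n → S)) (δ : ℝ) (t : ℕ) : Prop :=
  ∀ i : Fin k, ∃ A : RandAlg n t S, ∀ (x : Fin k → S) (r : Fin n → S),
    (((Finset.univ.filter (fun j => r j ≠ E x j)).card : ℕ) : ℝ) < δ * n → 2 / 3 ≤ A.pr r (x i)

/-- A randomized non-adaptive algorithm with query access to a word of length `n` over `S`: it chooses at random a
set of at most `t` positions and an output function depending on the symbols in these positions. -/
structure NonAdAlg (n t : ℕ) (S : Type) where
  Ω : Type
  fin : Fintype Ω
  prob : Ω → ℝ
  nonneg : ∀ ω, 0 ≤ prob ω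
  sum_one : ∑ ω, prob ω = 1
  Q : Ω → Finset (Fin n)
  card_le : ∀ ω, (Q ω).card ≤ t
  out : Ω → (Fin n → S) → S
  loc : ∀ ω (r r' : Fin n → S), (∀ j ∈ Q ω, r j = r' j) → out ω r = out ω r'

open Classical in
/-- The probability that the output on the word `r` is `s`. -/
noncomputable def NonAdAlg.pr {n t : ℕ} {S : Type} (A : NonAdAlg n t S) (r : Fin n → S) (s : S) : ℝ :=
  letI := A.fin
  ∑ ω, if A.out ω r = s then A.prob ω else 0

open Classical in
/-- The code with encoding map `E` is locally decodable from a `δ`-fraction of errors with `t` non-adaptive
queries. -/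
def IsNonAdLDC {n k : ℕ} {S : Type} (E : (Fin k → S) → (Fin n → S)) (δ : ℝ) (t : ℕ) : Prop :=
  ∀ i : Fin k, ∃ A : NonAdAlg n t S, ∀ (x : Fin k → S) (r : Fin n → S),
    (((Finset.univ.filter (fun j => r j ≠ E x j)).card : ℕ) : ℝ) < δ * n → 2 / 3 ≤ A.pr r (x i)

end Pool.Agent.LDCX
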