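import Pool.Agent.LDCX.Prob

/-!
# Entropy and the edges of the cube
-/

open scoped BigOperators
open Finset

namespace Pool.Agent.LDCX

noncomputable section

/-- The entropy (not normalized) of a nonnegative function. -/
def En {β : Type} [Fintype β] (w : β → ℝ) : ℝ :=
  (∑ v, w v) * Real.log (∑ v, w v) - ∑ v, w v * Real.log (w v)

theorem two_point_aux (x : ℝ) (h0 : 0 ≤ x) (h1 : x ≤ 2⁻¹) : 2 * x * Real.log 2 ≤ Real.binEntropy x := by
  have hc := Real.strictConcave_binEntropy.concaveOn.2 (show (0 : ℝ) ∈ Set.Icc (0 : ℝ) 1 by simp)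
    (show (2⁻¹ : ℝ) ∈ Set.Icc (0 : ℝ) 1 by constructor <;> norm_num)
    (show 0 ≤ 1 - 2 * x by linarith) (show 0 ≤ 2 * x by linarith) (by ring)
  simp only [smul_eq_mul, mul_zero, zero_add, Real.binEntropy_zero, Real.binEntropy_two_inv] at hc
  have e : 2 * x * 2⁻¹ = x := by ring
  rw [e] at hc
  exact hc

theorem two_point_le (a b : ℝ) (ha : 0 ≤ a) (hab : a ≤ b) :
    2 * a * Real.log 2 ≤ (a + b) * Real.log (a + b) - a * Real.log a - b * Real.log b := by
  rcases eq_or_lt_of_le ha with h0 | h0
  · subst h0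
    simp
  have hb : 0 < b := lt_of_lt_of_le h0 hab
  have hs : 0 < a + b := by linarith
  have h := two_point_aux (a / (a + b)) (by positivity) (by
    rw [div_le_iff₀ hs]
    linarith)
  have e1 : Real.binEntropy (a / (a + b)) * (a + b) =
      (a + b) * Real.log (a + b) - a * Real.log a - b * Real.log b := by
    rw [Real.binEntropy]
    have e2 : 1 - a / (a + b) = b / (a + b) := by
      field_simp
      ring
    rw [e2, inv_div, inv_div, Real.log_div hs.ne' h0.ne', Real.log_div hs.ne' hb.ne']
    field_simp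
    ring
  rw [← e1]
  calc 2 * a * Real.log 2 = (2 * (a / (a + b)) * Real.log 2) * (a + b) := by
        field_simp
    _ ≤ _ := mul_le_mul_of_nonneg_right h hs.le

theorem two_point (a b : ℝ) (ha : 0 ≤ a) (hb : 0 ≤ b) :
    2 * min a b * Real.log 2 ≤ (a + b) * Real.log (a + b) - a * Real.log a - b * Real.log b := by
  rcases le_total a b with h | h
  · rw [min_eq_left h]
    exact two_point_le a b ha h
  · rw [min_eq_right h]
    have := two_point_le b a hb h
    rw [add_comm b a] at this
    linarith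

theorem sum_cube_succ {k : ℕ} (F : (Fin (k + 1) → ZMod 2) → ℝ) :
    ∑ v, F v = ∑ u : Fin k → ZMod 2, (F (Fin.cons 0 u) + F (Fin.cons 1 u)) := by
  rw [← (Fin.consEquiv (fun _ : Fin (k + 1) => ZMod 2)).sum_comp, Fintype.sum_prod_type]
  rw [Finset.sum_add_distrib]
  exact Fin.sum_univ_two (fun a : Fin 2 => ∑ u : Fin k → ZMod 2, F (Fin.cons (α := fun _ => ZMod 2) a u))

theorem cons_add_single_zero {k : ℕ} (a : ZMod 2) (u : Fin k → ZMod 2) :
    (Fin.cons a u : Fin (k + 1) → ZMod 2) + Pi.single 0 1 = Fin.cons (a + 1) u := by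
  funext j
  refine Fin.cases ?_ (fun j => ?_) j
  · simp
  · simp

theorem cons_add_single_succ {k : ℕ} (a : ZMod 2) (u : Fin k → ZMod 2) (i : Fin k) :
    (Fin.cons a u : Fin (k + 1) → ZMod 2) + Pi.single i.succ 1 = Fin.cons a (u + Pi.single i 1) := by
  funext j
  refine Fin.cases ?_ (fun j => ?_) j
  · simp [Pi.single_apply]
  · simp [Pi.single_apply]

/-- The edge isoperimetric inequality of the cube in the form for entropies. -/
theorem cube_ineq : ∀ (k : ℕ) (w : (Fin k → ZMod 2) → ℝ), (∀ v, 0 ≤ w v) →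
    Real.log 2 * ∑ i : Fin k, ∑ v, min (w v) (w (v + Pi.single i 1)) ≤ En w := by
  intro k
  induction k with
  | zero =>
    intro w hw
    simp [En]
  | succ k ih =>
    intro w hw
    set w0 : (Fin k → ZMod 2) → ℝ := fun u => w (Fin.cons 0 u) with hw0
    set w1 : (Fin k → ZMod 2) → ℝ := fun u => w (Fin.cons 1 u) with hw1
    have h0 := ih w0 (fun _ => hw _)
    have h1 := ih w1 (fun _ => hw _)
    have e11 : (1 : ZMod 2) + 1 = 0 := by decide
    have t0 : ∑ v, min (w v) (w (v + Pi.single 0 1)) = 2 * ∑ u, min (w0 u) (w1 u) := by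
      rw [sum_cube_succ, Finset.mul_sum]
      refine Finset.sum_congr rfl fun u _ => ?_
      rw [cons_add_single_zero, cons_add_single_zero, zero_add, e11, min_comm (w (Fin.cons 1 u))]
      simp only [hw0, hw1]
      ring
    have t1 : ∀ i : Fin k, ∑ v, min (w v) (w (v + Pi.single i.succ 1)) =
        ∑ u, min (w0 u) (w0 (u + Pi.single i 1)) + ∑ u, min (w1 u) (w1 (u + Pi.single i 1)) := by
      intro i
      rw [sum_cube_succ, Finset.sum_add_distrib]
      congr 1
      · refine Finset.sum_congr rfl fun u _ => ?_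
        rw [cons_add_single_succ]
      · refine Finset.sum_congr rfl fun u _ => ?_
        rw [cons_add_single_succ]
    rw [Fin.sum_univ_succ, t0]
    simp only [t1]
    rw [Finset.sum_add_distrib]
    have hW0 : 0 ≤ ∑ u, w0 u := Finset.sum_nonneg fun _ _ => hw _
    have hW1 : 0 ≤ ∑ u, w1 u := Finset.sum_nonneg fun _ _ => hw _
    have hm : ∑ u, min (w0 u) (w1 u) ≤ min (∑ u, w0 u) (∑ u, w1 u) := by
      apply le_min
      · exact Finset.sum_le_sum fun _ _ => min_le_left _ _
      · exact Finset.sum_le_sum fun _ _ => min_le_right _ _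
    have h2 := two_point _ _ hW0 hW1
    have hl : 0 ≤ Real.log 2 := Real.log_nonneg (by norm_num)
    have hE : En w = En w0 + En w1 + ((∑ u, w0 u + ∑ u, w1 u) * Real.log (∑ u, w0 u + ∑ u, w1 u)
        - (∑ u, w0 u) * Real.log (∑ u, w0 u) - (∑ u, w1 u) * Real.log (∑ u, w1 u)) := by
      unfold En
      rw [sum_cube_succ, sum_cube_succ (fun v => w v * Real.log (w v)), Finset.sum_add_distrib,
        Finset.sum_add_distrib]
      ring
    rw [hE]
    have h3 : 2 * (∑ u, min (w0 u) (w1 u)) * Real.log 2 ≤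
        2 * min (∑ u, w0 u) (∑ u, w1 u) * Real.log 2 :=
      mul_le_mul_of_nonneg_right (mul_le_mul_of_nonneg_left hm (by norm_num)) hl
    nlinarith [h0, h1, h2, h3]

variable {ι α β : Type} [Fintype ι] [DecidableEq ι] [Fintype α] [DecidableEq α] [Fintype β] [DecidableEq β]

/-- The distribution of `g S`. -/
def push (π : α → ℝ) (g : (ι → α) → β) (v : β) : ℝ := Ex π (fun S => if g S = v then (1 : ℝ) else 0)

theorem push_nonneg {π : α → ℝ} (h : ∀ a, 0 ≤ π a) (g : (ι → α) → β) (v : β) : 0 ≤ push π g v := by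
  unfold push Ex
  refine Finset.sum_nonneg fun S _ => mul_nonneg (mu_nonneg h S) ?_
  dsimp only
  split_ifs <;> norm_num

theorem sum_push_mul (π : α → ℝ) (g : (ι → α) → β) (F : β → ℝ) :
    ∑ v, push π g v * F v = Ex π (fun S => F (g S)) := by
  unfold push Ex
  simp only [Finset.sum_mul]
  rw [Finset.sum_comm]
  refine Finset.sum_congr rfl fun S _ => ?_
  rw [Finset.sum_eq_single (g S)]
  · simp
  · intro v _ hv
    simp [Ne.symm hv]
  · simp

theorem mu_le_push {π : α → ℝ} (h : ∀ a, 0 ≤ π a) (g : (ι → α) → β) (S : ι → α) :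
    mu π S ≤ push π g (g S) := by
  unfold push Ex
  have := Finset.single_le_sum (f := fun S' => mu π S' * (if g S' = g S then (1 : ℝ) else 0))
    (fun S' _ => mul_nonneg (mu_nonneg h S') (by split_ifs <;> norm_num)) (Finset.mem_univ S)
  simpa using this

/-- The entropy of `g S` is at most the entropy of `S`. -/
theorem En_push_le {π : α → ℝ} (h : ∀ a, 0 < π a) (h1 : ∑ a, π a = 1) (g : (ι → α) → β) :
    En (push π g) ≤ (Fintype.card ι : ℝ) * ∑ a, π a * (- Real.log (π a)) := by
  have hs : ∑ v, push π g v = 1 := by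
    have := sum_push_mul π g (fun _ => 1)
    simp only [mul_one] at this
    rw [this, Ex_one h1]
  unfold En
  rw [hs, Real.log_one, mul_zero, zero_sub]
  rw [sum_push_mul π g (fun v => Real.log (push π g v))]
  have e1 : ∀ S : ι → α, Real.log (mu π S) = ∑ j, Real.log (π (S j)) := by
    intro S
    unfold mu
    rw [Real.log_prod]
    intro j _
    exact (h _).ne'
  have e2 : Ex π (fun S : ι → α => Real.log (mu π S)) ≤ Ex π (fun S => Real.log (push π g (g S))) := by
    apply Ex_mono (fun a => (h a).le)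
    intro S
    exact Real.log_le_log (mu_pos h S) (mu_le_push (fun a => (h a).le) g S)
  have e3 : Ex π (fun S : ι → α => Real.log (mu π S)) = (Fintype.card ι : ℝ) * ∑ a, π a * Real.log (π a) := by
    simp only [e1]
    rw [Ex_sum]
    have : ∀ j : ι, Ex π (fun S : ι → α => Real.log (π (S j))) = ∑ a, π a * Real.log (π a) :=
      fun j => Ex_coord h1 j (fun a => Real.log (π a))
    simp only [this]
    rw [Finset.sum_const, Finset.card_univ, nsmul_eq_mul]
  have e4 : ∑ a, π a * (- Real.log (π a)) = - ∑ a, π a * Real.log (π a) := by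
    rw [← Finset.sum_neg_distrib]
    exact Finset.sum_congr rfl fun a _ => by ring
  rw [e4]
  rw [e3] at e2
  linarith

end

end Pool.Agent.LDCX
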