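import Pool.Agent.LDCX.Main
import Pool.Agent.LDCX.Code

/-!
# The finite inequality for linear locally decodable codes over an arbitrary finite field
-/

open scoped BigOperators
open Finset

namespace Pool.Agent.LDCX

noncomputable section

open Classical

/-- The set of the coordinates with value one. -/
def on {n : ℕ} (S : Fin n → ZMod 2) : Finset (Fin n) := Finset.univ.filter (fun j => S j = 1)

theorem Ex_card_on {n : ℕ} (e : ℝ) : Ex (bw e) (fun S : Fin n → ZMod 2 => ((on S).card : ℝ)) = e * n := by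
  have h : (fun S : Fin n → ZMod 2 => ((on S).card : ℝ)) =
      fun S => ∑ j : Fin n, (fun (j : Fin n) (S : Fin n → ZMod 2) => if S j = 1 then (1 : ℝ) else 0) j S := by
    funext S
    simp only [on]
    rw [Finset.sum_boole]
  rw [h, Ex_sum]
  have h2 : ∀ j : Fin n, Ex (bw e) (fun S : Fin n → ZMod 2 => if S j = 1 then (1 : ℝ) else 0) = e := by
    intro j
    rw [Ex_coord (bw_sum e) j (fun a => if a = 1 then (1 : ℝ) else 0), sum_zmod2, bw_zero, bw_one]
    simp
  rw [Finset.sum_congr rfl fun j _ => h2 j, Finset.sum_const, Finset.card_univ, Fintype.card_fin,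
    nsmul_eq_mul, mul_comm]

theorem Ex_subset_on {n : ℕ} (e : ℝ) (Q : Finset (Fin n)) :
    Ex (bw e) (fun S : Fin n → ZMod 2 => if Q ⊆ on S then (1 : ℝ) else 0) = e ^ Q.card := by
  have h : (fun S : Fin n → ZMod 2 => if Q ⊆ on S then (1 : ℝ) else 0) =
      fun S => ∏ j, (if j ∈ Q then (if S j = 1 then (1 : ℝ) else 0) else 1) := by
    funext S
    by_cases hQ : Q ⊆ on S
    · rw [if_pos hQ]
      symm
      refine Finset.prod_eq_one fun j _ => ?_
      by_cases hj : j ∈ Q
      · have := hQ hj
        rw [on, Finset.mem_filter] at this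
        rw [if_pos hj, if_pos this.2]
      · rw [if_neg hj]
    · rw [if_neg hQ]
      rw [Finset.subset_iff] at hQ
      push Not at hQ
      obtain ⟨j, hj, hj2⟩ := hQ
      symm
      apply Finset.prod_eq_zero (Finset.mem_univ j)
      rw [if_pos hj, if_neg]
      intro h
      apply hj2
      rw [on, Finset.mem_filter]
      exact ⟨Finset.mem_univ _, h⟩
  rw [h, Ex_prod (bw e) (fun j a => if j ∈ Q then (if a = 1 then (1 : ℝ) else 0) else 1)]
  have h2 : ∀ j : Fin n, ∑ a, bw e a * (if j ∈ Q then (if a = 1 then (1 : ℝ) else 0) else 1) =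
      if j ∈ Q then e else 1 := by
    intro j
    rw [sum_zmod2, bw_zero, bw_one]
    by_cases hj : j ∈ Q <;> simp [hj]
  rw [Finset.prod_congr rfl fun j _ => h2 j, Finset.prod_ite_mem, Finset.univ_inter, Finset.prod_const]

variable {F : Type} [Field F] [Fintype F] {n k : ℕ}

theorem card_recovered_le (E : (Fin k → F) →ₗ[F] (Fin n → F)) (D : Finset (Fin n)) (R : Finset (Fin k))
    (hR : ∀ i ∈ R, ∃ c : Fin n → F, (∀ j, j ∉ D → c j = 0) ∧ ∀ x, ∑ j, c j * E x j = x i) :
    R.card ≤ D.card := by
  let ext : (R → F) → (Fin k → F) := fun x i => if h : i ∈ R then x ⟨i, h⟩ else 0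
  let φ : (R → F) → (D → F) := fun x j => E (ext x) j
  have hinj : Function.Injective φ := by
    intro x y hxy
    funext i
    obtain ⟨c, hc, hc2⟩ := hR i i.2
    have h1 := hc2 (ext x)
    have h2 := hc2 (ext y)
    have e1 : ext x i = x i := by simp [ext]
    have e2 : ext y i = y i := by simp [ext]
    rw [e1] at h1
    rw [e2] at h2
    rw [← h1, ← h2]
    refine Finset.sum_congr rfl fun j _ => ?_
    by_cases hj : j ∈ D
    · have : φ x ⟨j, hj⟩ = φ y ⟨j, hj⟩ := by rw [hxy]
      simp only [φ] at this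
      rw [this]
    · rw [hc j hj, zero_mul, zero_mul]
  have h := Fintype.card_le_of_injective φ hinj
  rw [Fintype.card_fun, Fintype.card_fun, Fintype.card_coe, Fintype.card_coe] at h
  exact (Nat.pow_le_pow_iff_right (Fintype.one_lt_card (α := F))).1 h

theorem erasure_bound {t : ℕ} (E : (Fin k → F) →ₗ[F] (Fin n → F)) {δ e : ℝ}
    (hE : IsLDC (fun x => E x) δ t) (he : 0 < e) (he1 : e < 1) (m : ℕ) (hm : (m : ℝ) * t < δ * n) :
    (k : ℝ) * (1 - (1 - e ^ t) ^ m) ≤ e * n := by
  have h := fun i => exists_disjoint E hE i m hm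
  choose Q c h1 h2 h3 h4 using h
  have hb0 : ∀ a, 0 ≤ bw e a := fun a => (bw_pos he he1 a).le
  rw [← Ex_card_on]
  let y : Fin k → Fin m → (Fin n → ZMod 2) → ℝ := fun i a S => if Q i a ⊆ on S then (1 : ℝ) else 0
  have hy : ∀ i, 1 - (1 - e ^ t) ^ m ≤ Ex (bw e) (fun S => 1 - ∏ a, (1 - y i a S)) := by
    intro i
    have e3 : Ex (bw e) (fun S : Fin n → ZMod 2 => 1 - ∏ a, (1 - y i a S)) =
        Ex (bw e) (fun _ : Fin n → ZMod 2 => (1 : ℝ)) - Ex (bw e) (fun S => ∏ a, (1 - y i a S)) :=
      Ex_sub _ _ _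
    rw [e3, Ex_one (bw_sum e)]
    rw [Ex_prod_disjoint (bw_sum e) Finset.univ (Q i) (fun a _ b _ hab => h2 i a b hab)
        (fun a S => 1 - y i a S) (fun a _ S S' h => by
          have : (Q i a ⊆ on S) ↔ (Q i a ⊆ on S') := by
            constructor
            · intro hh j hj
              have := hh hj
              rw [on, Finset.mem_filter] at this ⊢
              exact ⟨Finset.mem_univ _, by rw [← h j hj]; exact this.2⟩
            · intro hh j hj
              have := hh hj
              rw [on, Finset.mem_filter] at this ⊢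
              exact ⟨Finset.mem_univ _, by rw [h j hj]; exact this.2⟩
          simp only [y, this])]
    have e4 : ∀ a, Ex (bw e) (fun S : Fin n → ZMod 2 => 1 - y i a S) = 1 - e ^ (Q i a).card := by
      intro a
      have : Ex (bw e) (fun S : Fin n → ZMod 2 => 1 - y i a S) =
          Ex (bw e) (fun _ : Fin n → ZMod 2 => (1 : ℝ)) - Ex (bw e) (y i a) := Ex_sub _ _ _
      rw [this, Ex_one (bw_sum e)]
      simp only [y]
      rw [Ex_subset_on]
    rw [Finset.prod_congr rfl fun a _ => e4 a]
    have h5 : ∏ a : Fin m, (1 - e ^ (Q i a).card) ≤ ∏ _a : Fin m, (1 - e ^ t) := by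
      refine Finset.prod_le_prod (fun a _ => ?_) (fun a _ => ?_)
      · have := pow_le_one₀ (n := (Q i a).card) he.le he1.le
        linarith
      · have := pow_le_pow_of_le_one he.le he1.le (h1 i a)
        linarith
    rw [Finset.prod_const, Finset.card_univ, Fintype.card_fin] at h5
    linarith
  have hsum : ∑ i : Fin k, Ex (bw e) (fun S => 1 - ∏ a, (1 - y i a S)) ≤
      Ex (bw e) (fun S : Fin n → ZMod 2 => ((on S).card : ℝ)) := by
    rw [← Ex_sum]
    apply Ex_mono hb0
    intro S
    let R : Finset (Fin k) := Finset.univ.filter (fun i => ∃ a, Q i a ⊆ on S)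
    have hR : R.card ≤ (on S).card := by
      apply card_recovered_le E
      intro i hi
      rw [Finset.mem_filter] at hi
      obtain ⟨a, ha⟩ := hi.2
      exact ⟨c i a, fun j hj => h3 i a j (fun h => hj (ha h)), h4 i a⟩
    have h6 : ∑ i : Fin k, (1 - ∏ a, (1 - y i a S)) ≤ ∑ i : Fin k, (if i ∈ R then (1 : ℝ) else 0) := by
      refine Finset.sum_le_sum fun i _ => ?_
      by_cases hi : i ∈ R
      · rw [if_pos hi]
        have : 0 ≤ ∏ a, (1 - y i a S) := by
          refine Finset.prod_nonneg fun a _ => ?_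
          simp only [y]
          split_ifs <;> norm_num
        linarith
      · rw [if_neg hi]
        have : ∏ a, (1 - y i a S) = 1 := by
          refine Finset.prod_eq_one fun a _ => ?_
          have hh : ¬ (Q i a ⊆ on S) := by
            intro hh
            apply hi
            rw [Finset.mem_filter]
            exact ⟨Finset.mem_univ _, a, hh⟩
          simp only [y, if_neg hh, sub_zero]
        linarith
    refine h6.trans ?_
    have h7 : ∑ i : Fin k, (if i ∈ R then (1 : ℝ) else 0) = (R.card : ℝ) := by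
      rw [Finset.sum_ite_mem, Finset.univ_inter, Finset.sum_const, nsmul_eq_mul, mul_one]
    rw [h7]
    exact_mod_cast hR
  refine le_trans ?_ hsum
  calc (k : ℝ) * (1 - (1 - e ^ t) ^ m) = ∑ _i : Fin k, (1 - (1 - e ^ t) ^ m) := by
        rw [Finset.sum_const, Finset.card_univ, Fintype.card_fin, nsmul_eq_mul]
    _ ≤ _ := Finset.sum_le_sum fun i _ => hy i

end

end Pool.Agent.LDCX
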