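import Pool.Agent.LDCX.Bin
import Pool.Agent.LDCX.Era
import Pool.Agent.LDCX.Asym

/-!
# Lower bounds for the number of queries of linear locally decodable codes
-/

open scoped BigOperators
open Finset

namespace Pool.Agent.LDCX

noncomputable section

theorem theta_le_one {p : ℝ} (hp : 0 < p) (hp1 : p < 1) (r : ℕ) :
    ((2 * r).choose r : ℝ) * (p * (1 - p)) ^ r ≤ 1 := by
  have h := Ex_xg p (r := r) (Finset.univ : Finset (Fin (2 * r))) (by simp)
  rw [← h, ← Ex_one (ι := Fin (2 * r)) (bw_sum p)]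
  exact Ex_mono (fun a => (bw_pos hp hp1 a).le) (fun S => xg_le_one r _ S)

theorem theta_ge {p : ℝ} (hp : 0 < p) (hp1 : p < 1) (r : ℕ) (hr : 0 < r) :
    (4 * p * (1 - p)) ^ r / (2 * (r : ℝ)) ≤ ((2 * r).choose r : ℝ) * (p * (1 - p)) ^ r := by
  have h := Nat.four_pow_le_two_mul_self_mul_centralBinom r hr
  rw [Nat.centralBinom] at h
  have h2 : (4 : ℝ) ^ r ≤ 2 * r * ((2 * r).choose r : ℝ) := by exact_mod_cast h
  have hr0 : (0 : ℝ) < r := by exact_mod_cast hr
  rw [div_le_iff₀ (by positivity)]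
  have e : (4 * p * (1 - p)) ^ r = 4 ^ r * (p * (1 - p)) ^ r := by
    rw [← mul_pow]; congr 1; ring
  rw [e]
  have hq : 0 < 1 - p := by linarith
  calc 4 ^ r * (p * (1 - p)) ^ r ≤ (2 * r * ((2 * r).choose r : ℝ)) * (p * (1 - p)) ^ r :=
        mul_le_mul_of_nonneg_right h2 (by positivity)
    _ = _ := by ring

/-- Binary linear codes. -/
theorem binary_final (ρ δ p : ℝ) (hδ : 0 < δ) (hp : 0 < p) (hp2 : p < 1 / 2)
    (hH : Real.binEntropy p < ρ * Real.log 2) :
    ∃ n0 : ℕ, ∀ n : ℕ, n0 ≤ n → ∀ (k t : ℕ) (E : (Fin k → ZMod 2) →ₗ[ZMod 2] (Fin n → ZMod 2)),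
      ρ * n ≤ k → IsLDC (fun x => E x) δ t → 2 * Real.log n / Real.log (1 / (4 * p * (1 - p))) ≤ t := by
  have hl2 : 0 < Real.log 2 := Real.log_pos (by norm_num)
  -- a slightly larger p'
  obtain ⟨p', hpp', hp'2, hH'⟩ : ∃ p' : ℝ, p < p' ∧ p' < 1 / 2 ∧ Real.binEntropy p' < ρ * Real.log 2 := by
    have hcont : Filter.Tendsto Real.binEntropy (nhdsWithin p (Set.Ioi p)) (nhds (Real.binEntropy p)) :=
      (Real.binEntropy_continuous.tendsto p).mono_left nhdsWithin_le_nhds
    have h1 := hcont.eventually (gt_mem_nhds hH)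
    have h2 : ∀ᶠ x in nhdsWithin p (Set.Ioi p), x < 1 / 2 :=
      Filter.Eventually.filter_mono nhdsWithin_le_nhds (gt_mem_nhds hp2)
    have h3 : ∀ᶠ x in nhdsWithin p (Set.Ioi p), p < x := self_mem_nhdsWithin
    obtain ⟨x, hx⟩ := ((h1.and h2).and h3).exists
    exact ⟨x, hx.2, hx.1.2, hx.1.1⟩
  have hp'0 : 0 < p' := hp.trans hpp'
  have hp'1 : p' < 1 := by linarith
  have hHpos : 0 < Real.binEntropy p' := Real.binEntropy_pos hp'0 hp'1
  have hρ : 0 < ρ * Real.log 2 := hHpos.trans hH'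
  have hρ0 : 0 < ρ := by
    by_contra h
    push Not at h
    have := mul_nonpos_of_nonpos_of_nonneg h hl2.le
    linarith
  -- the constants c and η
  set d := ρ * Real.log 2 - Real.binEntropy p' with hd
  have hd0 : 0 < d := by linarith
  set c := min (δ / 2) (d / (4 * Real.binEntropy p')) with hc
  have hc0 : 0 < c := lt_min (by positivity) (by positivity)
  have hc1 : c ≤ δ / 2 := min_le_left _ _
  have hc2 : c * Real.binEntropy p' ≤ d / 4 := by
    have : c ≤ d / (4 * Real.binEntropy p') := min_le_right _ _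
    calc c * Real.binEntropy p' ≤ d / (4 * Real.binEntropy p') * Real.binEntropy p' :=
          mul_le_mul_of_nonneg_right this hHpos.le
      _ = d / 4 := by field_simp
  set η := d / (4 * (ρ * Real.log 2)) with hη
  have hη0 : 0 < η := by positivity
  have hη1 : η * (ρ * Real.log 2) = d / 4 := by
    rw [hη]; field_simp
  have hη2 : η < 1 := by
    rw [hη, div_lt_one (by positivity)]
    linarith
  have hb' : 0 < 4 * p * (1 - p) := by
    have : 0 < 1 - p := by linarith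
    positivity
  have hbb : 4 * p * (1 - p) < 4 * p' * (1 - p') := by nlinarith
  have hb1 : 4 * p' * (1 - p') < 1 := by nlinarith [mul_pos (sub_pos.2 hp'2) (sub_pos.2 hp'2)]
  obtain ⟨n0, hn0⟩ := asym (4 * p * (1 - p)) (4 * p' * (1 - p')) c η hb' hbb hb1 hc0 hη0
  refine ⟨max n0 1, fun n hn k t E hk hE => ?_⟩
  have hn1 : n0 ≤ n := (le_max_left _ _).trans hn
  have hnpos : (0 : ℝ) < n := by
    have : 1 ≤ n := (le_max_right _ _).trans hn
    exact_mod_cast this
  by_contra hcon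
  push Not at hcon
  have hy := hn0 n hn1 t hcon
  set r : ℕ := t / 2 + 1 with hr
  have hrpos : 0 < r := by omega
  have htr : t ≤ 2 * r := by omega
  have hr0 : (0 : ℝ) < r := by exact_mod_cast hrpos
  set m := ⌊c * n / (2 * (r : ℝ))⌋₊ with hm
  have hmle : (m : ℝ) * (2 * r) ≤ c * n := by
    have : (m : ℝ) ≤ c * n / (2 * r) := Nat.floor_le (by positivity)
    calc (m : ℝ) * (2 * r) ≤ c * n / (2 * r) * (2 * r) := mul_le_mul_of_nonneg_right this (by positivity)
      _ = c * n := by field_simp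
  have hmt : (m : ℝ) * t < δ * n := by
    have h1 : (m : ℝ) * t ≤ (m : ℝ) * (2 * r) := by
      apply mul_le_mul_of_nonneg_left _ (Nat.cast_nonneg _)
      exact_mod_cast htr
    have h2 : c * n ≤ δ / 2 * n := mul_le_mul_of_nonneg_right hc1 hnpos.le
    have h3 : 0 < δ / 2 * n := by positivity
    linarith
  have hmain := binary_bound E hE hp'0 hp'1 m r htr hmt
  have hθ1 := theta_le_one hp'0 hp'1 r
  have hθ2 := theta_ge hp'0 hp'1 r hrpos
  set θ := ((2 * r).choose r : ℝ) * (p' * (1 - p')) ^ r with hθ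
  have hpow : (1 - θ) ^ m ≤ η := by
    refine le_trans ?_ hy
    exact pow_le_pow_left₀ (by linarith) (by linarith) m
  have hk0 : (0 : ℝ) ≤ k := Nat.cast_nonneg _
  have h1 : (k : ℝ) * (1 - η) ≤ (k : ℝ) * (1 - (1 - θ) ^ m) :=
    mul_le_mul_of_nonneg_left (by linarith) hk0
  have h2 : ρ * n * (1 - η) ≤ (k : ℝ) * (1 - η) := mul_le_mul_of_nonneg_right hk (by linarith)
  have h3 : Real.log 2 * (ρ * n * (1 - η)) ≤ ((n : ℝ) + m * (2 * r)) * Real.binEntropy p' :=
    (mul_le_mul_of_nonneg_left (h2.trans h1) hl2.le).trans hmain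
  have h4 : ((n : ℝ) + m * (2 * r)) * Real.binEntropy p' ≤ ((n : ℝ) + c * n) * Real.binEntropy p' :=
    mul_le_mul_of_nonneg_right (by linarith) hHpos.le
  have h5 : Real.log 2 * (ρ * n * (1 - η)) = n * (ρ * Real.log 2 - η * (ρ * Real.log 2)) := by ring
  have h6 : ((n : ℝ) + c * n) * Real.binEntropy p' = n * (Real.binEntropy p' + c * Real.binEntropy p') := by ring
  rw [h5, hη1] at h3
  rw [h6] at h4
  have h7 : n * (ρ * Real.log 2 - d / 4) ≤ n * (Real.binEntropy p' + c * Real.binEntropy p') := h3.trans h4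
  have h8 : ρ * Real.log 2 - d / 4 ≤ Real.binEntropy p' + c * Real.binEntropy p' :=
    le_of_mul_le_mul_left h7 hnpos
  linarith

/-- Linear codes over an arbitrary finite field. -/
theorem erasure_final (ρ ρ' δ : ℝ) (hδ : 0 < δ) (hρ' : 0 < ρ') (hρρ : ρ' < ρ) (hρ1 : ρ' < 1) :
    ∃ n0 : ℕ, ∀ n : ℕ, n0 ≤ n → ∀ (F : Type) [Field F] [Fintype F] (k t : ℕ)
      (E : (Fin k → F) →ₗ[F] (Fin n → F)),
      ρ * n ≤ k → IsLDC (fun x => E x) δ t → Real.log n / Real.log (1 / ρ') ≤ t := by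
  obtain ⟨e, he1, he2⟩ : ∃ e : ℝ, ρ' < e ∧ e < min ρ 1 := exists_between (lt_min hρρ hρ1)
  have heρ : e < ρ := he2.trans_le (min_le_left _ _)
  have heone : e < 1 := he2.trans_le (min_le_right _ _)
  have he0 : 0 < e := hρ'.trans he1
  have hρ0 : 0 < ρ := he0.trans heρ
  set η := (ρ - e) / (2 * ρ) with hη
  have hη0 : 0 < η := by
    have : 0 < ρ - e := by linarith
    positivity
  have hη1 : ρ * η = (ρ - e) / 2 := by
    rw [hη]; field_simp
  have hη2 : η < 1 := by
    rw [hη, div_lt_one (by positivity)]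
    linarith
  have hbb : ρ' ^ 2 < e ^ 2 := by nlinarith
  have hb1 : e ^ 2 < 1 := by nlinarith
  obtain ⟨n0, hn0⟩ := asym (ρ' ^ 2) (e ^ 2) (δ / 2) η (by positivity) hbb hb1 (by positivity) hη0
  refine ⟨max n0 1, fun n hn F _ _ k t E hk hE => ?_⟩
  have hn1 : n0 ≤ n := (le_max_left _ _).trans hn
  have hnpos : (0 : ℝ) < n := by
    have : 1 ≤ n := (le_max_right _ _).trans hn
    exact_mod_cast this
  by_contra hcon
  push Not at hcon
  have hcon' : (t : ℝ) < 2 * Real.log n / Real.log (1 / ρ' ^ 2) := by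
    have : Real.log (1 / ρ' ^ 2) = 2 * Real.log (1 / ρ') := by
      rw [one_div, one_div, Real.log_inv, Real.log_inv, Real.log_pow]
      push_cast
      ring
    rw [this, mul_div_mul_left _ _ (by norm_num : (2 : ℝ) ≠ 0)]
    exact hcon
  have hy := hn0 n hn1 t hcon'
  set r : ℕ := t / 2 + 1 with hr
  have hrpos : 0 < r := by omega
  have htr : t ≤ 2 * r := by omega
  have hr0 : (0 : ℝ) < r := by exact_mod_cast hrpos
  have hr1 : (1 : ℝ) ≤ r := by exact_mod_cast hrpos
  set m := ⌊δ / 2 * n / (2 * (r : ℝ))⌋₊ with hm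
  have hmle : (m : ℝ) * (2 * r) ≤ δ / 2 * n := by
    have : (m : ℝ) ≤ δ / 2 * n / (2 * r) := Nat.floor_le (by positivity)
    calc (m : ℝ) * (2 * r) ≤ δ / 2 * n / (2 * r) * (2 * r) :=
          mul_le_mul_of_nonneg_right this (by positivity)
      _ = δ / 2 * n := by field_simp
  have hmt : (m : ℝ) * t < δ * n := by
    have h1 : (m : ℝ) * t ≤ (m : ℝ) * (2 * r) := by
      apply mul_le_mul_of_nonneg_left _ (Nat.cast_nonneg _)
      exact_mod_cast htr
    have h3 : 0 < δ / 2 * n := by positivity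
    linarith
  have hmain := erasure_bound E hE he0 heone m hmt
  have het : (e ^ 2) ^ r / (2 * (r : ℝ)) ≤ e ^ t := by
    have h1 : (e ^ 2) ^ r ≤ e ^ t := by
      rw [← pow_mul]
      exact pow_le_pow_of_le_one he0.le heone.le htr
    have h2 : 0 < (e ^ 2) ^ r := by positivity
    have h3 : (e ^ 2) ^ r / (2 * (r : ℝ)) ≤ (e ^ 2) ^ r := by
      rw [div_le_iff₀ (by positivity)]
      nlinarith
    linarith
  have het1 : e ^ t ≤ 1 := pow_le_one₀ he0.le heone.le
  have hpow : (1 - e ^ t) ^ m ≤ η := by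
    refine le_trans ?_ hy
    exact pow_le_pow_left₀ (by linarith) (by linarith) m
  have hk0 : (0 : ℝ) ≤ k := Nat.cast_nonneg _
  have h1 : (k : ℝ) * (1 - η) ≤ (k : ℝ) * (1 - (1 - e ^ t) ^ m) :=
    mul_le_mul_of_nonneg_left (by linarith) hk0
  have h2 : ρ * n * (1 - η) ≤ (k : ℝ) * (1 - η) := mul_le_mul_of_nonneg_right hk (by linarith)
  have h3 : ρ * n * (1 - η) ≤ e * n := (h2.trans h1).trans hmain
  have h5 : ρ * n * (1 - η) = n * (ρ - ρ * η) := by ring
  rw [h5, hη1, mul_comm e] at h3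
  have h8 : ρ - (ρ - e) / 2 ≤ e := le_of_mul_le_mul_left h3 hnpos
  linarith

end

end Pool.Agent.LDCX
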