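import Pool.Agent.LDCX.Noise4

/-!
# Lower bound for the number of queries of arbitrary locally decodable codes with non-adaptive decoders
-/

open scoped BigOperators
open Finset

namespace Pool.Agent.LDCX

noncomputable section

/-- Arbitrary codes with non-adaptive decoders. -/
theorem general_final2 (ρ ρ' δ q : ℝ) (hδ : 0 < δ) (hρ' : 0 < ρ') (hρρ : ρ' < ρ) (hρq : ρ' < q) (hq1 : q < 1) :
    ∃ n0 : ℕ, ∀ n : ℕ, n0 ≤ n → ∀ (S : Type) [Fintype S] [Nontrivial S],
      (1 - q) * (Fintype.card S - 1) ≤ δ * Fintype.card S → ∀ (k t : ℕ) (E : (Fin k → S) → (Fin n → S)),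
      ρ * n ≤ k → IsNonAdLDC E δ t → Real.log n / KL q ρ' ≤ t := by
  have hl2 : 0 < Real.log 2 := Real.log_pos (by norm_num)
  obtain ⟨e, he1, he2⟩ : ∃ e : ℝ, ρ' < e ∧ e < min ρ q := exists_between (lt_min hρρ hρq)
  have heρ : e < ρ := he2.trans_le (min_le_left _ _)
  have heq : e < q := he2.trans_le (min_le_right _ _)
  have heone : e < 1 := heq.trans hq1
  have he0 : 0 < e := hρ'.trans he1
  have hρ0 : 0 < ρ := he0.trans heρ
  have hq0 : 0 < q := he0.trans heq
  have h1q : 0 < 1 - q := by linarith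
  set K := KL q ρ' with hK
  have hKe : KL q e < K := KL_anti hρ' he1 heq hq1
  have hK0 : 0 < K := lt_of_le_of_lt (KL_nonneg he0 heone hq0 hq1) hKe
  -- a slightly larger q'
  obtain ⟨q', hqq', hq'1, hKq'⟩ : ∃ q' : ℝ, q < q' ∧ q' < 1 ∧ KL q' e < K := by
    have hcont : Filter.Tendsto (fun x => KL x e) (nhdsWithin q (Set.Ioi q)) (nhds (KL q e)) :=
      (KL_cont he0 heone hq0 hq1).tendsto.mono_left nhdsWithin_le_nhds
    have h1 := hcont.eventually (gt_mem_nhds hKe)
    have h2 : ∀ᶠ x in nhdsWithin q (Set.Ioi q), x < 1 :=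
      Filter.Eventually.filter_mono nhdsWithin_le_nhds (gt_mem_nhds hq1)
    have h3 : ∀ᶠ x in nhdsWithin q (Set.Ioi q), q < x := self_mem_nhdsWithin
    obtain ⟨x, hx⟩ := ((h1.and h2).and h3).exists
    exact ⟨x, hx.2, hx.1.2, hx.1.1⟩
  have heq' : e < q' := heq.trans hqq'
  have hq'0 : 0 < q' := he0.trans heq'
  have h1q' : 0 < 1 - q' := by linarith
  have h1e : 0 < 1 - e := by linarith
  have hKL' : 0 ≤ KL q' e := KL_nonneg he0 heone hq'0 hq'1
  set c1 := Real.log (q' / e) - Real.log ((1 - q') / (1 - e)) with hc1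
  have hc10 : 0 < c1 := by
    have h2 : 0 < Real.log (q' / e) := Real.log_pos (by rw [lt_div_iff₀ he0]; linarith)
    have h3 : Real.log ((1 - q') / (1 - e)) < 0 :=
      Real.log_neg (div_pos h1q' h1e) (by rw [div_lt_one h1e]; linarith)
    linarith
  set ε := (K - KL q' e) / (2 * c1) with hε
  have hε0 : 0 < ε := by
    have : 0 < K - KL q' e := by linarith
    positivity
  set Dt := KL q' e + ε * c1 with hDt
  have hDt1 : Dt = (K + KL q' e) / 2 := by
    rw [hDt, hε]; field_simp; ring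
  have hDtK : Dt < K := by rw [hDt1]; linarith
  have hDt0 : 0 < Dt := by rw [hDt1]; linarith
  set γ := δ * (q' - q) / (1 - q) with hγ
  have hγ0 : 0 < γ := by
    have : 0 < q' - q := by linarith
    positivity
  -- the constants for the counting
  set η := (ρ - e) / (2 * ρ) with hη
  have hη0 : 0 < η := by
    have : 0 < ρ - e := by linarith
    positivity
  have hη1 : ρ * η = (ρ - e) / 2 := by
    rw [hη]; field_simp
  have hη2 : η < 1 := by
    rw [hη, div_lt_one (by positivity)]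
    linarith
  set l0 := min 1 (η / 3 * Real.log 2) with hl0
  have hl00 : 0 < l0 := lt_min (by norm_num) (by positivity)
  have hl01 : l0 ≤ 1 := min_le_left _ _
  have hl02 : l0 ≤ η / 3 * Real.log 2 := min_le_right _ _
  have hll : 0 ≤ Real.log (1 / l0) := by
    apply Real.log_nonneg
    rw [le_div_iff₀ hl00]
    linarith
  set ε1 := min (η / 3) (η / 3 * Real.log 2 / (Real.log (1 / l0) + 1)) with hε1
  have hε10 : 0 < ε1 := lt_min (by positivity) (by positivity)
  have hε11 : ε1 ≤ η / 3 := min_le_left _ _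
  have hε12 : ε1 * Real.log (1 / l0) ≤ η / 3 * Real.log 2 := by
    have h1 : ε1 ≤ η / 3 * Real.log 2 / (Real.log (1 / l0) + 1) := min_le_right _ _
    have h2 : ε1 * (Real.log (1 / l0) + 1) ≤ η / 3 * Real.log 2 := by
      rw [le_div_iff₀ (by linarith)] at h1
      exact h1
    linarith
  -- the size of n
  set κ := Dt / K with hκ
  have hκ1 : κ < 1 := by rw [hκ, div_lt_one hK0]; exact hDtK
  set s' := 1 - κ with hs'
  have hs'0 : 0 < s' := by linarith
  obtain ⟨t1, ht1⟩ : ∃ t1 : ℕ, 24 / ε ^ 2 < t1 := exists_nat_gt _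
  set C := 576 / γ * (1 / K ^ 2) * (16 / s' ^ 2) with hC
  have hC0 : 0 < C := by positivity
  have hev1 : ∀ᶠ x : ℝ in Filter.atTop, K * t1 < Real.log x :=
    Real.tendsto_log_atTop.eventually_gt_atTop _
  have hev2 : ∀ᶠ x : ℝ in Filter.atTop, C / ε1 ≤ x ^ (s' / 2) :=
    (tendsto_rpow_atTop (by positivity)).eventually_ge_atTop _
  have hev3 : ∀ᶠ x : ℝ in Filter.atTop, 96 / γ ^ 2 ≤ x := Filter.eventually_ge_atTop _
  have hev := ((hev1.and hev2).and hev3).and (Filter.eventually_ge_atTop (3 : ℝ))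
  have hevn := tendsto_natCast_atTop_atTop.eventually hev
  obtain ⟨n0, hn0⟩ := Filter.eventually_atTop.1 hevn
  refine ⟨n0, fun n hn S _ _ hS k t E hk hE => ?_⟩
  obtain ⟨⟨⟨hx1, hx2⟩, hx3⟩, hx4⟩ := hn0 n hn
  have hnpos : (0 : ℝ) < n := by linarith
  have hnpos' : 0 < n := by exact_mod_cast hnpos
  by_contra hcon
  push Not at hcon
  -- enlarge t
  set T : ℕ := max t t1 with hT
  have hTle : (T : ℝ) < Real.log n / K := by
    rw [hT]
    rcases le_total t t1 with h | h
    · rw [max_eq_right h, lt_div_iff₀ hK0, mul_comm]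
      exact hx1
    · rw [max_eq_left h]
      exact hcon
  have hE' : IsNonAdLDC E δ T := hE.mono (le_max_left _ _)
  have hT24 : 24 / ε ^ 2 < T := by
    refine lt_of_lt_of_le ht1 ?_
    exact_mod_cast le_max_right t t1
  have hT0 : (0 : ℝ) < T := lt_trans (by positivity) hT24
  have hT0' : 0 < T := by exact_mod_cast hT0
  have h24' : 1 / (ε ^ 2 * T) ≤ 1 / 24 := by
    apply one_div_le_one_div_of_le (by norm_num)
    have := hT24.le
    rw [div_le_iff₀ (by positivity)] at this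
    linarith
  have h24 : 4 / (γ ^ 2 * n) ≤ 1 / 24 := by
    rw [div_le_div_iff₀ (by positivity) (by norm_num)]
    rw [div_le_iff₀ (by positivity)] at hx3
    linarith
  set τ := 2 * (T : ℝ) / (γ * n) with hτ
  have hτ0 : 0 < τ := by positivity
  have hHτ : (T : ℝ) ≤ γ / 2 * n * τ := by
    rw [hτ]
    apply le_of_eq
    field_simp
  set s : ℝ := (Fintype.card S : ℝ) with hs
  have hs2 : (2 : ℝ) ≤ s := by
    rw [hs]
    exact_mod_cast Fintype.one_lt_card (α := S)
  have hs0 : 0 < s := by linarith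
  have hδ' : (1 - q') * (s - 1) / s + γ ≤ δ := by
    have h1 : (1 - q) * (s - 1) / s ≤ δ := by
      rw [div_le_iff₀ hs0]
      exact hS
    have h2 : (1 - q') * (s - 1) / s = (1 - q') / (1 - q) * ((1 - q) * (s - 1) / s) := by
      field_simp
    have h3 : (1 - q') / (1 - q) * ((1 - q) * (s - 1) / s) ≤ (1 - q') / (1 - q) * δ :=
      mul_le_mul_of_nonneg_left h1 (by positivity)
    have h4 : (1 - q') / (1 - q) * δ + γ = δ := by
      rw [hγ]; field_simp; ring
    rw [h2]
    linarith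
  set l := l0 / s with hl
  have hlpos : 0 < l := by positivity
  have hlone : l ≤ 1 := by
    rw [hl, div_le_one hs0]
    linarith
  obtain ⟨s0⟩ : Nonempty S := inferInstance
  have hmain := general_bound2 E hE' s0 he0 heq' hq'1 hKL' hτ0 hε0 hγ0 hnpos' hT0' hδ' hHτ h24 h24' hlpos hlone
  rw [← hs] at hmain
  set ζ := 288 * (Real.exp (T * (KL q' e + ε * (Real.log (q' / e) - Real.log ((1 - q') / (1 - e))))) * (T * τ)) with hζ
  have hζ0 : 0 ≤ ζ := by positivity
  have hζle : ζ ≤ ε1 := by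
    have h1 : Real.exp (T * (KL q' e + ε * (Real.log (q' / e) - Real.log ((1 - q') / (1 - e))))) ≤
        (n : ℝ) ^ κ := by
      rw [Real.rpow_def_of_pos hnpos]
      apply Real.exp_le_exp.2
      have h2 : (T : ℝ) * Dt ≤ Real.log n / K * Dt := mul_le_mul_of_nonneg_right hTle.le hDt0.le
      calc _ = (T : ℝ) * Dt := rfl
        _ ≤ Real.log n / K * Dt := h2
        _ = Real.log n * κ := by rw [hκ]; ring
    have h3 : (T : ℝ) * τ = 2 / γ * (T : ℝ) ^ 2 / n := by
      rw [hτ]; field_simp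
    have h4 : (T : ℝ) ^ 2 ≤ (1 / K ^ 2) * (16 / s' ^ 2) * (n : ℝ) ^ (s' / 2) := by
      have h5 : Real.log n ≤ (n : ℝ) ^ (s' / 4) / (s' / 4) := Real.log_le_rpow_div hnpos.le (by positivity)
      have h6 : (T : ℝ) ≤ (n : ℝ) ^ (s' / 4) / (s' / 4) / K :=
        hTle.le.trans (div_le_div_of_nonneg_right h5 hK0.le)
      have h7 : (T : ℝ) ^ 2 ≤ ((n : ℝ) ^ (s' / 4) / (s' / 4) / K) ^ 2 := pow_le_pow_left₀ hT0.le h6 2
      refine h7.trans (le_of_eq ?_)
      have h8 : ((n : ℝ) ^ (s' / 4)) ^ 2 = (n : ℝ) ^ (s' / 2) := by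
        rw [← Real.rpow_natCast ((n : ℝ) ^ (s' / 4)) 2, ← Real.rpow_mul hnpos.le]
        congr 1
        push_cast
        ring
      rw [← h8]
      field_simp
      ring
    have h9 : (n : ℝ) ^ κ * ((n : ℝ) ^ (s' / 2) / n) = ((n : ℝ) ^ (s' / 2))⁻¹ := by
      have h10 : (n : ℝ) ^ κ = (n : ℝ) * ((n : ℝ) ^ (s' / 2))⁻¹ * ((n : ℝ) ^ (s' / 2))⁻¹ := by
        have h11 : κ = 1 + (-(s' / 2)) + (-(s' / 2)) := by rw [hs']; ring
        rw [h11, Real.rpow_add hnpos, Real.rpow_add hnpos, Real.rpow_one, Real.rpow_neg hnpos.le]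
      rw [h10]
      have h12 : (n : ℝ) ^ (s' / 2) ≠ 0 := (Real.rpow_pos_of_pos hnpos _).ne'
      field_simp
    have hpow : 0 < (n : ℝ) ^ (s' / 2) := Real.rpow_pos_of_pos hnpos _
    have hpowκ : 0 < (n : ℝ) ^ κ := Real.rpow_pos_of_pos hnpos _
    calc ζ ≤ 288 * ((n : ℝ) ^ κ * (T * τ)) := by
          rw [hζ]
          apply mul_le_mul_of_nonneg_left _ (by norm_num)
          exact mul_le_mul_of_nonneg_right h1 (by positivity)
      _ = 288 * ((n : ℝ) ^ κ * (2 / γ * (T : ℝ) ^ 2 / n)) := by rw [h3]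
      _ ≤ 288 * ((n : ℝ) ^ κ * (2 / γ * ((1 / K ^ 2) * (16 / s' ^ 2) * (n : ℝ) ^ (s' / 2)) / n)) := by
          apply mul_le_mul_of_nonneg_left _ (by norm_num)
          apply mul_le_mul_of_nonneg_left _ hpowκ.le
          apply div_le_div_of_nonneg_right _ hnpos.le
          exact mul_le_mul_of_nonneg_left h4 (by positivity)
      _ = C * ((n : ℝ) ^ κ * ((n : ℝ) ^ (s' / 2) / n)) := by rw [hC]; ring
      _ = C * ((n : ℝ) ^ (s' / 2))⁻¹ := by rw [h9]
      _ ≤ ε1 := by
          rw [← div_eq_mul_inv, div_le_iff₀ hpow]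
          rw [div_le_iff₀ hε10] at hx2
          linarith
  have hlogs : Real.log 2 ≤ Real.log s := Real.log_le_log (by norm_num) hs2
  have hlogs0 : 0 < Real.log s := hl2.trans_le hlogs
  have hlogl : Real.log (1 / l) = Real.log s + Real.log (1 / l0) := by
    rw [hl, one_div_div, Real.log_div hs0.ne' hl00.ne', one_div, Real.log_inv]
    ring
  have hA1 : ζ * Real.log (1 / l) ≤ η / 3 * Real.log s + η / 3 * Real.log s := by
    rw [hlogl, mul_add]
    have h1 : ζ * Real.log s ≤ η / 3 * Real.log s :=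
      mul_le_mul_of_nonneg_right (hζle.trans hε11) hlogs0.le
    have h2 : ζ * Real.log (1 / l0) ≤ ε1 * Real.log (1 / l0) := mul_le_mul_of_nonneg_right hζle hll
    have h3 : η / 3 * Real.log 2 ≤ η / 3 * Real.log s := mul_le_mul_of_nonneg_left hlogs (by positivity)
    linarith
  have hA2 : (s - 1) * l ≤ η / 3 * Real.log s := by
    have h1 : (s - 1) * l ≤ s * l := mul_le_mul_of_nonneg_right (by linarith) hlpos.le
    have h2 : s * l = l0 := by rw [hl]; field_simp
    have h3 : η / 3 * Real.log 2 ≤ η / 3 * Real.log s := mul_le_mul_of_nonneg_left hlogs (by positivity)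
    linarith
  have hk0 : (0 : ℝ) ≤ k := Nat.cast_nonneg _
  have h1 : (k : ℝ) * ((1 - η) * Real.log s) ≤
      (k : ℝ) * (Real.log s - ζ * Real.log (1 / l) - (s - 1) * l) :=
    mul_le_mul_of_nonneg_left (by linarith) hk0
  have h2 : (k : ℝ) * (1 - η) * Real.log s ≤ e * n * Real.log s := by
    have := h1.trans hmain
    linarith
  have h3 : (k : ℝ) * (1 - η) ≤ e * n := le_of_mul_le_mul_right h2 hlogs0
  have h4 : ρ * n * (1 - η) ≤ (k : ℝ) * (1 - η) := mul_le_mul_of_nonneg_right hk (by linarith)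
  have h6 : ρ * n * (1 - η) ≤ e * n := h4.trans h3
  have h5 : ρ * n * (1 - η) = n * (ρ - ρ * η) := by ring
  rw [h5, hη1, mul_comm e] at h6
  have h8 : ρ - (ρ - e) / 2 ≤ e := le_of_mul_le_mul_left h6 hnpos
  linarith

end

end Pool.Agent.LDCX
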