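import Pool.Agent.LDCX.Era

/-!
# The finite inequality for arbitrary codes with non-adaptive decoders: the estimator
-/

open scoped BigOperators
open Finset

namespace Pool.Agent.LDCX

noncomputable section

open Classical

variable {n : ℕ}

/-- The estimator. -/
def est {Ω : Type} [Fintype Ω] (p : ℝ) (w : Ω → ℝ) (P : Ω → Finset (Fin n)) (D : Finset (Fin n)) : ℝ :=
  ∑ ω, w ω * ((p ^ (P ω).card)⁻¹ * (if P ω ⊆ D then (1 : ℝ) else 0))

theorem Ex_est {Ω : Type} [Fintype Ω] {p : ℝ} (hp : 0 < p) (w : Ω → ℝ) (P : Ω → Finset (Fin n)) :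
    Ex (bw p) (fun S : Fin n → ZMod 2 => est p w P (on S)) = ∑ ω, w ω := by
  unfold est
  rw [Ex_sum]
  refine Finset.sum_congr rfl fun ω _ => ?_
  have e : Ex (bw p) (fun S : Fin n → ZMod 2 =>
      w ω * ((p ^ (P ω).card)⁻¹ * (if P ω ⊆ on S then (1 : ℝ) else 0))) =
      w ω * ((p ^ (P ω).card)⁻¹ * Ex (bw p) (fun S : Fin n → ZMod 2 => if P ω ⊆ on S then (1 : ℝ) else 0)) := by
    unfold Ex
    rw [Finset.mul_sum, Finset.mul_sum]
    exact Finset.sum_congr rfl fun S _ => by ring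
  rw [e, Ex_subset_on, inv_mul_cancel₀ (pow_pos hp _).ne', mul_one]

theorem Ex_const_mul (π : ZMod 2 → ℝ) (c : ℝ) (F : (Fin n → ZMod 2) → ℝ) :
    Ex π (fun S => c * F S) = c * Ex π F := by
  unfold Ex
  rw [Finset.mul_sum]
  exact Finset.sum_congr rfl fun S _ => by ring

theorem est_sq {Ω : Type} [Fintype Ω] {p : ℝ} (hp : 0 < p) (w : Ω → ℝ) (P : Ω → Finset (Fin n)) :
    Ex (bw p) (fun S : Fin n → ZMod 2 => est p w P (on S) ^ 2) =
      ∑ ω, ∑ ω', w ω * w ω' * (p ^ (P ω ∩ P ω').card)⁻¹ := by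
  have e1 : (fun S : Fin n → ZMod 2 => est p w P (on S) ^ 2) = fun S => ∑ ω, ∑ ω',
      (w ω * w ω' * ((p ^ (P ω).card)⁻¹ * (p ^ (P ω').card)⁻¹)) *
        (if P ω ∪ P ω' ⊆ on S then (1 : ℝ) else 0) := by
    funext S
    unfold est
    rw [sq, Finset.sum_mul_sum]
    refine Finset.sum_congr rfl fun ω _ => Finset.sum_congr rfl fun ω' _ => ?_
    by_cases h1 : P ω ⊆ on S
    · by_cases h2 : P ω' ⊆ on S
      · rw [if_pos h1, if_pos h2, if_pos (Finset.union_subset h1 h2)]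
        ring
      · rw [if_pos h1, if_neg h2, if_neg (fun h => h2 (Finset.subset_union_right.trans h))]
        ring
    · rw [if_neg h1, if_neg (fun h => h1 (Finset.subset_union_left.trans h))]
      ring
  rw [e1, Ex_sum]
  refine Finset.sum_congr rfl fun ω _ => ?_
  rw [Ex_sum]
  refine Finset.sum_congr rfl fun ω' _ => ?_
  rw [Ex_const_mul, Ex_subset_on]
  have h := Finset.card_union_add_card_inter (P ω) (P ω')
  have hp1 : ∀ a : ℕ, (p ^ a) ≠ 0 := fun a => (pow_pos hp a).ne'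
  have e2 : p ^ (P ω ∪ P ω').card * p ^ (P ω ∩ P ω').card = p ^ (P ω).card * p ^ (P ω').card := by
    rw [← pow_add, ← pow_add, h]
  have h1 := hp1 (P ω).card
  have h2 := hp1 (P ω').card
  have h3 := hp1 (P ω ∩ P ω').card
  have e3 : p ^ (P ω ∪ P ω').card = p ^ (P ω).card * p ^ (P ω').card * (p ^ (P ω ∩ P ω').card)⁻¹ := by
    rw [← e2, mul_assoc, mul_inv_cancel₀ h3, mul_one]
  rw [e3]
  field_simp

/-- The variance of the estimator. -/
theorem est_var {Ω : Type} [Fintype Ω] {p τ : ℝ} {t : ℕ} (hp : 0 < p) (hp1 : p ≤ 1) (w : Ω → ℝ)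
    (hw : ∀ ω, 0 ≤ w ω) (hw1 : ∑ ω, w ω ≤ 1) (P : Ω → Finset (Fin n)) (hP : ∀ ω, (P ω).card ≤ t)
    (hτ0 : 0 ≤ τ) (hτ : ∀ ω, ∀ j ∈ P ω, ∑ ω', (if j ∈ P ω' then w ω' else 0) ≤ τ) :
    Ex (bw p) (fun S : Fin n → ZMod 2 => (est p w P (on S) - ∑ ω, w ω) ^ 2) ≤ (p ^ t)⁻¹ * (t * τ) := by
  have e1 : Ex (bw p) (fun S : Fin n → ZMod 2 => (est p w P (on S) - ∑ ω, w ω) ^ 2) =
      ∑ ω, ∑ ω', w ω * w ω' * ((p ^ (P ω ∩ P ω').card)⁻¹ - 1) := by
    have e2 : (fun S : Fin n → ZMod 2 => (est p w P (on S) - ∑ ω, w ω) ^ 2) =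
        fun S => (est p w P (on S) ^ 2 - (2 * ∑ ω, w ω) * est p w P (on S)) + (∑ ω, w ω) ^ 2 * 1 := by
      funext S; ring
    rw [e2, Ex_add, Ex_sub, est_sq hp, Ex_const_mul, Ex_est hp, Ex_const_mul, Ex_one (bw_sum p)]
    simp only [mul_sub, Finset.sum_sub_distrib, mul_one]
    rw [← Finset.sum_mul_sum]
    ring
  rw [e1]
  have hpt : 0 < p ^ t := pow_pos hp t
  have h2 : ∀ ω ω', w ω * w ω' * ((p ^ (P ω ∩ P ω').card)⁻¹ - 1) ≤
      (p ^ t)⁻¹ * (w ω * ∑ j ∈ P ω, (if j ∈ P ω' then w ω' else 0)) := by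
    intro ω ω'
    have e3 : ∑ j ∈ P ω, (if j ∈ P ω' then w ω' else 0) = ((P ω ∩ P ω').card : ℝ) * w ω' := by
      rw [Finset.sum_ite_mem, Finset.sum_const, nsmul_eq_mul]
    rw [e3]
    have h3 : (p ^ (P ω ∩ P ω').card)⁻¹ - 1 ≤ (p ^ t)⁻¹ * ((P ω ∩ P ω').card : ℝ) := by
      rcases Nat.eq_zero_or_pos (P ω ∩ P ω').card with h0 | h0
      · rw [h0]; simp
      · have h4 : (1 : ℝ) ≤ ((P ω ∩ P ω').card : ℝ) := by exact_mod_cast h0
        have h5 : (P ω ∩ P ω').card ≤ t := (Finset.card_le_card Finset.inter_subset_left).trans (hP ω)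
        have h6 : (p ^ (P ω ∩ P ω').card)⁻¹ ≤ (p ^ t)⁻¹ :=
          inv_anti₀ hpt (pow_le_pow_of_le_one hp.le hp1 h5)
        have h7 : (0 : ℝ) < (p ^ t)⁻¹ := inv_pos.2 hpt
        nlinarith
    have h8 : 0 ≤ w ω * w ω' := mul_nonneg (hw _) (hw _)
    calc w ω * w ω' * ((p ^ (P ω ∩ P ω').card)⁻¹ - 1) ≤
        w ω * w ω' * ((p ^ t)⁻¹ * ((P ω ∩ P ω').card : ℝ)) := mul_le_mul_of_nonneg_left h3 h8
      _ = _ := by ring
  calc ∑ ω, ∑ ω', w ω * w ω' * ((p ^ (P ω ∩ P ω').card)⁻¹ - 1)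
      ≤ ∑ ω, ∑ ω', (p ^ t)⁻¹ * (w ω * ∑ j ∈ P ω, (if j ∈ P ω' then w ω' else 0)) :=
        Finset.sum_le_sum fun ω _ => Finset.sum_le_sum fun ω' _ => h2 ω ω'
    _ = (p ^ t)⁻¹ * ∑ ω, w ω * ∑ j ∈ P ω, ∑ ω', (if j ∈ P ω' then w ω' else 0) := by
        rw [Finset.mul_sum]
        refine Finset.sum_congr rfl fun ω _ => ?_
        rw [← Finset.mul_sum, ← Finset.mul_sum, Finset.sum_comm]
    _ ≤ (p ^ t)⁻¹ * ∑ ω, w ω * (t * τ) := by
        apply mul_le_mul_of_nonneg_left _ (inv_pos.2 hpt).le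
        refine Finset.sum_le_sum fun ω _ => mul_le_mul_of_nonneg_left ?_ (hw ω)
        calc ∑ j ∈ P ω, ∑ ω', (if j ∈ P ω' then w ω' else 0) ≤ ∑ _j ∈ P ω, τ :=
              Finset.sum_le_sum fun j hj => hτ ω j hj
          _ = ((P ω).card : ℝ) * τ := by rw [Finset.sum_const, nsmul_eq_mul]
          _ ≤ t * τ := mul_le_mul_of_nonneg_right (by exact_mod_cast hP ω) hτ0
    _ ≤ (p ^ t)⁻¹ * (t * τ) := by
        apply mul_le_mul_of_nonneg_left _ (inv_pos.2 hpt).le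
        rw [← Finset.sum_mul]
        have : 0 ≤ (t : ℝ) * τ := mul_nonneg (Nat.cast_nonneg _) hτ0
        nlinarith

/-- Chebyshev's inequality. -/
theorem cheb {p : ℝ} (hp : 0 < p) (hp1 : p < 1) (Z : (Fin n → ZMod 2) → ℝ) (μ V : ℝ)
    (hV : Ex (bw p) (fun S => (Z S - μ) ^ 2) ≤ V) :
    Ex (bw p) (fun S => if 1 / 6 ≤ |Z S - μ| then (1 : ℝ) else 0) ≤ 36 * V := by
  have h : Ex (bw p) (fun S => if 1 / 6 ≤ |Z S - μ| then (1 : ℝ) else 0) ≤
      Ex (bw p) (fun S => 36 * (Z S - μ) ^ 2) := by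
    apply Ex_mono (fun a => (bw_pos hp hp1 a).le)
    intro S
    split_ifs with h
    · have h1 : (1 / 6 : ℝ) ^ 2 ≤ |Z S - μ| ^ 2 := pow_le_pow_left₀ (by norm_num) h 2
      rw [sq_abs] at h1
      linarith
    · positivity
  rw [Ex_const_mul] at h
  linarith

end

end Pool.Agent.LDCX
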