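import Pool.Agent.LDCX.Gen

/-!
# The finite inequality for arbitrary codes with non-adaptive decoders: decoding from a random set
-/

open scoped BigOperators
open Finset

namespace Pool.Agent.LDCX

noncomputable section

open Classical

variable {n k t : ℕ} {S : Type}

/-- The word `y` with the coordinates in `H` replaced by `s0`. -/
def zr2 (s0 : S) (H : Finset (Fin n)) (y : Fin n → S) : Fin n → S := fun j => if j ∈ H then s0 else y j

/-- The heavy coordinates. -/
def heavy {Ω : Type} [Fintype Ω] (w : Ω → ℝ) (Q : Ω → Finset (Fin n)) (τ : ℝ) : Finset (Fin n) :=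
  Finset.univ.filter (fun j => τ < ∑ ω, (if j ∈ Q ω then w ω else 0))

theorem heavy_card {Ω : Type} [Fintype Ω] (w : Ω → ℝ) (hw : ∀ ω, 0 ≤ w ω) (hw1 : ∑ ω, w ω = 1)
    (Q : Ω → Finset (Fin n)) (hQ : ∀ ω, (Q ω).card ≤ t) (τ : ℝ) (hτ : 0 < τ) :
    ((heavy w Q τ).card : ℝ) * τ ≤ t := by
  have h1 : ((heavy w Q τ).card : ℝ) * τ ≤ ∑ j ∈ heavy w Q τ, ∑ ω, (if j ∈ Q ω then w ω else 0) := by
    rw [← nsmul_eq_mul, ← Finset.sum_const]
    refine Finset.sum_le_sum fun j hj => ?_
    rw [heavy, Finset.mem_filter] at hj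
    exact hj.2.le
  have h2 : ∑ j ∈ heavy w Q τ, ∑ ω, (if j ∈ Q ω then w ω else 0) ≤
      ∑ j, ∑ ω, (if j ∈ Q ω then w ω else 0) := by
    apply Finset.sum_le_sum_of_subset_of_nonneg (Finset.subset_univ _)
    intro j _ _
    refine Finset.sum_nonneg fun ω _ => ?_
    split_ifs
    · exact hw ω
    · exact le_rfl
  have h3 : ∑ j, ∑ ω, (if j ∈ Q ω then w ω else 0) = ∑ ω, ((Q ω).card : ℝ) * w ω := by
    rw [Finset.sum_comm]
    refine Finset.sum_congr rfl fun ω _ => ?_
    rw [Finset.sum_ite_mem, Finset.univ_inter, Finset.sum_const, nsmul_eq_mul]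
  have h4 : ∑ ω, ((Q ω).card : ℝ) * w ω ≤ ∑ ω, (t : ℝ) * w ω :=
    Finset.sum_le_sum fun ω _ => mul_le_mul_of_nonneg_right (by exact_mod_cast hQ ω) (hw ω)
  rw [← Finset.mul_sum, hw1, mul_one] at h4
  linarith

/-- The set of the positions which are not heavy. -/
def lq (A : NonAdAlg n t S) (H : Finset (Fin n)) (ω : A.Ω) : Finset (Fin n) := A.Q ω \ H

/-- The estimated probability of the output `s`. -/
def Wt (A : NonAdAlg n t S) (p : ℝ) (s0 : S) (H D : Finset (Fin n)) (y : Fin n → S) (s : S) : ℝ :=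
  letI := A.fin
  est p (fun ω => if A.out ω (zr2 s0 H y) = s then A.prob ω else 0) (lq A H) D

/-- The estimated probability of the other outputs. -/
def Wo (A : NonAdAlg n t S) (p : ℝ) (s0 : S) (H D : Finset (Fin n)) (y : Fin n → S) (s : S) : ℝ :=
  letI := A.fin
  est p (fun ω => if A.out ω (zr2 s0 H y) = s then 0 else A.prob ω) (lq A H) D

/-- The decoder. -/
def dec (A : NonAdAlg n t S) (p : ℝ) (s0 : S) (H D : Finset (Fin n)) (y : Fin n → S) : S :=
  if h : ∃ s, 1 / 2 < Wt A p s0 H D y s then h.choose else s0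

theorem Wt_congr (A : NonAdAlg n t S) (p : ℝ) (s0 : S) (H D : Finset (Fin n)) (y y' : Fin n → S)
    (h : ∀ j ∈ D, y j = y' j) (s : S) : Wt A p s0 H D y s = Wt A p s0 H D y' s := by
  unfold Wt est
  refine Finset.sum_congr rfl fun ω _ => ?_
  by_cases hD : lq A H ω ⊆ D
  · have : A.out ω (zr2 s0 H y) = A.out ω (zr2 s0 H y') := by
      apply A.loc
      intro j hj
      unfold zr2
      by_cases hH : j ∈ H
      · rw [if_pos hH, if_pos hH]
      · rw [if_neg hH, if_neg hH]
        exact h j (hD (Finset.mem_sdiff.2 ⟨hj, hH⟩))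
    simp only [this]
  · rw [if_neg hD, mul_zero, mul_zero, mul_zero]

theorem dec_congr (A : NonAdAlg n t S) (p : ℝ) (s0 : S) (H D : Finset (Fin n)) (y y' : Fin n → S)
    (h : ∀ j ∈ D, y j = y' j) : dec A p s0 H D y = dec A p s0 H D y' := by
  have : Wt A p s0 H D y = Wt A p s0 H D y' := by
    funext s
    exact Wt_congr A p s0 H D y y' h s
  unfold dec
  rw [this]

theorem Wt_le_Wo (A : NonAdAlg n t S) {p : ℝ} (hp : 0 < p) (s0 : S) (H D : Finset (Fin n)) (y : Fin n → S)
    (s s' : S) (h : s' ≠ s) : Wt A p s0 H D y s' ≤ Wo A p s0 H D y s := by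
  unfold Wt Wo est
  refine Finset.sum_le_sum fun ω _ => ?_
  apply mul_le_mul_of_nonneg_right
  · dsimp only
    by_cases h1 : A.out ω (zr2 s0 H y) = s'
    · rw [if_pos h1, if_neg (fun h2 => h (h1.symm.trans h2))]
    · rw [if_neg h1]
      split_ifs
      · exact le_rfl
      · exact A.nonneg ω
  · apply mul_nonneg (inv_pos.2 (pow_pos hp _)).le
    split_ifs <;> norm_num

theorem dec_eq (A : NonAdAlg n t S) {p : ℝ} (hp : 0 < p) (s0 : S) (H D : Finset (Fin n)) (y : Fin n → S)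
    (s : S) (h1 : 1 / 2 < Wt A p s0 H D y s) (h2 : Wo A p s0 H D y s ≤ 1 / 2) : dec A p s0 H D y = s := by
  have hex : ∃ s, 1 / 2 < Wt A p s0 H D y s := ⟨s, h1⟩
  unfold dec
  rw [dif_pos hex]
  by_contra hne
  have h3 := hex.choose_spec
  have h4 := Wt_le_Wo A hp s0 H D y s hex.choose hne
  linarith

/-- The error probability of the decoder. -/
theorem dec_error (A : NonAdAlg n t S) {p τ δ : ℝ} (hp : 0 < p) (hp1 : p < 1) (hτ : 0 < τ)
    (hτδ : (t : ℝ) < δ * n * τ) (s0 : S) (y : Fin n → S) (s : S)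
    (hA : ∀ r : Fin n → S, (((Finset.univ.filter (fun j => r j ≠ y j)).card : ℕ) : ℝ) < δ * n → 2 / 3 ≤ A.pr r s) :
    letI := A.fin
    Ex (bw p) (fun T : Fin n → ZMod 2 =>
      if dec A p s0 (heavy A.prob A.Q τ) (on T) y = s then (0 : ℝ) else 1) ≤ 72 * ((p ^ t)⁻¹ * (t * τ)) := by
  let _ := A.fin
  set H := heavy A.prob A.Q τ with hH
  have hHc := heavy_card A.prob A.nonneg A.sum_one A.Q A.card_le τ hτ
  rw [← hH] at hHc
  have hdist : (((Finset.univ.filter (fun j => zr2 s0 H y j ≠ y j)).card : ℕ) : ℝ) < δ * n := by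
    have h1 : (Finset.univ.filter (fun j => zr2 s0 H y j ≠ y j)) ⊆ H := by
      intro j hj
      rw [Finset.mem_filter] at hj
      by_contra h
      apply hj.2
      simp [zr2, h]
    have h2 : (((Finset.univ.filter (fun j => zr2 s0 H y j ≠ y j)).card : ℕ) : ℝ) ≤ (H.card : ℝ) := by
      exact_mod_cast Finset.card_le_card h1
    have h3 : (H.card : ℝ) * τ < δ * n * τ := lt_of_le_of_lt hHc hτδ
    have h4 : (H.card : ℝ) < δ * n := lt_of_mul_lt_mul_right h3 hτ.le
    linarith
  have hpr := hA _ hdist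
  -- the two weights
  set w1 : A.Ω → ℝ := fun ω => if A.out ω (zr2 s0 H y) = s then A.prob ω else 0 with hw1
  set w2 : A.Ω → ℝ := fun ω => if A.out ω (zr2 s0 H y) = s then 0 else A.prob ω with hw2
  have h12 : ∀ ω, w1 ω + w2 ω = A.prob ω := by
    intro ω
    simp only [hw1, hw2]
    split_ifs <;> ring
  have h10 : ∀ ω, 0 ≤ w1 ω := by
    intro ω
    simp only [hw1]
    split_ifs
    · exact A.nonneg ω
    · exact le_rfl
  have h20 : ∀ ω, 0 ≤ w2 ω := by
    intro ω
    simp only [hw2]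
    split_ifs
    · exact le_rfl
    · exact A.nonneg ω
  have hs12 : ∑ ω, w1 ω + ∑ ω, w2 ω = 1 := by
    rw [← Finset.sum_add_distrib, Finset.sum_congr rfl fun ω _ => h12 ω, A.sum_one]
  have hs1 : 2 / 3 ≤ ∑ ω, w1 ω := hpr
  have hs20 : 0 ≤ ∑ ω, w2 ω := Finset.sum_nonneg fun ω _ => h20 ω
  have hlight : ∀ w : A.Ω → ℝ, (∀ ω, w ω ≤ A.prob ω) → ∀ ω, ∀ j ∈ lq A H ω,
      ∑ ω', (if j ∈ lq A H ω' then w ω' else 0) ≤ τ := by
    intro w hw ω j hj
    have hjH : j ∉ H := (Finset.mem_sdiff.1 hj).2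
    have h1 : ∑ ω', (if j ∈ A.Q ω' then A.prob ω' else 0) ≤ τ := by
      rw [hH, heavy, Finset.mem_filter] at hjH
      push Not at hjH
      exact hjH (Finset.mem_univ _)
    refine le_trans (Finset.sum_le_sum fun ω' _ => ?_) h1
    by_cases hj' : j ∈ lq A H ω'
    · rw [if_pos hj', if_pos (Finset.mem_sdiff.1 hj').1]
      exact hw ω'
    · rw [if_neg hj']
      split_ifs
      · exact A.nonneg ω'
      · exact le_rfl
  have hlq : ∀ ω, (lq A H ω).card ≤ t := fun ω =>
    (Finset.card_le_card Finset.sdiff_subset).trans (A.card_le ω)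
  have hV1 := est_var (t := t) hp hp1.le w1 h10 (by linarith) (lq A H) hlq hτ.le
    (hlight w1 fun ω => by have := h12 ω; have := h20 ω; linarith)
  have hV2 := est_var (t := t) hp hp1.le w2 h20 (by linarith) (lq A H) hlq hτ.le
    (hlight w2 fun ω => by have := h12 ω; have := h10 ω; linarith)
  have hC1 := cheb hp hp1 _ _ _ hV1
  have hC2 := cheb hp hp1 _ _ _ hV2
  have hle : Ex (bw p) (fun T : Fin n → ZMod 2 =>
      if dec A p s0 H (on T) y = s then (0 : ℝ) else 1) ≤
      Ex (bw p) (fun T : Fin n → ZMod 2 =>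
        (if 1 / 6 ≤ |est p w1 (lq A H) (on T) - ∑ ω, w1 ω| then (1 : ℝ) else 0) +
        (if 1 / 6 ≤ |est p w2 (lq A H) (on T) - ∑ ω, w2 ω| then (1 : ℝ) else 0)) := by
    apply Ex_mono (fun a => (bw_pos hp hp1 a).le)
    intro T
    by_cases c1 : 1 / 6 ≤ |est p w1 (lq A H) (on T) - ∑ ω, w1 ω|
    · rw [if_pos c1]
      split_ifs <;> norm_num
    · by_cases c2 : 1 / 6 ≤ |est p w2 (lq A H) (on T) - ∑ ω, w2 ω|
      · rw [if_pos c2]
        split_ifs <;> norm_num
      · push Not at c1 c2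
        rw [abs_lt] at c1 c2
        have e : dec A p s0 H (on T) y = s := by
          apply dec_eq A hp
          · have : Wt A p s0 H (on T) y s = est p w1 (lq A H) (on T) := rfl
            rw [this]
            linarith
          · have : Wo A p s0 H (on T) y s = est p w2 (lq A H) (on T) := rfl
            rw [this]
            linarith
        rw [if_pos e]
        split_ifs <;> norm_num
  rw [Ex_add] at hle
  linarith

end

end Pool.Agent.LDCX
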