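import Pool.Agent.LDCX.Gen2

/-!
# The finite inequality for arbitrary codes with non-adaptive decoders: counting
-/

open scoped BigOperators
open Finset

namespace Pool.Agent.LDCX

noncomputable section

open Classical

variable {n k t : ℕ} {S : Type}

theorem Ex_const (p c : ℝ) : Ex (bw p) (fun _ : Fin n → ZMod 2 => c) = c := by
  have h := Ex_one (ι := Fin n) (bw_sum p)
  unfold Ex at h ⊢
  simp only [mul_one] at h
  rw [← Finset.sum_mul, h, one_mul]

theorem sum_exp_ge {β : Type} [Fintype β] [Nonempty β] (f : β → ℝ) :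
    (Fintype.card β : ℝ) * Real.exp ((∑ x, f x) / Fintype.card β) ≤ ∑ x, Real.exp (f x) := by
  set c := (∑ x, f x) / Fintype.card β with hc
  have hN : (0 : ℝ) < Fintype.card β := by exact_mod_cast Fintype.card_pos
  have h1 : ∀ x, Real.exp c * (1 + (f x - c)) ≤ Real.exp (f x) := by
    intro x
    have := Real.add_one_le_exp (f x - c)
    calc Real.exp c * (1 + (f x - c)) ≤ Real.exp c * Real.exp (f x - c) := by
          apply mul_le_mul_of_nonneg_left _ (Real.exp_pos _).le
          linarith
      _ = Real.exp (f x) := by rw [← Real.exp_add]; congr 1; ring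
  calc (Fintype.card β : ℝ) * Real.exp c = ∑ x, Real.exp c * (1 + (f x - c)) := by
        rw [← Finset.mul_sum, Finset.sum_add_distrib, Finset.sum_sub_distrib, Finset.sum_const,
          Finset.sum_const, Finset.card_univ, nsmul_eq_mul, nsmul_eq_mul, mul_one]
        have : (Fintype.card β : ℝ) * c = ∑ x, f x := by
          rw [hc]; field_simp
        rw [this]
        ring
    _ ≤ _ := Finset.sum_le_sum fun x _ => h1 x

variable [Fintype S]

/-- Counting of the words near a decoded word. -/
theorem count_ball (u : Fin k → S) (l : ℝ) :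
    ∑ x : Fin k → S, ∏ i, (if u i = x i then (1 : ℝ) else l) = (1 + (Fintype.card S - 1) * l) ^ k := by
  have h := Finset.prod_univ_sum (fun _ : Fin k => (Finset.univ : Finset S))
    (fun i a => if u i = a then (1 : ℝ) else l)
  rw [Fintype.piFinset_univ] at h
  rw [← h]
  have h2 : ∀ i : Fin k, ∑ a : S, (if u i = a then (1 : ℝ) else l) = 1 + (Fintype.card S - 1) * l := by
    intro i
    have h3 : ∀ a : S, (if u i = a then (1 : ℝ) else l) = l + (if u i = a then 1 - l else 0) := by
      intro a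
      split_ifs <;> ring
    rw [Finset.sum_congr rfl fun a _ => h3 a, Finset.sum_add_distrib, Finset.sum_const, Finset.card_univ,
      nsmul_eq_mul, Finset.sum_ite_eq]
    simp
    ring
  rw [Finset.prod_congr rfl fun i _ => h2 i, Finset.prod_const, Finset.card_univ, Fintype.card_fin]

/-- The decoder reads only the coordinates in `D`. -/
theorem count_dec (E : (Fin k → S) → (Fin n → S)) (g : (Fin n → S) → (Fin k → S)) (D : Finset (Fin n)) (s0 : S)
    (hg : ∀ y y' : Fin n → S, (∀ j ∈ D, y j = y' j) → g y = g y') {l : ℝ} (hl : 0 ≤ l) :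
    ∑ x : Fin k → S, ∏ i, (if g (E x) i = x i then (1 : ℝ) else l) ≤
      (Fintype.card S : ℝ) ^ D.card * (1 + (Fintype.card S - 1) * l) ^ k := by
  let ex : (D → S) → (Fin n → S) := fun u j => if h : j ∈ D then u ⟨j, h⟩ else s0
  have h0 : ∀ (x : Fin k → S) (v : Fin k → S), 0 ≤ ∏ i, (if v i = x i then (1 : ℝ) else l) := by
    intro x v
    refine Finset.prod_nonneg fun i _ => ?_
    split_ifs
    · norm_num
    · exact hl
  have h1 : ∀ x : Fin k → S, ∏ i, (if g (E x) i = x i then (1 : ℝ) else l) ≤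
      ∑ u : D → S, ∏ i, (if g (ex u) i = x i then (1 : ℝ) else l) := by
    intro x
    have h2 : g (E x) = g (ex (fun j => E x j)) := by
      apply hg
      intro j hj
      simp only [ex, dif_pos hj]
    rw [h2]
    exact Finset.single_le_sum (f := fun u : D → S => ∏ i, (if g (ex u) i = x i then (1 : ℝ) else l))
      (fun u _ => h0 x (g (ex u))) (Finset.mem_univ (fun j : D => E x j))
  refine (Finset.sum_le_sum fun x _ => h1 x).trans ?_
  rw [Finset.sum_comm]
  rw [Finset.sum_congr rfl fun u _ => count_ball (g (ex u)) l, Finset.sum_const, Finset.card_univ,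
    nsmul_eq_mul, Fintype.card_fun, Fintype.card_coe]
  push_cast
  exact le_rfl

/-- The inequality for one set. -/
theorem one_set (E : (Fin k → S) → (Fin n → S)) (g : (Fin n → S) → (Fin k → S)) (D : Finset (Fin n)) (s0 : S)
    (hg : ∀ y y' : Fin n → S, (∀ j ∈ D, y j = y' j) → g y = g y') {l : ℝ} (hl : 0 < l) :
    (k : ℝ) * Real.log (Fintype.card S) + Real.log l *
      ((∑ x : Fin k → S, ∑ i, (if g (E x) i = x i then (0 : ℝ) else 1)) / (Fintype.card S : ℝ) ^ k) ≤
      (D.card : ℝ) * Real.log (Fintype.card S) + k * ((Fintype.card S - 1) * l) := by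
  have hS : (0 : ℝ) < Fintype.card S := by
    have : Nonempty S := ⟨s0⟩
    exact_mod_cast Fintype.card_pos
  have hS1 : (1 : ℝ) ≤ Fintype.card S := by
    have : Nonempty S := ⟨s0⟩
    exact_mod_cast Nat.succ_le_of_lt Fintype.card_pos
  have hne : Nonempty (Fin k → S) := ⟨fun _ => s0⟩
  let f : (Fin k → S) → ℝ := fun x => Real.log l * ∑ i, (if g (E x) i = x i then (0 : ℝ) else 1)
  have h1 : ∀ x, Real.exp (f x) = ∏ i, (if g (E x) i = x i then (1 : ℝ) else l) := by
    intro x
    simp only [f]
    rw [Finset.mul_sum, Real.exp_sum]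
    refine Finset.prod_congr rfl fun i _ => ?_
    split_ifs
    · simp
    · rw [mul_one, Real.exp_log hl]
  have h2 := sum_exp_ge f
  rw [Finset.sum_congr rfl fun x _ => h1 x] at h2
  have h3 := h2.trans (count_dec E g D s0 hg hl.le)
  rw [Fintype.card_fun, Fintype.card_fin] at h3
  push_cast at h3
  have hpos : (0 : ℝ) < 1 + (Fintype.card S - 1) * l := by
    have : 0 ≤ ((Fintype.card S : ℝ) - 1) * l := mul_nonneg (by linarith) hl.le
    linarith
  have h4 := Real.log_le_log (by positivity) h3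
  rw [Real.log_mul (by positivity) (Real.exp_pos _).ne', Real.log_exp, Real.log_pow,
    Real.log_mul (by positivity) (by positivity), Real.log_pow, Real.log_pow] at h4
  have h5 : Real.log (1 + (Fintype.card S - 1) * l) ≤ (Fintype.card S - 1) * l := by
    have := Real.log_le_sub_one_of_pos hpos
    linarith
  have h6 : (k : ℝ) * Real.log (1 + (Fintype.card S - 1) * l) ≤ k * ((Fintype.card S - 1) * l) :=
    mul_le_mul_of_nonneg_left h5 (Nat.cast_nonneg _)
  have h7 : (∑ x, f x) / (Fintype.card S : ℝ) ^ k = Real.log l *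
      ((∑ x : Fin k → S, ∑ i, (if g (E x) i = x i then (0 : ℝ) else 1)) / (Fintype.card S : ℝ) ^ k) := by
    simp only [f]
    rw [← Finset.mul_sum, mul_div_assoc]
  rw [h7] at h4
  linarith

/-- The finite inequality. -/
theorem general_bound (E : (Fin k → S) → (Fin n → S)) {δ τ p l : ℝ} (hE : IsNonAdLDC E δ t) (s0 : S)
    (hp : 0 < p) (hp1 : p < 1) (hτ : 0 < τ) (hτδ : (t : ℝ) < δ * n * τ) (hl : 0 < l) (hl1 : l ≤ 1) :
    (k : ℝ) * (Real.log (Fintype.card S) - 72 * ((p ^ t)⁻¹ * (t * τ)) * Real.log (1 / l) -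
      (Fintype.card S - 1) * l) ≤ p * n * Real.log (Fintype.card S) := by
  choose A hA using hE
  let H : Fin k → Finset (Fin n) := fun i =>
    letI := (A i).fin
    heavy (A i).prob (A i).Q τ
  let g : Finset (Fin n) → (Fin n → S) → (Fin k → S) := fun D y i => dec (A i) p s0 (H i) D y
  have hb0 : ∀ a, 0 ≤ bw p a := fun a => (bw_pos hp hp1 a).le
  have hN : (0 : ℝ) < (Fintype.card S : ℝ) ^ k := by
    have : Nonempty S := ⟨s0⟩
    have : (0 : ℝ) < Fintype.card S := by exact_mod_cast Fintype.card_pos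
    positivity
  have h1 : ∀ T : Fin n → ZMod 2, (k : ℝ) * Real.log (Fintype.card S) + Real.log l *
      ((∑ x : Fin k → S, ∑ i, (if g (on T) (E x) i = x i then (0 : ℝ) else 1)) / (Fintype.card S : ℝ) ^ k) ≤
      ((on T).card : ℝ) * Real.log (Fintype.card S) + k * ((Fintype.card S - 1) * l) := by
    intro T
    apply one_set E (g (on T)) (on T) s0 _ hl
    intro y y' hy
    funext i
    exact dec_congr (A i) p s0 (H i) (on T) y y' hy
  have h2 := Ex_mono hb0 h1
  -- the error probability
  have herr : Ex (bw p) (fun T : Fin n → ZMod 2 =>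
      (∑ x : Fin k → S, ∑ i, (if g (on T) (E x) i = x i then (0 : ℝ) else 1)) / (Fintype.card S : ℝ) ^ k) ≤
      k * (72 * ((p ^ t)⁻¹ * (t * τ))) := by
    have e1 : (fun T : Fin n → ZMod 2 =>
      (∑ x : Fin k → S, ∑ i, (if g (on T) (E x) i = x i then (0 : ℝ) else 1)) / (Fintype.card S : ℝ) ^ k) =
      fun T => ((Fintype.card S : ℝ) ^ k)⁻¹ *
      ∑ x : Fin k → S, ∑ i, (if g (on T) (E x) i = x i then (0 : ℝ) else 1) := by
      funext T
      rw [div_eq_inv_mul]
    rw [e1, Ex_const_mul, Ex_sum]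
    have e2 : ∀ x : Fin k → S, Ex (bw p) (fun T : Fin n → ZMod 2 =>
        ∑ i, (if g (on T) (E x) i = x i then (0 : ℝ) else 1)) ≤ k * (72 * ((p ^ t)⁻¹ * (t * τ))) := by
      intro x
      rw [Ex_sum]
      refine (Finset.sum_le_sum fun i _ => dec_error (A i) hp hp1 hτ hτδ s0 (E x) (x i)
        (fun r hr => hA i x r hr)).trans ?_
      rw [Finset.sum_const, Finset.card_univ, Fintype.card_fin, nsmul_eq_mul]
    have e3 := Finset.sum_le_sum (s := Finset.univ) fun (x : Fin k → S) _ => e2 x
    rw [Finset.sum_const, Finset.card_univ, Fintype.card_fun, Fintype.card_fin, nsmul_eq_mul] at e3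
    push_cast at e3
    calc _ ≤ ((Fintype.card S : ℝ) ^ k)⁻¹ *
          ((Fintype.card S : ℝ) ^ k * (k * (72 * ((p ^ t)⁻¹ * (t * τ))))) :=
          mul_le_mul_of_nonneg_left e3 (inv_pos.2 hN).le
      _ = _ := by rw [← mul_assoc, inv_mul_cancel₀ hN.ne', one_mul]
  have e4 : Ex (bw p) (fun T : Fin n → ZMod 2 => (k : ℝ) * Real.log (Fintype.card S) + Real.log l *
      ((∑ x : Fin k → S, ∑ i, (if g (on T) (E x) i = x i then (0 : ℝ) else 1)) / (Fintype.card S : ℝ) ^ k)) =
      (k : ℝ) * Real.log (Fintype.card S) + Real.log l * Ex (bw p) (fun T : Fin n → ZMod 2 =>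
      ((∑ x : Fin k → S, ∑ i, (if g (on T) (E x) i = x i then (0 : ℝ) else 1)) / (Fintype.card S : ℝ) ^ k)) := by
    rw [Ex_add, Ex_const p ((k : ℝ) * Real.log (Fintype.card S)), Ex_const_mul]
  have e5 : Ex (bw p) (fun T : Fin n → ZMod 2 =>
      ((on T).card : ℝ) * Real.log (Fintype.card S) + k * ((Fintype.card S - 1) * l)) =
      p * n * Real.log (Fintype.card S) + k * ((Fintype.card S - 1) * l) := by
    rw [Ex_add]
    have e6 : (fun T : Fin n → ZMod 2 => ((on T).card : ℝ) * Real.log (Fintype.card S)) =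
      fun T => Real.log (Fintype.card S) * ((on T).card : ℝ) := by funext T; ring
    rw [e6, Ex_const p ((k : ℝ) * ((Fintype.card S - 1) * l)), Ex_const_mul, Ex_card_on]
    ring
  rw [e4, e5] at h2
  have hlog : Real.log l ≤ 0 := Real.log_nonpos hl.le hl1
  have h8 := mul_le_mul_of_nonpos_left herr hlog
  have h9 : Real.log (1 / l) = - Real.log l := by rw [one_div, Real.log_inv]
  rw [h9]
  have h10 : (k : ℝ) * (Real.log (Fintype.card S) - 72 * ((p ^ t)⁻¹ * (t * τ)) * -Real.log l -
      (Fintype.card S - 1) * l) = (k : ℝ) * Real.log (Fintype.card S) +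
      Real.log l * (k * (72 * ((p ^ t)⁻¹ * (t * τ)))) - k * ((Fintype.card S - 1) * l) := by ring
  rw [h10]
  linarith

end

end Pool.Agent.LDCX
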