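import Pool.Agent.LDCX.Ent

/-!
# The main inequality for binary linear codes
-/

open scoped BigOperators
open Finset

namespace Pool.Agent.LDCX

noncomputable section

variable {ι : Type} [Fintype ι] [DecidableEq ι]

/-- The indicator of a set. -/
def ind (C : Finset ι) : ι → ZMod 2 := fun j => if j ∈ C then 1 else 0

/-- The number of ones in `C`. -/
def ones (C : Finset ι) (S : ι → ZMod 2) : ℕ := (C.filter (fun j => S j = 1)).card

/-- The weights. -/
def bw (p : ℝ) (a : ZMod 2) : ℝ := if a = 1 then p else 1 - p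

theorem sum_zmod2 (f : ZMod 2 → ℝ) : ∑ a, f a = f 0 + f 1 := Fin.sum_univ_two (fun a : Fin 2 => f a)

theorem bw_zero (p : ℝ) : bw p 0 = 1 - p := by simp [bw]

theorem bw_one (p : ℝ) : bw p 1 = p := by simp [bw]

theorem bw_sum (p : ℝ) : ∑ a, bw p a = 1 := by
  rw [sum_zmod2, bw_zero, bw_one]; ring

theorem bw_pos {p : ℝ} (h0 : 0 < p) (h1 : p < 1) (a : ZMod 2) : 0 < bw p a := by
  unfold bw
  split_ifs
  · exact h0
  · linarith

theorem zmod2_cases (a : ZMod 2) : a = 0 ∨ a = 1 := by
  revert a; decide

theorem zmod2_add_one_eq (a : ZMod 2) : a + 1 = 1 ↔ ¬ (a = 1) := by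
  revert a; decide

theorem ones_flip (C : Finset ι) (S : ι → ZMod 2) : ones C (S + ind C) + ones C S = C.card := by
  unfold ones
  have e : C.filter (fun j => (S + ind C) j = 1) = C.filter (fun j => ¬ (S j = 1)) := by
    refine Finset.filter_congr fun j hj => ?_
    simp only [Pi.add_apply, ind, hj, if_true]
    exact zmod2_add_one_eq _
  rw [e, add_comm]
  exact Finset.card_filter_add_card_filter_not _

theorem ones_disjoint {C C' : Finset ι} (h : Disjoint C' C) (S : ι → ZMod 2) :
    ones C' (S + ind C) = ones C' S := by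
  unfold ones
  congr 1
  refine Finset.filter_congr fun j hj => ?_
  have : j ∉ C := Finset.disjoint_left.1 h hj
  simp [ind, this]

theorem mu_eq (p : ℝ) (C : Finset ι) (S : ι → ZMod 2) :
    mu (bw p) S = p ^ (ones C S) * (1 - p) ^ (C.card - ones C S) * ∏ j ∈ Cᶜ, bw p (S j) := by
  unfold mu
  rw [← Finset.prod_mul_prod_compl C]
  congr 1
  have h1 : ∀ j ∈ C, bw p (S j) = if S j = 1 then p else 1 - p := fun j _ => rfl
  rw [Finset.prod_congr rfl h1, Finset.prod_ite, Finset.prod_const, Finset.prod_const]
  have h2 : (C.filter (fun j => ¬ (S j = 1))).card = C.card - ones C S := by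
    unfold ones
    have := Finset.card_filter_add_card_filter_not (s := C) (fun j => S j = 1)
    omega
  rw [h2]
  rfl

theorem mu_flip (p : ℝ) {r : ℕ} (C : Finset ι) (hC : C.card = 2 * r) (S : ι → ZMod 2) (hS : ones C S = r) :
    mu (bw p) (S + ind C) = mu (bw p) S := by
  have h1 : ones C (S + ind C) = r := by
    have := ones_flip C S
    omega
  rw [mu_eq p C, mu_eq p C, h1, hS]
  congr 1
  refine Finset.prod_congr rfl fun j hj => ?_
  have : j ∉ C := Finset.mem_compl.1 hj
  simp [ind, this]

theorem add_ind_add_ind (C : Finset ι) (S : ι → ZMod 2) : S + ind C + ind C = S := by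
  funext j
  simp only [Pi.add_apply, ind]
  split_ifs
  · rw [add_assoc]
    have : (1 : ZMod 2) + 1 = 0 := by decide
    rw [this, add_zero]
  · simp

/-- The indicator of the good event. -/
def xg (r : ℕ) (C : Finset ι) (S : ι → ZMod 2) : ℝ := if ones C S = r then 1 else 0

theorem xg_nonneg (r : ℕ) (C : Finset ι) (S : ι → ZMod 2) : 0 ≤ xg r C S := by
  unfold xg; split_ifs <;> norm_num

theorem xg_le_one (r : ℕ) (C : Finset ι) (S : ι → ZMod 2) : xg r C S ≤ 1 := by
  unfold xg; split_ifs <;> norm_num

theorem xg_flip {r : ℕ} (C : Finset ι) (hC : C.card = 2 * r) (S : ι → ZMod 2) :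
    xg r C (S + ind C) = xg r C S := by
  unfold xg
  have := ones_flip C S
  have e : (ones C (S + ind C) = r) ↔ (ones C S = r) := by omega
  simp only [e]

theorem xg_disjoint {r : ℕ} {C C' : Finset ι} (h : Disjoint C' C) (S : ι → ZMod 2) :
    xg r C' (S + ind C) = xg r C' S := by
  unfold xg
  rw [ones_disjoint h]

theorem xg_congr {r : ℕ} (C : Finset ι) (S S' : ι → ZMod 2) (h : ∀ j ∈ C, S j = S' j) :
    xg r C S = xg r C S' := by
  have : ones C S = ones C S' := by
    unfold ones
    congr 1
    exact Finset.filter_congr fun j hj => by rw [h j hj]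
  unfold xg
  rw [this]

/-- The probability of the good event. -/
theorem Ex_xg (p : ℝ) {r : ℕ} (C : Finset ι) (hC : C.card = 2 * r) :
    Ex (bw p) (xg r C) = ((2 * r).choose r : ℝ) * (p * (1 - p)) ^ r := by
  have e1 : (xg r C : (ι → ZMod 2) → ℝ) = fun S => ∑ D ∈ C.powersetCard r,
      ∏ j, (if j ∈ C then (if S j = (if j ∈ D then 1 else 0) then (1 : ℝ) else 0) else 1) := by
    funext S
    have e2 : ∀ D ∈ C.powersetCard r,
        ∏ j, (if j ∈ C then (if S j = (if j ∈ D then 1 else 0) then (1 : ℝ) else 0) else 1) =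
        if D = C.filter (fun j => S j = 1) then (1 : ℝ) else 0 := by
      intro D hD
      rw [Finset.mem_powersetCard] at hD
      by_cases hDS : D = C.filter (fun j => S j = 1)
      · rw [if_pos hDS]
        refine Finset.prod_eq_one fun j _ => ?_
        by_cases hj : j ∈ C
        · rw [if_pos hj]
          apply if_pos
          rcases zmod2_cases (S j) with h | h
          · have : j ∉ D := by
              rw [hDS, Finset.mem_filter]
              rintro ⟨_, h'⟩
              rw [h] at h'
              exact absurd h' (by decide)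
            rw [if_neg this, h]
          · have : j ∈ D := by
              rw [hDS, Finset.mem_filter]
              exact ⟨hj, h⟩
            rw [if_pos this, h]
        · rw [if_neg hj]
      · rw [if_neg hDS]
        by_contra hne
        apply hDS
        have h3 : ∀ j ∈ C, S j = (if j ∈ D then 1 else 0) := by
          intro j hj
          by_contra hj2
          apply hne
          apply Finset.prod_eq_zero (Finset.mem_univ j)
          rw [if_pos hj, if_neg hj2]
        ext j
        rw [Finset.mem_filter]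
        constructor
        · intro hj
          refine ⟨hD.1 hj, ?_⟩
          rw [h3 j (hD.1 hj), if_pos hj]
        · rintro ⟨hj, h4⟩
          by_contra h5
          rw [h3 j hj, if_neg h5] at h4
          exact absurd h4 (by decide)
    rw [Finset.sum_congr rfl e2, Finset.sum_ite_eq']
    unfold xg ones
    by_cases h : (C.filter (fun j => S j = 1)).card = r
    · rw [if_pos h, if_pos]
      rw [Finset.mem_powersetCard]
      exact ⟨Finset.filter_subset _ _, h⟩
    · rw [if_neg h, if_neg]
      rw [Finset.mem_powersetCard]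
      exact fun h' => h h'.2
  rw [e1, Ex_sum]
  have e3 : ∀ D ∈ C.powersetCard r, Ex (bw p) (fun S : ι → ZMod 2 =>
      ∏ j, (if j ∈ C then (if S j = (if j ∈ D then 1 else 0) then (1 : ℝ) else 0) else 1)) =
      (p * (1 - p)) ^ r := by
    intro D hD
    rw [Finset.mem_powersetCard] at hD
    rw [Ex_prod (bw p) (fun j a => if j ∈ C then (if a = (if j ∈ D then 1 else 0) then (1 : ℝ) else 0) else 1)]
    have e4 : ∀ j : ι, ∑ a, bw p a * (if j ∈ C then (if a = (if j ∈ D then 1 else 0) then (1 : ℝ) else 0) else 1)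
        = if j ∈ C then (if j ∈ D then p else 1 - p) else 1 := by
      intro j
      rw [sum_zmod2, bw_zero, bw_one]
      by_cases hj : j ∈ C
      · by_cases hd : j ∈ D <;> simp [hj, hd]
      · simp [hj]
    rw [Finset.prod_congr rfl fun j _ => e4 j]
    rw [Finset.prod_ite_mem, Finset.univ_inter, Finset.prod_ite, Finset.prod_const, Finset.prod_const]
    have h5 : (C.filter (fun j => j ∈ D)) = D := by
      ext j
      rw [Finset.mem_filter]
      exact ⟨fun h => h.2, fun h => ⟨hD.1 h, h⟩⟩
    have h6 : (C.filter (fun j => ¬ (j ∈ D))).card = r := by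
      have := Finset.card_filter_add_card_filter_not (s := C) (fun j => j ∈ D)
      rw [h5] at this
      have := hD.2
      omega
    rw [h5, h6, hD.2, mul_pow]
  rw [Finset.sum_congr rfl e3, Finset.sum_const, Finset.card_powersetCard, hC, nsmul_eq_mul]

/-- The main inequality. -/
theorem main_binary {k m r : ℕ} {p : ℝ} (hp : 0 < p) (hp1 : p < 1)
    (g : (ι → ZMod 2) → (Fin k → ZMod 2)) (C : Fin k → Fin m → Finset ι)
    (hC : ∀ i a b, a ≠ b → Disjoint (C i a) (C i b)) (hcard : ∀ i a, (C i a).card = 2 * r)
    (hg : ∀ i a S, g (S + ind (C i a)) = g S + Pi.single i 1) :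
    Real.log 2 * ((k : ℝ) * (1 - (1 - ((2 * r).choose r : ℝ) * (p * (1 - p)) ^ r) ^ m)) ≤
      (Fintype.card ι : ℝ) * Real.binEntropy p := by
  set w := push (bw p) g with hw
  have hb : ∀ a, 0 < bw p a := bw_pos hp hp1
  have hb0 : ∀ a, 0 ≤ bw p a := fun a => (hb a).le
  have h1 : En w ≤ (Fintype.card ι : ℝ) * Real.binEntropy p := by
    have := En_push_le hb (bw_sum p) g
    rw [sum_zmod2, bw_zero, bw_one] at this
    have e : Real.binEntropy p = (1 - p) * -Real.log (1 - p) + p * -Real.log p := by
      rw [Real.binEntropy, Real.log_inv, Real.log_inv]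
      ring
    rw [e]
    exact this
  have h2 := cube_ineq k w (fun v => push_nonneg hb0 g v)
  refine le_trans ?_ (h2.trans h1)
  apply mul_le_mul_of_nonneg_left _ (Real.log_nonneg (by norm_num))
  have h3 : ∀ i : Fin k, 1 - (1 - ((2 * r).choose r : ℝ) * (p * (1 - p)) ^ r) ^ m ≤
      ∑ v, min (w v) (w (v + Pi.single i 1)) := by
    intro i
    -- the functions
    let τ : Fin m → (ι → ZMod 2) → ℝ := fun a S =>
      xg r (C i a) S * ∏ b ∈ Finset.univ.filter (fun b => b < a), (1 - xg r (C i b) S)
    have hτ0 : ∀ a S, 0 ≤ τ a S := fun a S => mul_nonneg (xg_nonneg _ _ _)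
      (Finset.prod_nonneg fun b _ => by linarith [xg_le_one r (C i b) S])
    have hτsum : ∀ S, ∑ a, τ a S = 1 - ∏ a, (1 - xg r (C i a) S) := by
      intro S
      have := Finset.prod_one_sub_ordered (Finset.univ : Finset (Fin m)) (fun a => xg r (C i a) S)
      rw [this]
      ring
    have hτinv : ∀ a S, τ a (S + ind (C i a)) = τ a S := by
      intro a S
      simp only [τ]
      rw [xg_flip _ (hcard i a)]
      congr 1
      refine Finset.prod_congr rfl fun b hb => ?_
      rw [Finset.mem_filter] at hb
      rw [xg_disjoint (hC i b a (ne_of_lt hb.2))]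
    have hμτ : ∀ a S, mu (bw p) (S + ind (C i a)) * τ a (S + ind (C i a)) = mu (bw p) S * τ a S := by
      intro a S
      rw [hτinv]
      by_cases h : ones (C i a) S = r
      · rw [mu_flip p _ (hcard i a) S h]
      · have : τ a S = 0 := by
          simp only [τ, xg, if_neg h, zero_mul]
        rw [this, mul_zero, mul_zero]
    let u : (Fin k → ZMod 2) → ℝ := fun v =>
      ∑ a, ∑ S, mu (bw p) S * τ a S * (if g S = v then (1 : ℝ) else 0)
    have hu1 : ∀ v, u v ≤ w v := by
      intro v
      simp only [u, hw, push, Ex]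
      rw [Finset.sum_comm]
      refine Finset.sum_le_sum fun S _ => ?_
      rw [← Finset.sum_mul, ← Finset.mul_sum, hτsum]
      have h4 : 0 ≤ ∏ a, (1 - xg r (C i a) S) :=
        Finset.prod_nonneg fun b _ => by linarith [xg_le_one r (C i b) S]
      have h5 : mu (bw p) S * (1 - ∏ a, (1 - xg r (C i a) S)) ≤ mu (bw p) S := by
        have := mul_nonneg (mu_nonneg hb0 S) h4
        linarith
      exact mul_le_mul_of_nonneg_right h5 (by split_ifs <;> norm_num)
    have hu2 : ∀ v, u (v + Pi.single i 1) = u v := by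
      intro v
      simp only [u]
      refine Finset.sum_congr rfl fun a _ => ?_
      symm
      refine Fintype.sum_equiv ⟨fun S => S + ind (C i a), fun S => S + ind (C i a),
        fun S => add_ind_add_ind _ S, fun S => add_ind_add_ind _ S⟩ _ _ fun S => ?_
      simp only [Equiv.coe_fn_mk]
      rw [hμτ]
      have e5 : (g (S + ind (C i a)) = v + Pi.single i 1) ↔ (g S = v) := by
        rw [hg]; exact add_left_inj _
      by_cases hv : g S = v
      · rw [if_pos hv, if_pos (e5.2 hv)]
      · rw [if_neg hv, if_neg (fun h => hv (e5.1 h))]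
    have hu3 : ∑ v, u v = 1 - (1 - ((2 * r).choose r : ℝ) * (p * (1 - p)) ^ r) ^ m := by
      have e1 : ∑ v, u v = Ex (bw p) (fun S => 1 - ∏ a, (1 - xg r (C i a) S)) := by
        simp only [u]
        rw [Finset.sum_comm]
        unfold Ex
        have e2 : ∀ a, ∑ v, ∑ S, mu (bw p) S * τ a S * (if g S = v then (1 : ℝ) else 0) =
            ∑ S, mu (bw p) S * τ a S := by
          intro a
          rw [Finset.sum_comm]
          refine Finset.sum_congr rfl fun S _ => ?_
          rw [← Finset.mul_sum, Finset.sum_ite_eq]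
          simp
        simp only [e2]
        rw [Finset.sum_comm]
        refine Finset.sum_congr rfl fun S _ => ?_
        rw [← Finset.mul_sum, hτsum]
      rw [e1]
      have e3 : Ex (bw p) (fun S : ι → ZMod 2 => 1 - ∏ a, (1 - xg r (C i a) S)) =
          Ex (bw p) (fun _ : ι → ZMod 2 => (1 : ℝ)) - Ex (bw p) (fun S => ∏ a, (1 - xg r (C i a) S)) :=
        Ex_sub _ _ _
      rw [e3, Ex_one (bw_sum p)]
      rw [Ex_prod_disjoint (bw_sum p) Finset.univ (C i) (fun a _ b _ hab => hC i a b hab)
        (fun a S => 1 - xg r (C i a) S) (fun a _ S S' h => by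
          show 1 - xg r (C i a) S = 1 - xg r (C i a) S'
          rw [xg_congr _ S S' h])]
      have e4 : ∀ a, Ex (bw p) (fun S : ι → ZMod 2 => 1 - xg r (C i a) S) =
          1 - ((2 * r).choose r : ℝ) * (p * (1 - p)) ^ r := by
        intro a
        have : Ex (bw p) (fun S : ι → ZMod 2 => 1 - xg r (C i a) S) =
          Ex (bw p) (fun _ : ι → ZMod 2 => (1 : ℝ)) - Ex (bw p) (xg r (C i a)) := Ex_sub _ _ _
        rw [this, Ex_one (bw_sum p), Ex_xg p _ (hcard i a)]
      rw [Finset.prod_congr rfl fun a _ => e4 a, Finset.prod_const, Finset.card_univ, Fintype.card_fin]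
    rw [← hu3]
    refine Finset.sum_le_sum fun v _ => le_min (hu1 v) ?_
    rw [← hu2 v]
    exact hu1 _
  calc (k : ℝ) * (1 - (1 - ((2 * r).choose r : ℝ) * (p * (1 - p)) ^ r) ^ m)
      = ∑ _i : Fin k, (1 - (1 - ((2 * r).choose r : ℝ) * (p * (1 - p)) ^ r) ^ m) := by
        rw [Finset.sum_const, Finset.card_univ, Fintype.card_fin, nsmul_eq_mul]
    _ ≤ _ := Finset.sum_le_sum fun i _ => h3 i

end

end Pool.Agent.LDCX
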