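import Pool.Agent.LDCX.Final

/-!
# Binary linear codes of rate close to one
-/

open scoped BigOperators
open Finset

namespace Pool.Agent.LDCX

noncomputable section

/-- `(1 + u) log (1 + u) + (1 - u) log (1 - u) ≥ u ^ 2`. -/
theorem sq_le_aux (u : ℝ) (h0 : 0 ≤ u) (h1 : u < 1) :
    u ^ 2 ≤ (1 + u) * Real.log (1 + u) + (1 - u) * Real.log (1 - u) := by
  let f : ℝ → ℝ := fun x => (1 + x) * Real.log (1 + x) + (1 - x) * Real.log (1 - x) - x ^ 2
  have hd : ∀ x ∈ Set.Ico (0 : ℝ) 1, HasDerivAt f (Real.log (1 + x) - Real.log (1 - x) - 2 * x) x := by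
    intro x hx
    have h1x : (1 : ℝ) + x ≠ 0 := by linarith [hx.1]
    have h1x' : (1 : ℝ) - x ≠ 0 := by linarith [hx.2]
    have a1 : HasDerivAt (fun x : ℝ => 1 + x) 1 x := by
      simpa using (hasDerivAt_id x).const_add 1
    have a2 : HasDerivAt (fun x : ℝ => 1 - x) (-1) x := by
      simpa using (hasDerivAt_id x).const_sub 1
    have a3 := a1.mul (a1.log h1x)
    have a4 := a2.mul (a2.log h1x')
    have a5 : HasDerivAt (fun x : ℝ => x ^ 2) (2 * x) x := by
      simpa using hasDerivAt_pow 2 x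
    have a6 := (a3.add a4).sub a5
    have a7 : 1 * Real.log (1 + x) + (1 + x) * (1 / (1 + x)) + (-1 * Real.log (1 - x) + (1 - x) * (-1 / (1 - x))) -
        2 * x = Real.log (1 + x) - Real.log (1 - x) - 2 * x := by
      field_simp
      ring
    rw [← a7]
    exact a6
  have hmono : MonotoneOn f (Set.Ico 0 1) := by
    apply monotoneOn_of_deriv_nonneg (convex_Ico 0 1)
    · intro x hx
      exact (hd x hx).continuousAt.continuousWithinAt
    · intro x hx
      rw [interior_Ico] at hx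
      exact (hd x ⟨hx.1.le, hx.2⟩).differentiableAt.differentiableWithinAt
    · intro x hx
      rw [interior_Ico] at hx
      rw [(hd x ⟨hx.1.le, hx.2⟩).deriv]
      -- log (1 + x) - log (1 - x) ≥ 2 x
      have h1x : (0 : ℝ) < 1 + x := by linarith [hx.1]
      have h1x' : (0 : ℝ) < 1 - x := by linarith [hx.2]
      have hs := Real.hasSum_log_sub_log_of_abs_lt_one (x := x) (by rw [abs_of_pos hx.1]; exact hx.2)
      have h2 : 2 * x ≤ Real.log (1 + x) - Real.log (1 - x) := by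
        have h3 := le_hasSum hs 0 (fun i _ => by
          have : 0 < x := hx.1
          positivity)
        simpa using h3
      linarith
  have h := hmono (Set.left_mem_Ico.2 (by norm_num)) ⟨h0, h1⟩ h0
  have hf0 : f 0 = 0 := by simp [f]
  rw [hf0] at h
  simp only [f] at h
  linarith

theorem binEntropy_le (x : ℝ) (h0 : 0 ≤ x) (h1 : x < 1 / 2) :
    Real.binEntropy (1 / 2 - x) ≤ Real.log 2 - 2 * x ^ 2 := by
  have h := sq_le_aux (2 * x) (by linarith) (by linarith)
  have ha : (0 : ℝ) < 1 - 2 * x := by linarith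
  have hb : (0 : ℝ) < 1 + 2 * x := by linarith
  rw [Real.binEntropy]
  have e1 : (1 / 2 - x : ℝ) = (1 - 2 * x) / 2 := by ring
  have e2 : 1 - (1 / 2 - x : ℝ) = (1 + 2 * x) / 2 := by ring
  rw [e2, e1, inv_div, inv_div, Real.log_div (by norm_num) ha.ne', Real.log_div (by norm_num) hb.ne']
  nlinarith

/-- Binary linear codes of rate `1 - α`. -/
theorem near_one (ε δ : ℝ) (hε : 0 < ε) (hδ : 0 < δ) :
    ∃ α₀ : ℝ, 0 < α₀ ∧ ∀ α : ℝ, 0 < α → α < α₀ → ∃ n₀ : ℕ, ∀ n : ℕ, n₀ ≤ n → ∀ (k t : ℕ)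
      (E : (Fin k → ZMod 2) →ₗ[ZMod 2] (Fin n → ZMod 2)), (1 - α) * n ≤ k → IsLDC (fun x => E x) δ t →
      (1 - ε) * Real.log n / (α * Real.log 2) ≤ t := by
  have hl2 : 0 < Real.log 2 := Real.log_pos (by norm_num)
  rcases le_or_gt 1 ε with h1 | h1
  · refine ⟨1, one_pos, fun α hα _ => ⟨1, fun n hn k t E _ _ => ?_⟩⟩
    have h2 : 0 ≤ Real.log n := Real.log_natCast_nonneg n
    have h3 : (1 - ε) * Real.log n / (α * Real.log 2) ≤ 0 :=
      div_nonpos_of_nonpos_of_nonneg (mul_nonpos_of_nonpos_of_nonneg (by linarith) h2) (by positivity)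
    exact h3.trans (Nat.cast_nonneg _)
  refine ⟨ε / (4 * (1 + ε / 4) * Real.log 2), by positivity, fun α hα hα0 => ?_⟩
  set x := Real.sqrt ((1 + ε / 4) * α * Real.log 2 / 2) with hx
  have hx2 : x ^ 2 = (1 + ε / 4) * α * Real.log 2 / 2 := Real.sq_sqrt (by positivity)
  have hx0 : 0 < x := Real.sqrt_pos.2 (by positivity)
  have hαε : (1 + ε / 4) * α * Real.log 2 < ε / 4 := by
    rw [lt_div_iff₀ (by positivity)] at hα0
    linarith
  have hx4 : 4 * x ^ 2 < ε / 2 := by rw [hx2]; linarith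
  have hxlt : x < 1 / 2 := by nlinarith
  obtain ⟨n₀, hn₀⟩ := binary_final (1 - α) δ (1 / 2 - x) hδ (by linarith) (by linarith) (by
    refine lt_of_le_of_lt (binEntropy_le x hx0.le hxlt) ?_
    rw [hx2]
    have : 0 < ε / 4 * α * Real.log 2 := by positivity
    linarith)
  refine ⟨n₀, fun n hn k t E hk hE => ?_⟩
  refine le_trans ?_ (hn₀ n hn k t E hk hE)
  have h2 : 0 ≤ Real.log n := Real.log_natCast_nonneg n
  have e1 : 4 * (1 / 2 - x) * (1 - (1 / 2 - x)) = 1 - 4 * x ^ 2 := by ring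
  rw [e1]
  have hz : 0 < 1 - 4 * x ^ 2 := by linarith
  have hz1 : 1 - 4 * x ^ 2 < 1 := by
    have : 0 < x ^ 2 := by positivity
    linarith
  have hL : 0 < Real.log (1 / (1 - 4 * x ^ 2)) := by
    apply Real.log_pos
    rw [lt_div_iff₀ hz]
    linarith
  have hLle : Real.log (1 / (1 - 4 * x ^ 2)) ≤ 4 * x ^ 2 / (1 - 4 * x ^ 2) := by
    have := Real.log_le_sub_one_of_pos (show 0 < 1 / (1 - 4 * x ^ 2) by positivity)
    refine this.trans (le_of_eq ?_)
    field_simp
    ring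
  have h3 : 2 * Real.log n / (4 * x ^ 2 / (1 - 4 * x ^ 2)) ≤ 2 * Real.log n / Real.log (1 / (1 - 4 * x ^ 2)) :=
    div_le_div_of_nonneg_left (by positivity) hL hLle
  refine le_trans ?_ h3
  have e2 : 2 * Real.log n / (4 * x ^ 2 / (1 - 4 * x ^ 2)) =
      ((1 - 4 * x ^ 2) / (1 + ε / 4)) * Real.log n / (α * Real.log 2) := by
    have : 4 * x ^ 2 = 2 * ((1 + ε / 4) * α * Real.log 2) := by rw [hx2]; ring
    rw [div_div_eq_mul_div, this]
    field_simp
  rw [e2]
  apply div_le_div_of_nonneg_right _ (by positivity)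
  apply mul_le_mul_of_nonneg_right _ h2
  rw [le_div_iff₀ (by positivity)]
  nlinarith

end

end Pool.Agent.LDCX
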