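import Pool.Agent.LDCX.Prob2
import Pool.Agent.LDCX.Gen3

/-!
# Random erasures and the change of the density
-/

open scoped BigOperators
open Finset

namespace Pool.Agent.LDCX

noncomputable section

open Classical

variable {n k t : ℕ} {S : Type} [Fintype S]

/-- The law of one coordinate: the first component is one with probability `e`, the second one is a uniformly
distributed symbol. -/
def law (e : ℝ) (a : ZMod 2 × S) : ℝ := bw e a.1 / Fintype.card S

theorem law_sum [Nonempty S] (e : ℝ) : ∑ a : ZMod 2 × S, law e a = 1 := by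
  rw [Fintype.sum_prod_type]
  unfold law
  simp only [Finset.sum_const, Finset.card_univ, nsmul_eq_mul]
  have hs : (Fintype.card S : ℝ) ≠ 0 := by
    have : 0 < Fintype.card S := Fintype.card_pos
    positivity
  have : ∀ b : ZMod 2, (Fintype.card S : ℝ) * (bw e b / Fintype.card S) = bw e b := by
    intro b; field_simp
  rw [Finset.sum_congr rfl fun b _ => this b, bw_sum]

theorem law_nonneg {e : ℝ} (h0 : 0 < e) (h1 : e < 1) (a : ZMod 2 × S) : 0 ≤ law e a :=
  div_nonneg (bw_pos h0 h1 _).le (Nat.cast_nonneg _)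

/-- The expectation for the density `e`. -/
abbrev EE (e : ℝ) (F : (Fin n → ZMod 2 × S) → ℝ) : ℝ := Ex2 (fun _ => law e) F

/-- The number of the known coordinates in `P`. -/
def cnt (P : Finset (Fin n)) (T : Fin n → ZMod 2 × S) : ℕ := (P.filter (fun j => (T j).1 = 1)).card

/-- The likelihood ratio of one coordinate. -/
def lik (q e : ℝ) (b : ZMod 2) : ℝ := if b = 1 then q / e else (1 - q) / (1 - e)

theorem law_mul_lik {q e : ℝ} (he0 : 0 < e) (he1 : e < 1) (a : ZMod 2 × S) :
    law e a * lik q e a.1 = law q a := by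
  have h1 : e ≠ 0 := he0.ne'
  have h2 : 1 - e ≠ 0 := by linarith
  unfold law lik bw
  split_ifs
  · field_simp
  · field_simp

/-- The truncated likelihood ratio. -/
def Ltr (q e bd : ℝ) (P : Finset (Fin n)) (T : Fin n → ZMod 2 × S) : ℝ :=
  if (cnt P T : ℝ) ≤ bd then ∏ j ∈ P, lik q e (T j).1 else 0

theorem lik_nonneg {q e : ℝ} (hq0 : 0 < q) (hq1 : q < 1) (he0 : 0 < e) (he1 : e < 1) (b : ZMod 2) :
    0 ≤ lik q e b := by
  unfold lik
  split_ifs
  · positivity
  · exact div_nonneg (by linarith) (by linarith)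

theorem Ltr_nonneg {q e : ℝ} (hq0 : 0 < q) (hq1 : q < 1) (he0 : 0 < e) (he1 : e < 1) (bd : ℝ)
    (P : Finset (Fin n)) (T : Fin n → ZMod 2 × S) : 0 ≤ Ltr q e bd P T := by
  unfold Ltr
  split_ifs
  · exact Finset.prod_nonneg fun j _ => lik_nonneg hq0 hq1 he0 he1 _
  · exact le_rfl

/-- The change of the density. -/
theorem EE_Ltr [Nonempty S] {q e : ℝ} (he0 : 0 < e) (he1 : e < 1) (bd : ℝ) (P : Finset (Fin n))
    (G : (Fin n → ZMod 2 × S) → ℝ)
    (hG : ∀ T T' : Fin n → ZMod 2 × S, (∀ j ∈ P, T j = T' j) → G T = G T') :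
    EE e (fun T => Ltr q e bd P T * G T) =
      EE q (fun T => (if (cnt P T : ℝ) ≤ bd then (1 : ℝ) else 0) * G T) := by
  let π' : Fin n → ZMod 2 × S → ℝ := fun j a => if j ∈ P then law q a else law e a
  have hcnt : ∀ T T' : Fin n → ZMod 2 × S, (∀ j ∈ P, T j = T' j) → cnt P T = cnt P T' := by
    intro T T' h
    unfold cnt
    congr 1
    exact Finset.filter_congr fun j hj => by rw [h j hj]
  have e1 : EE e (fun T => Ltr q e bd P T * G T) =
      Ex2 π' (fun T => (if (cnt P T : ℝ) ≤ bd then (1 : ℝ) else 0) * G T) := by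
    unfold EE Ex2
    refine Finset.sum_congr rfl fun T _ => ?_
    unfold Ltr
    dsimp only
    by_cases h : (cnt P T : ℝ) ≤ bd
    · rw [if_pos h, if_pos h, one_mul, ← mul_assoc]
      congr 1
      unfold mu2
      rw [← Finset.prod_mul_prod_compl P, ← Finset.prod_mul_prod_compl P (fun j => π' j (T j))]
      have e2 : ∏ j ∈ P, π' j (T j) = (∏ j ∈ P, law e (T j)) * ∏ j ∈ P, lik q e (T j).1 := by
        rw [← Finset.prod_mul_distrib]
        refine Finset.prod_congr rfl fun j hj => ?_
        simp only [π', if_pos hj]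
        exact (law_mul_lik he0 he1 _).symm
      have e3 : ∏ j ∈ Pᶜ, π' j (T j) = ∏ j ∈ Pᶜ, law e (T j) := by
        refine Finset.prod_congr rfl fun j hj => ?_
        simp only [π', if_neg (Finset.mem_compl.1 hj)]
      rw [e2, e3]
      ring
    · rw [if_neg h, if_neg h]
      ring
  rw [e1]
  apply Ex2_change (C := P)
  · intro j
    simp only [π']
    split_ifs
    · exact law_sum q
    · exact law_sum e
  · intro j
    exact law_sum q
  · intro j hj
    simp only [π', if_pos hj]
  · intro T T' h
    rw [hcnt T T' h, hG T T' h]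

/-- The Kullback-Leibler divergence of two Bernoulli laws. -/
def KL (a b : ℝ) : ℝ := a * Real.log (a / b) + (1 - a) * Real.log ((1 - a) / (1 - b))

/-- The bound of the truncated likelihood ratio. -/
theorem Ltr_le {q e ε : ℝ} (he0 : 0 < e) (heq : e < q) (hq1 : q < 1) (hKL : 0 ≤ KL q e)
    (P : Finset (Fin n)) (hP : P.card ≤ t) (T : Fin n → ZMod 2 × S) :
    Ltr q e (q * P.card + ε * t) P T ≤
      Real.exp (t * (KL q e + ε * (Real.log (q / e) - Real.log ((1 - q) / (1 - e))))) := by
  unfold Ltr
  split_ifs with h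
  · have hq0 : 0 < q := he0.trans heq
    have h1e : 0 < 1 - e := by linarith
    have h1q : 0 < 1 - q := by linarith
    have hA : 0 < q / e := by positivity
    have hB : 0 < (1 - q) / (1 - e) := by positivity
    have e1 : ∏ j ∈ P, lik q e (T j).1 = (q / e) ^ (cnt P T) * ((1 - q) / (1 - e)) ^ (P.card - cnt P T) := by
      unfold lik
      rw [Finset.prod_ite, Finset.prod_const, Finset.prod_const]
      congr 2
      have := Finset.card_filter_add_card_filter_not (s := P) (fun j => (T j).1 = 1)
      unfold cnt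
      omega
    have hle : cnt P T ≤ P.card := Finset.card_filter_le _ _
    rw [e1]
    have e2 : (q / e) ^ (cnt P T) * ((1 - q) / (1 - e)) ^ (P.card - cnt P T) =
        Real.exp ((cnt P T : ℝ) * Real.log (q / e) + ((P.card : ℝ) - cnt P T) * Real.log ((1 - q) / (1 - e))) := by
      rw [Real.exp_add]
      congr 1
      · rw [← Real.rpow_natCast, Real.rpow_def_of_pos hA]
        congr 1; ring
      · rw [← Real.rpow_natCast, Real.rpow_def_of_pos hB, Nat.cast_sub hle]
        congr 1; ring
    rw [e2]
    apply Real.exp_le_exp.2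
    set c1 := Real.log (q / e) - Real.log ((1 - q) / (1 - e)) with hc1
    have hc10 : 0 < c1 := by
      have h2 : 0 < Real.log (q / e) := Real.log_pos (by rw [lt_div_iff₀ he0]; linarith)
      have h3 : Real.log ((1 - q) / (1 - e)) < 0 := Real.log_neg hB (by rw [div_lt_one h1e]; linarith)
      linarith
    have e3 : (cnt P T : ℝ) * Real.log (q / e) + ((P.card : ℝ) - cnt P T) * Real.log ((1 - q) / (1 - e)) =
        (P.card : ℝ) * Real.log ((1 - q) / (1 - e)) + (cnt P T : ℝ) * c1 := by
      rw [hc1]; ring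
    rw [e3]
    have h4 : (cnt P T : ℝ) * c1 ≤ (q * P.card + ε * t) * c1 := mul_le_mul_of_nonneg_right h hc10.le
    have h5 : (P.card : ℝ) * KL q e ≤ t * KL q e := mul_le_mul_of_nonneg_right (by exact_mod_cast hP) hKL
    have e4 : (P.card : ℝ) * Real.log ((1 - q) / (1 - e)) + (q * P.card + ε * t) * c1 =
        (P.card : ℝ) * KL q e + t * (ε * c1) := by
      rw [hc1, KL]; ring
    calc _ ≤ (P.card : ℝ) * Real.log ((1 - q) / (1 - e)) + (q * P.card + ε * t) * c1 := by linarith
      _ = (P.card : ℝ) * KL q e + t * (ε * c1) := e4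
      _ ≤ t * KL q e + t * (ε * c1) := by linarith
      _ = _ := by ring
  · exact (Real.exp_pos _).le

/-- The expectation of a function of one coordinate. -/
theorem EE_coord [Nonempty S] (q : ℝ) (j : Fin n) (ψ : ZMod 2 × S → ℝ) :
    EE q (fun T : Fin n → ZMod 2 × S => ψ (T j)) = ∑ a, law q a * ψ a :=
  Ex2_coord (fun _ => law_sum q) j ψ

/-- The probability that the truncation occurs. -/
theorem trunc_prob [Nonempty S] {q ε : ℝ} (hq0 : 0 < q) (hq1 : q < 1) (hε : 0 < ε) (ht : 0 < t)
    (P : Finset (Fin n)) (hP : P.card ≤ t) :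
    EE q (fun T : Fin n → ZMod 2 × S => if (cnt P T : ℝ) ≤ q * P.card + ε * t then (0 : ℝ) else 1) ≤
      1 / (ε ^ 2 * t) := by
  have ht0 : (0 : ℝ) < t := by exact_mod_cast ht
  have h0 : ∀ (j : Fin n) (a : ZMod 2 × S), 0 ≤ law q a := fun _ a => law_nonneg hq0 hq1 a
  let w : Fin n → ℝ := fun j => if j ∈ P then 1 / (t : ℝ) else 0
  have hw0 : ∀ j, 0 ≤ w j := by
    intro j
    simp only [w]
    split_ifs
    · positivity
    · exact le_rfl
  have hwsum : ∑ j, w j = (P.card : ℝ) / t := by
    simp only [w]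
    rw [Finset.sum_ite_mem, Finset.univ_inter, Finset.sum_const, nsmul_eq_mul]
    ring
  have hPt : (P.card : ℝ) ≤ t := by exact_mod_cast hP
  let F : Fin n → (Fin n → ZMod 2 × S) → ℝ := fun j T => if (T j).1 = 1 then (1 : ℝ) else 0
  have hEF : ∀ j, EE q (F j) = q := by
    intro j
    have := EE_coord (n := n) q j (fun a : ZMod 2 × S => if a.1 = 1 then (1 : ℝ) else 0)
    simp only [F]
    rw [this, Fintype.sum_prod_type, sum_zmod2]
    have hs : (Fintype.card S : ℝ) ≠ 0 := by
      have : 0 < Fintype.card S := Fintype.card_pos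
      positivity
    simp [law, bw_zero, bw_one]
    field_simp
  have hvar := var_bound (π := fun _ : Fin n => law (S := S) q) h0 (fun _ => law_sum q) (M := 1) (τ := 1 / (t : ℝ))
    (t := 1) (by norm_num) (by positivity) w hw0 (by rw [hwsum, div_le_one ht0]; exact hPt)
    (fun j => {j}) (fun j _ => by simp) (fun j hj i hi => by
      rw [Finset.mem_singleton] at hi
      subst hi
      have : ∑ ω', (if i ∈ ({ω'} : Finset (Fin n)) then w ω' else 0) = w i := by
        simp only [Finset.mem_singleton]
        rw [Finset.sum_ite_eq]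
        simp
      rw [this]
      simp only [w]
      split_ifs
      · exact le_rfl
      · positivity) F (fun j T => by simp only [F]; split_ifs <;> norm_num)
    (fun j T => by simp only [F]; split_ifs <;> norm_num)
    (fun j => by rw [show Ex2 (fun _ : Fin n => law (S := S) q) (F j) = q from hEF j]; exact hq1.le)
    (fun j T T' h => by simp only [F]; rw [h j (Finset.mem_singleton_self j)])
  have hm : ∑ j, w j * Ex2 (fun _ : Fin n => law (S := S) q) (F j) = q * P.card / t := by
    rw [Finset.sum_congr rfl fun j _ => by rw [show Ex2 (fun _ : Fin n => law (S := S) q) (F j) = q from hEF j],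
      ← Finset.sum_mul, hwsum]
    ring
  rw [hm] at hvar
  have hsum : ∀ T : Fin n → ZMod 2 × S, ∑ j, w j * F j T = (cnt P T : ℝ) / t := by
    intro T
    simp only [w, F, cnt]
    have : ∀ j : Fin n, (if j ∈ P then 1 / (t : ℝ) else 0) * (if (T j).1 = 1 then (1 : ℝ) else 0) =
        if j ∈ P then (if (T j).1 = 1 then 1 / (t : ℝ) else 0) else 0 := by
      intro j
      split_ifs <;> ring
    rw [Finset.sum_congr rfl fun j _ => this j, Finset.sum_ite_mem, Finset.univ_inter, ← Finset.sum_filter,
      Finset.sum_const, nsmul_eq_mul]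
    ring
  simp only [hsum] at hvar
  have hch := cheb2 h0 (fun T : Fin n → ZMod 2 × S => (cnt P T : ℝ) / t) (q * P.card / t) _ ε hε hvar
  refine le_trans ?_ (hch.trans (le_of_eq ?_))
  · apply Ex2_mono h0
    intro T
    by_cases h : (cnt P T : ℝ) ≤ q * P.card + ε * t
    · rw [if_pos h]
      split_ifs <;> norm_num
    · rw [if_neg h]
      push Not at h
      have h2 : ε ≤ |(cnt P T : ℝ) / t - q * P.card / t| := by
        apply le_trans _ (le_abs_self _)
        rw [← sub_div, le_div_iff₀ ht0]
        linarith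
      rw [if_pos h2]
  · push_cast
    field_simp

end

end Pool.Agent.LDCX
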