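import Pool.Agent.LDCX.Noise

/-!
# Decoding from a random set, with noise on the other coordinates
-/

open scoped BigOperators
open Finset

namespace Pool.Agent.LDCX

noncomputable section

open Classical

variable {n k t : ℕ} {S : Type} [Fintype S]

/-- The word given to the algorithm. -/
def rw3 (s0 : S) (H : Finset (Fin n)) (y : Fin n → S) (T : Fin n → ZMod 2 × S) : Fin n → S :=
  fun j => if j ∈ H then s0 else if (T j).1 = 1 then y j else (T j).2

/-- The set of the known coordinates. -/
def onT (T : Fin n → ZMod 2 × S) : Finset (Fin n) := Finset.univ.filter (fun j => (T j).1 = 1)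

/-- The estimator. -/
def W2 (A : NonAdAlg n t S) (q e ε : ℝ) (s0 : S) (H : Finset (Fin n)) (y : Fin n → S)
    (χ : S → ℝ) (T : Fin n → ZMod 2 × S) : ℝ :=
  letI := A.fin
  ∑ ω, A.prob ω * (Ltr q e (q * (lq A H ω).card + ε * t) (lq A H ω) T * χ (A.out ω (rw3 s0 H y T)))

/-- The indicator of a symbol. -/
def isym (s : S) : S → ℝ := fun a => if a = s then 1 else 0

/-- The indicator of the other symbols. -/
def osym (s : S) : S → ℝ := fun a => if a = s then 0 else 1

omit [Fintype S] in
theorem isym_le_osym {s s' : S} (h : s' ≠ s) (a : S) : isym s' a ≤ osym s a := by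
  unfold isym osym
  by_cases ha : a = s'
  · rw [if_pos ha, if_neg (fun h' => h (ha.symm.trans h'))]
  · rw [if_neg ha]
    split_ifs <;> norm_num

/-- The decoder. -/
def dec2 (A : NonAdAlg n t S) (q e ε : ℝ) (s0 : S) (H : Finset (Fin n)) (T : Fin n → ZMod 2 × S)
    (y : Fin n → S) : S :=
  if h : ∃ s, 1 / 2 < W2 A q e ε s0 H y (isym s) T then h.choose else s0

theorem rw3_congr (s0 : S) (H : Finset (Fin n)) (y y' : Fin n → S) (T : Fin n → ZMod 2 × S)
    (h : ∀ j ∈ onT T, y j = y' j) : rw3 s0 H y T = rw3 s0 H y' T := by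
  funext j
  unfold rw3
  by_cases hH : j ∈ H
  · rw [if_pos hH, if_pos hH]
  · rw [if_neg hH, if_neg hH]
    by_cases hT : (T j).1 = 1
    · rw [if_pos hT, if_pos hT]
      exact h j (by rw [onT, Finset.mem_filter]; exact ⟨Finset.mem_univ _, hT⟩)
    · rw [if_neg hT, if_neg hT]

theorem dec2_congr (A : NonAdAlg n t S) (q e ε : ℝ) (s0 : S) (H : Finset (Fin n))
    (T : Fin n → ZMod 2 × S) (y y' : Fin n → S) (h : ∀ j ∈ onT T, y j = y' j) :
    dec2 A q e ε s0 H T y = dec2 A q e ε s0 H T y' := by
  have : ∀ χ : S → ℝ, W2 A q e ε s0 H y χ T = W2 A q e ε s0 H y' χ T := by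
    intro χ
    unfold W2
    rw [rw3_congr s0 H y y' T h]
  unfold dec2
  simp only [this]

theorem W2_mono (A : NonAdAlg n t S) {q e : ℝ} (hq0 : 0 < q) (hq1 : q < 1) (he0 : 0 < e) (he1 : e < 1)
    (ε : ℝ) (s0 : S) (H : Finset (Fin n)) (y : Fin n → S) (χ χ' : S → ℝ) (h : ∀ a, χ a ≤ χ' a)
    (T : Fin n → ZMod 2 × S) : W2 A q e ε s0 H y χ T ≤ W2 A q e ε s0 H y χ' T := by
  unfold W2
  refine Finset.sum_le_sum fun ω _ => ?_
  apply mul_le_mul_of_nonneg_left _ (A.nonneg ω)
  exact mul_le_mul_of_nonneg_left (h _) (Ltr_nonneg hq0 hq1 he0 he1 _ _ _)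

theorem dec2_eq (A : NonAdAlg n t S) {q e : ℝ} (hq0 : 0 < q) (hq1 : q < 1) (he0 : 0 < e) (he1 : e < 1)
    (ε : ℝ) (s0 : S) (H : Finset (Fin n)) (T : Fin n → ZMod 2 × S) (y : Fin n → S) (s : S)
    (h1 : 1 / 2 < W2 A q e ε s0 H y (isym s) T) (h2 : W2 A q e ε s0 H y (osym s) T ≤ 1 / 2) :
    dec2 A q e ε s0 H T y = s := by
  have hex : ∃ s, 1 / 2 < W2 A q e ε s0 H y (isym s) T := ⟨s, h1⟩
  unfold dec2
  rw [dif_pos hex]
  by_contra hne
  have h3 := hex.choose_spec
  have h4 : W2 A q e ε s0 H y (isym hex.choose) T ≤ W2 A q e ε s0 H y (osym s) T := by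
    apply W2_mono A hq0 hq1 he0 he1
    exact isym_le_osym hne
  linarith

/-- The word is close to the codeword with high probability. -/
theorem close_prob [Nonempty S] {q γ δ : ℝ} (hq0 : 0 < q) (hq1 : q < 1) (hγ : 0 < γ) (hn : 0 < n)
    (hδ : (1 - q) * (Fintype.card S - 1) / Fintype.card S + γ ≤ δ)
    (s0 : S) (H : Finset (Fin n)) (hH : (H.card : ℝ) ≤ γ / 2 * n) (y : Fin n → S) :
    EE q (fun T : Fin n → ZMod 2 × S =>
      if (((Finset.univ.filter (fun j => rw3 s0 H y T j ≠ y j)).card : ℕ) : ℝ) < δ * n then (0 : ℝ) else 1) ≤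
      4 / (γ ^ 2 * n) := by
  have hn0 : (0 : ℝ) < n := by exact_mod_cast hn
  have hs0 : (0 : ℝ) < Fintype.card S := by
    have : 0 < Fintype.card S := Fintype.card_pos
    exact_mod_cast this
  have h0 : ∀ (j : Fin n) (a : ZMod 2 × S), 0 ≤ law q a := fun _ a => law_nonneg hq0 hq1 a
  let w : Fin n → ℝ := fun _ => 1 / (n : ℝ)
  have hw0 : ∀ j, 0 ≤ w j := fun j => by simp only [w]; positivity
  have hwsum : ∑ j, w j = 1 := by
    simp only [w]
    rw [Finset.sum_const, Finset.card_univ, Fintype.card_fin, nsmul_eq_mul]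
    field_simp
  let F : Fin n → (Fin n → ZMod 2 × S) → ℝ := fun j T =>
    if (T j).1 ≠ 1 ∧ (T j).2 ≠ y j then (1 : ℝ) else 0
  set m : ℝ := (1 - q) * (Fintype.card S - 1) / Fintype.card S with hm
  have hEF : ∀ j, EE q (F j) = m := by
    intro j
    have := EE_coord (n := n) q j (fun a : ZMod 2 × S => if a.1 ≠ 1 ∧ a.2 ≠ y j then (1 : ℝ) else 0)
    simp only [F]
    rw [this, Fintype.sum_prod_type, sum_zmod2]
    have e1 : ∑ u : S, law q ((1 : ZMod 2), u) * (if (1 : ZMod 2) ≠ 1 ∧ u ≠ y j then (1 : ℝ) else 0) = 0 := by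
      refine Finset.sum_eq_zero fun u _ => ?_
      simp
    have e2 : ∑ u : S, law q ((0 : ZMod 2), u) * (if (0 : ZMod 2) ≠ 1 ∧ u ≠ y j then (1 : ℝ) else 0) = m := by
      have e3 : ∀ u : S, law q ((0 : ZMod 2), u) * (if (0 : ZMod 2) ≠ 1 ∧ u ≠ y j then (1 : ℝ) else 0) =
          (1 - q) / Fintype.card S * (1 - (if u = y j then (1 : ℝ) else 0)) := by
        intro u
        have h01 : (0 : ZMod 2) ≠ 1 := by decide
        simp only [law, bw_zero]
        by_cases hu : u = y j
        · rw [if_neg (fun h => h.2 hu), if_pos hu]; ring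
        · rw [if_pos ⟨h01, hu⟩, if_neg hu]; ring
      rw [Finset.sum_congr rfl fun u _ => e3 u, ← Finset.mul_sum, Finset.sum_sub_distrib,
        Finset.sum_const, Finset.card_univ, nsmul_eq_mul, mul_one, Finset.sum_ite_eq']
      simp only [Finset.mem_univ, if_true]
      rw [hm]
      ring
    rw [e1, e2, add_zero]
  have hm0 : 0 ≤ m := by
    have h1 : (1 : ℝ) ≤ Fintype.card S := by exact_mod_cast Nat.succ_le_of_lt (Fintype.card_pos (α := S))
    rw [hm]
    apply div_nonneg (mul_nonneg (by linarith) (by linarith)) hs0.le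
  have hm1 : m ≤ 1 := by
    rw [hm, div_le_one hs0]
    have h1 : (1 : ℝ) ≤ Fintype.card S := by exact_mod_cast Nat.succ_le_of_lt (Fintype.card_pos (α := S))
    nlinarith
  have hvar := var_bound (π := fun _ : Fin n => law (S := S) q) h0 (fun _ => law_sum q) (M := 1) (τ := 1 / (n : ℝ))
    (t := 1) (by norm_num) (by positivity) w hw0 hwsum.le
    (fun j => {j}) (fun j _ => by simp) (fun j hj i hi => by
      rw [Finset.mem_singleton] at hi
      subst hi
      have : ∑ ω', (if i ∈ ({ω'} : Finset (Fin n)) then w ω' else 0) = w i := by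
        simp only [Finset.mem_singleton]
        rw [Finset.sum_ite_eq]
        simp
      rw [this]) F (fun j T => by simp only [F]; split_ifs <;> norm_num)
    (fun j T => by simp only [F]; split_ifs <;> norm_num)
    (fun j => by rw [show Ex2 (fun _ : Fin n => law (S := S) q) (F j) = m from hEF j]; exact hm1)
    (fun j T T' h => by simp only [F]; rw [h j (Finset.mem_singleton_self j)])
  have hm' : ∑ j, w j * Ex2 (fun _ : Fin n => law (S := S) q) (F j) = m := by
    rw [Finset.sum_congr rfl fun j _ => by rw [show Ex2 (fun _ : Fin n => law (S := S) q) (F j) = m from hEF j],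
      ← Finset.sum_mul, hwsum, one_mul]
  rw [hm'] at hvar
  have hch := cheb2 h0 (fun T : Fin n → ZMod 2 × S => ∑ j, w j * F j T) m _ (γ / 2) (by positivity) hvar
  refine le_trans ?_ (hch.trans (le_of_eq ?_))
  · apply Ex2_mono h0
    intro T
    by_cases h : (((Finset.univ.filter (fun j => rw3 s0 H y T j ≠ y j)).card : ℕ) : ℝ) < δ * n
    · rw [if_pos h]
      split_ifs <;> norm_num
    · rw [if_neg h]
      push Not at h
      have h1 : (Finset.univ.filter (fun j => rw3 s0 H y T j ≠ y j)) ⊆
          H ∪ Finset.univ.filter (fun j => (T j).1 ≠ 1 ∧ (T j).2 ≠ y j) := by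
        intro j hj
        rw [Finset.mem_filter] at hj
        rw [Finset.mem_union]
        by_cases hH' : j ∈ H
        · exact Or.inl hH'
        · right
          rw [Finset.mem_filter]
          refine ⟨Finset.mem_univ _, ?_, ?_⟩
          · intro hT
            apply hj.2
            simp [rw3, hH', hT]
          · intro hT
            apply hj.2
            simp only [rw3, if_neg hH']
            split_ifs
            · rfl
            · exact hT
      have h2 : (((Finset.univ.filter (fun j => rw3 s0 H y T j ≠ y j)).card : ℕ) : ℝ) ≤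
          H.card + ((Finset.univ.filter (fun j => (T j).1 ≠ 1 ∧ (T j).2 ≠ y j)).card : ℝ) := by
        exact_mod_cast (Finset.card_le_card h1).trans (Finset.card_union_le _ _)
      have h3 : ∑ j, w j * F j T =
          ((Finset.univ.filter (fun j => (T j).1 ≠ 1 ∧ (T j).2 ≠ y j)).card : ℝ) / n := by
        simp only [w, F]
        rw [← Finset.mul_sum, Finset.sum_boole]
        ring
      have h4 : γ / 2 ≤ |∑ j, w j * F j T - m| := by
        apply le_trans _ (le_abs_self _)
        rw [h3]
        have h5 : (m + γ) * n ≤ δ * n := mul_le_mul_of_nonneg_right hδ hn0.le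
        have h6 : (m + γ / 2) * n ≤
            ((Finset.univ.filter (fun j => (T j).1 ≠ 1 ∧ (T j).2 ≠ y j)).card : ℝ) := by
          linarith
        have h7 : m + γ / 2 ≤
            ((Finset.univ.filter (fun j => (T j).1 ≠ 1 ∧ (T j).2 ≠ y j)).card : ℝ) / n := by
          rw [le_div_iff₀ hn0]
          exact h6
        linarith
      rw [if_pos h4]
  · push_cast
    field_simp
    ring

end

end Pool.Agent.LDCX
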