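import Pool.Agent.LDCX.Noise2

/-!
# The error probability of the decoder, and the finite inequality
-/

open scoped BigOperators
open Finset

namespace Pool.Agent.LDCX

noncomputable section

open Classical

variable {n k t : ℕ} {S : Type} [Fintype S]

theorem Ltr_congr (q e bd : ℝ) (P : Finset (Fin n)) (T T' : Fin n → ZMod 2 × S)
    (h : ∀ j ∈ P, T j = T' j) : Ltr q e bd P T = Ltr q e bd P T' := by
  have h1 : cnt P T = cnt P T' := by
    unfold cnt
    congr 1
    exact Finset.filter_congr fun j hj => by rw [h j hj]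
  have h2 : ∏ j ∈ P, lik q e (T j).1 = ∏ j ∈ P, lik q e (T' j).1 :=
    Finset.prod_congr rfl fun j hj => by rw [h j hj]
  unfold Ltr
  rw [h1, h2]

theorem out_congr (A : NonAdAlg n t S) (s0 : S) (H : Finset (Fin n)) (y : Fin n → S) (ω : A.Ω)
    (T T' : Fin n → ZMod 2 × S) (h : ∀ j ∈ lq A H ω, T j = T' j) :
    A.out ω (rw3 s0 H y T) = A.out ω (rw3 s0 H y T') := by
  apply A.loc
  intro j hj
  unfold rw3
  by_cases hH : j ∈ H
  · rw [if_pos hH, if_pos hH]
  · rw [if_neg hH, if_neg hH, h j (Finset.mem_sdiff.2 ⟨hj, hH⟩)]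

/-- One of the two estimators is close to its expectation. -/
theorem est_close [Nonempty S] (A : NonAdAlg n t S) {q e ε τ : ℝ} (he0 : 0 < e) (heq : e < q) (hq1 : q < 1)
    (hKL : 0 ≤ KL q e) (hτ0 : 0 < τ) (s0 : S) (y : Fin n → S) (χ : S → ℝ)
    (hχ0 : ∀ a, 0 ≤ χ a) (hχ1 : ∀ a, χ a ≤ 1) :
    letI := A.fin
    EE e (fun T : Fin n → ZMod 2 × S => if 1 / 12 ≤
      |W2 A q e ε s0 (heavy A.prob A.Q τ) y χ T - ∑ ω, A.prob ω * EE q (fun T =>
        (if (cnt (lq A (heavy A.prob A.Q τ) ω) T : ℝ) ≤ q * (lq A (heavy A.prob A.Q τ) ω).card + ε * t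
          then (1 : ℝ) else 0) * χ (A.out ω (rw3 s0 (heavy A.prob A.Q τ) y T)))| then (1 : ℝ) else 0) ≤
      144 * (Real.exp (t * (KL q e + ε * (Real.log (q / e) - Real.log ((1 - q) / (1 - e))))) * (t * τ)) := by
  let _ := A.fin
  have hq0 : 0 < q := he0.trans heq
  have he1 : e < 1 := heq.trans hq1
  set H := heavy A.prob A.Q τ with hH
  set M := Real.exp (t * (KL q e + ε * (Real.log (q / e) - Real.log ((1 - q) / (1 - e))))) with hM
  have h0 : ∀ (j : Fin n) (a : ZMod 2 × S), 0 ≤ law e a := fun _ a => law_nonneg he0 he1 a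
  let F : A.Ω → (Fin n → ZMod 2 × S) → ℝ := fun ω T =>
    Ltr q e (q * (lq A H ω).card + ε * t) (lq A H ω) T * χ (A.out ω (rw3 s0 H y T))
  have hlq : ∀ ω, (lq A H ω).card ≤ t := fun ω =>
    (Finset.card_le_card Finset.sdiff_subset).trans (A.card_le ω)
  have hEF : ∀ ω, Ex2 (fun _ : Fin n => law (S := S) e) (F ω) = EE q (fun T =>
        (if (cnt (lq A H ω) T : ℝ) ≤ q * (lq A H ω).card + ε * t
          then (1 : ℝ) else 0) * χ (A.out ω (rw3 s0 H y T))) := by
    intro ω
    exact EE_Ltr he0 he1 _ (lq A H ω) (fun T => χ (A.out ω (rw3 s0 H y T)))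
      (fun T T' h => by rw [out_congr A s0 H y ω T T' h])
  have hvar := var_bound (π := fun _ : Fin n => law (S := S) e) h0 (fun _ => law_sum e) (M := M) (τ := τ)
    (t := t) (Real.exp_pos _).le hτ0.le A.prob A.nonneg A.sum_one.le (lq A H) (fun ω _ => hlq ω)
    (fun ω _ j hj => by
      have hjH : j ∉ H := (Finset.mem_sdiff.1 hj).2
      have h1 : ∑ ω', (if j ∈ A.Q ω' then A.prob ω' else 0) ≤ τ := by
        rw [hH, heavy, Finset.mem_filter] at hjH
        push Not at hjH
        exact hjH (Finset.mem_univ _)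
      refine le_trans (Finset.sum_le_sum fun ω' _ => ?_) h1
      by_cases hj' : j ∈ lq A H ω'
      · rw [if_pos hj', if_pos (Finset.mem_sdiff.1 hj').1]
      · rw [if_neg hj']
        split_ifs
        · exact A.nonneg ω'
        · exact le_rfl) F
    (fun ω T => mul_nonneg (Ltr_nonneg hq0 hq1 he0 he1 _ _ _) (hχ0 _))
    (fun ω T => by
      have h1 := Ltr_le (t := t) (ε := ε) he0 heq hq1 hKL (lq A H ω) (hlq ω) T
      have h2 := Ltr_nonneg hq0 hq1 he0 he1 (q * (lq A H ω).card + ε * t) (lq A H ω) T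
      calc F ω T ≤ Ltr q e (q * (lq A H ω).card + ε * t) (lq A H ω) T * 1 :=
            mul_le_mul_of_nonneg_left (hχ1 _) h2
        _ ≤ M := by rw [mul_one]; exact h1)
    (fun ω => by
      rw [hEF ω]
      have h3 : EE q (fun T : Fin n → ZMod 2 × S =>
        (if (cnt (lq A H ω) T : ℝ) ≤ q * (lq A H ω).card + ε * t
          then (1 : ℝ) else 0) * χ (A.out ω (rw3 s0 H y T))) ≤ EE q (fun _ : Fin n → ZMod 2 × S => (1 : ℝ)) := by
        apply Ex2_mono (fun _ a => law_nonneg hq0 hq1 a)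
        intro T
        have := hχ1 (A.out ω (rw3 s0 H y T))
        have := hχ0 (A.out ω (rw3 s0 H y T))
        split_ifs <;> linarith
      refine h3.trans (le_of_eq ?_)
      exact Ex2_one (fun _ => law_sum q))
    (fun ω T T' h => by
      simp only [F]
      rw [Ltr_congr q e _ _ T T' h, out_congr A s0 H y ω T T' h])
  have hch := cheb2 h0 (fun T : Fin n → ZMod 2 × S => ∑ ω, A.prob ω * F ω T) _ _ (1 / 12) (by norm_num) hvar
  simp only [hEF] at hch
  refine le_trans (le_of_eq ?_) (hch.trans (le_of_eq ?_))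
  · rfl
  · ring

/-- The error probability. -/
theorem dec2_error [Nonempty S] (A : NonAdAlg n t S) {q e ε τ γ δ : ℝ} (he0 : 0 < e) (heq : e < q) (hq1 : q < 1)
    (hKL : 0 ≤ KL q e) (hτ0 : 0 < τ) (hε : 0 < ε) (hγ : 0 < γ) (hn : 0 < n) (ht : 0 < t)
    (hδ : (1 - q) * (Fintype.card S - 1) / Fintype.card S + γ ≤ δ) (hH : (t : ℝ) ≤ γ / 2 * n * τ)
    (h24 : 4 / (γ ^ 2 * n) ≤ 1 / 24) (h24' : 1 / (ε ^ 2 * t) ≤ 1 / 24) (s0 : S) (y : Fin n → S) (s : S)
    (hA : ∀ r : Fin n → S, (((Finset.univ.filter (fun j => r j ≠ y j)).card : ℕ) : ℝ) < δ * n → 2 / 3 ≤ A.pr r s) :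
    letI := A.fin
    EE e (fun T : Fin n → ZMod 2 × S =>
      if dec2 A q e ε s0 (heavy A.prob A.Q τ) T y = s then (0 : ℝ) else 1) ≤
      288 * (Real.exp (t * (KL q e + ε * (Real.log (q / e) - Real.log ((1 - q) / (1 - e))))) * (t * τ)) := by
  let _ := A.fin
  have hq0 : 0 < q := he0.trans heq
  have he1 : e < 1 := heq.trans hq1
  have hi0 : ∀ a, 0 ≤ isym s a := fun a => by unfold isym; split_ifs <;> norm_num
  have hi1 : ∀ a, isym s a ≤ 1 := fun a => by unfold isym; split_ifs <;> norm_num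
  have ho0 : ∀ a, 0 ≤ osym s a := fun a => by unfold osym; split_ifs <;> norm_num
  have ho1 : ∀ a, osym s a ≤ 1 := fun a => by unfold osym; split_ifs <;> norm_num
  have hio : ∀ a, osym s a = 1 - isym s a := fun a => by unfold osym isym; split_ifs <;> norm_num
  have hC1 := est_close A (ε := ε) he0 heq hq1 hKL hτ0 s0 y (isym s) hi0 hi1
  have hC2 := est_close A (ε := ε) he0 heq hq1 hKL hτ0 s0 y (osym s) ho0 ho1
  set H := heavy A.prob A.Q τ with hHdef
  have hq0' : ∀ (j : Fin n) (a : ZMod 2 × S), 0 ≤ law q a := fun _ a => law_nonneg hq0 hq1 a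
  -- the expectations
  have hHc : (H.card : ℝ) ≤ γ / 2 * n := by
    have h1 := heavy_card A.prob A.nonneg A.sum_one A.Q A.card_le τ hτ0
    rw [← hHdef] at h1
    have h2 : (H.card : ℝ) * τ ≤ γ / 2 * n * τ := h1.trans hH
    exact le_of_mul_le_mul_right h2 hτ0
  have hclose := close_prob (S := S) hq0 hq1 hγ hn hδ s0 H hHc y
  set pr1 : ℝ := EE q (fun T : Fin n → ZMod 2 × S => ∑ ω, A.prob ω * isym s (A.out ω (rw3 s0 H y T))) with hpr1
  have hpr1ge : 2 / 3 - 2 / 3 * (1 / 24) ≤ pr1 := by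
    have h1 : EE q (fun T : Fin n → ZMod 2 × S => (2 / 3 : ℝ) - 2 / 3 *
        (if (((Finset.univ.filter (fun j => rw3 s0 H y T j ≠ y j)).card : ℕ) : ℝ) < δ * n
          then (0 : ℝ) else 1)) ≤ pr1 := by
      apply Ex2_mono hq0'
      intro T
      have h2 : ∑ ω, A.prob ω * isym s (A.out ω (rw3 s0 H y T)) = A.pr (rw3 s0 H y T) s := by
        unfold NonAdAlg.pr isym
        refine Finset.sum_congr rfl fun ω _ => ?_
        split_ifs <;> ring
      by_cases h : (((Finset.univ.filter (fun j => rw3 s0 H y T j ≠ y j)).card : ℕ) : ℝ) < δ * n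
      · rw [if_pos h, h2]
        have := hA _ h
        linarith
      · rw [if_neg h]
        have : 0 ≤ ∑ ω, A.prob ω * isym s (A.out ω (rw3 s0 H y T)) :=
          Finset.sum_nonneg fun ω _ => mul_nonneg (A.nonneg ω) (hi0 _)
        linarith
    have h3 : EE q (fun T : Fin n → ZMod 2 × S => (2 / 3 : ℝ) - 2 / 3 *
        (if (((Finset.univ.filter (fun j => rw3 s0 H y T j ≠ y j)).card : ℕ) : ℝ) < δ * n
          then (0 : ℝ) else 1)) = 2 / 3 - 2 / 3 * EE q (fun T : Fin n → ZMod 2 × S =>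
        (if (((Finset.univ.filter (fun j => rw3 s0 H y T j ≠ y j)).card : ℕ) : ℝ) < δ * n
          then (0 : ℝ) else 1)) := by
      unfold EE
      rw [Ex2_sub, Ex2_const (fun _ => law_sum q), Ex2_const_mul]
    rw [h3] at h1
    have h4 := hclose.trans h24
    linarith
  have hlq : ∀ ω, (lq A H ω).card ≤ t := fun ω =>
    (Finset.card_le_card Finset.sdiff_subset).trans (A.card_le ω)
  have hpr1sum : pr1 = ∑ ω, A.prob ω * EE q (fun T : Fin n → ZMod 2 × S => isym s (A.out ω (rw3 s0 H y T))) := by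
    rw [hpr1]
    unfold EE
    rw [Ex2_sum]
    exact Finset.sum_congr rfl fun ω _ => Ex2_const_mul _ _ _
  have hm1 : 7 / 12 ≤ ∑ ω, A.prob ω * EE q (fun T : Fin n → ZMod 2 × S =>
        (if (cnt (lq A H ω) T : ℝ) ≤ q * (lq A H ω).card + ε * t
          then (1 : ℝ) else 0) * isym s (A.out ω (rw3 s0 H y T))) := by
    have h1 : ∀ ω, EE q (fun T : Fin n → ZMod 2 × S => isym s (A.out ω (rw3 s0 H y T))) - 1 / 24 ≤
        EE q (fun T : Fin n → ZMod 2 × S =>
        (if (cnt (lq A H ω) T : ℝ) ≤ q * (lq A H ω).card + ε * t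
          then (1 : ℝ) else 0) * isym s (A.out ω (rw3 s0 H y T))) := by
      intro ω
      have h2 := trunc_prob (S := S) hq0 hq1 hε ht (lq A H ω) (hlq ω)
      have h3 : EE q (fun T : Fin n → ZMod 2 × S => isym s (A.out ω (rw3 s0 H y T))) -
          EE q (fun T : Fin n → ZMod 2 × S =>
          if (cnt (lq A H ω) T : ℝ) ≤ q * (lq A H ω).card + ε * t then (0 : ℝ) else 1) ≤
          EE q (fun T : Fin n → ZMod 2 × S =>
        (if (cnt (lq A H ω) T : ℝ) ≤ q * (lq A H ω).card + ε * t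
          then (1 : ℝ) else 0) * isym s (A.out ω (rw3 s0 H y T))) := by
        unfold EE
        rw [← Ex2_sub]
        apply Ex2_mono hq0'
        intro T
        have := hi1 (A.out ω (rw3 s0 H y T))
        have := hi0 (A.out ω (rw3 s0 H y T))
        split_ifs <;> linarith
      linarith
    have h4 : ∑ ω, A.prob ω * (EE q (fun T : Fin n → ZMod 2 × S => isym s (A.out ω (rw3 s0 H y T))) - 1 / 24) ≤
        ∑ ω, A.prob ω * EE q (fun T : Fin n → ZMod 2 × S =>
        (if (cnt (lq A H ω) T : ℝ) ≤ q * (lq A H ω).card + ε * t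
          then (1 : ℝ) else 0) * isym s (A.out ω (rw3 s0 H y T))) :=
      Finset.sum_le_sum fun ω _ => mul_le_mul_of_nonneg_left (h1 ω) (A.nonneg ω)
    have h5 : ∑ ω, A.prob ω * (EE q (fun T : Fin n → ZMod 2 × S => isym s (A.out ω (rw3 s0 H y T))) - 1 / 24) =
        pr1 - 1 / 24 := by
      rw [hpr1sum]
      simp only [mul_sub, Finset.sum_sub_distrib]
      rw [← Finset.sum_mul, A.sum_one, one_mul]
    rw [h5] at h4
    linarith
  have hm2 : ∑ ω, A.prob ω * EE q (fun T : Fin n → ZMod 2 × S =>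
        (if (cnt (lq A H ω) T : ℝ) ≤ q * (lq A H ω).card + ε * t
          then (1 : ℝ) else 0) * osym s (A.out ω (rw3 s0 H y T))) ≤ 5 / 12 := by
    have h1 : ∀ ω, EE q (fun T : Fin n → ZMod 2 × S =>
        (if (cnt (lq A H ω) T : ℝ) ≤ q * (lq A H ω).card + ε * t
          then (1 : ℝ) else 0) * osym s (A.out ω (rw3 s0 H y T))) ≤
        1 - EE q (fun T : Fin n → ZMod 2 × S => isym s (A.out ω (rw3 s0 H y T))) := by
      intro ω
      have h2 : (1 : ℝ) - EE q (fun T : Fin n → ZMod 2 × S => isym s (A.out ω (rw3 s0 H y T))) =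
          EE q (fun T : Fin n → ZMod 2 × S => 1 - isym s (A.out ω (rw3 s0 H y T))) := by
        unfold EE
        rw [Ex2_sub, Ex2_one (fun _ => law_sum q)]
      rw [h2]
      apply Ex2_mono hq0'
      intro T
      rw [hio]
      have := hi1 (A.out ω (rw3 s0 H y T))
      split_ifs <;> linarith
    have h4 : ∑ ω, A.prob ω * EE q (fun T : Fin n → ZMod 2 × S =>
        (if (cnt (lq A H ω) T : ℝ) ≤ q * (lq A H ω).card + ε * t
          then (1 : ℝ) else 0) * osym s (A.out ω (rw3 s0 H y T))) ≤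
        ∑ ω, A.prob ω * (1 - EE q (fun T : Fin n → ZMod 2 × S => isym s (A.out ω (rw3 s0 H y T)))) :=
      Finset.sum_le_sum fun ω _ => mul_le_mul_of_nonneg_left (h1 ω) (A.nonneg ω)
    have h5 : ∑ ω, A.prob ω * (1 - EE q (fun T : Fin n → ZMod 2 × S => isym s (A.out ω (rw3 s0 H y T)))) =
        1 - pr1 := by
      rw [hpr1sum]
      simp only [mul_sub, Finset.sum_sub_distrib, mul_one]
      rw [A.sum_one]
    rw [h5] at h4
    linarith
  set m1 := ∑ ω, A.prob ω * EE q (fun T : Fin n → ZMod 2 × S =>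
        (if (cnt (lq A H ω) T : ℝ) ≤ q * (lq A H ω).card + ε * t
          then (1 : ℝ) else 0) * isym s (A.out ω (rw3 s0 H y T))) with hm1def
  set m2 := ∑ ω, A.prob ω * EE q (fun T : Fin n → ZMod 2 × S =>
        (if (cnt (lq A H ω) T : ℝ) ≤ q * (lq A H ω).card + ε * t
          then (1 : ℝ) else 0) * osym s (A.out ω (rw3 s0 H y T))) with hm2def
  have hle : EE e (fun T : Fin n → ZMod 2 × S =>
      if dec2 A q e ε s0 H T y = s then (0 : ℝ) else 1) ≤
      EE e (fun T : Fin n → ZMod 2 × S =>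
        (if 1 / 12 ≤ |W2 A q e ε s0 H y (isym s) T - m1| then (1 : ℝ) else 0) +
        (if 1 / 12 ≤ |W2 A q e ε s0 H y (osym s) T - m2| then (1 : ℝ) else 0)) := by
    apply Ex2_mono (fun _ a => law_nonneg he0 he1 a)
    intro T
    by_cases c1 : 1 / 12 ≤ |W2 A q e ε s0 H y (isym s) T - m1|
    · rw [if_pos c1]
      split_ifs <;> norm_num
    · by_cases c2 : 1 / 12 ≤ |W2 A q e ε s0 H y (osym s) T - m2|
      · rw [if_pos c2]
        split_ifs <;> norm_num
      · push Not at c1 c2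
        rw [abs_lt] at c1 c2
        have hd : dec2 A q e ε s0 H T y = s := by
          apply dec2_eq A hq0 hq1 he0 he1
          · linarith
          · linarith
        rw [if_pos hd]
        split_ifs <;> norm_num
  have hadd : EE e (fun T : Fin n → ZMod 2 × S =>
        (if 1 / 12 ≤ |W2 A q e ε s0 H y (isym s) T - m1| then (1 : ℝ) else 0) +
        (if 1 / 12 ≤ |W2 A q e ε s0 H y (osym s) T - m2| then (1 : ℝ) else 0)) =
      EE e (fun T : Fin n → ZMod 2 × S =>
        (if 1 / 12 ≤ |W2 A q e ε s0 H y (isym s) T - m1| then (1 : ℝ) else 0)) +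
      EE e (fun T : Fin n → ZMod 2 × S =>
        (if 1 / 12 ≤ |W2 A q e ε s0 H y (osym s) T - m2| then (1 : ℝ) else 0)) := Ex2_add _ _ _
  rw [hadd] at hle
  linarith

end

end Pool.Agent.LDCX
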