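import Pool.Agent.LDCX.Noise3

/-!
# The query complexity of arbitrary codes with non-adaptive decoders
-/

open scoped BigOperators
open Finset

namespace Pool.Agent.LDCX

noncomputable section

open Classical

variable {n k t : ℕ} {S : Type} [Fintype S]

theorem EE_card_onT [Nonempty S] (e : ℝ) :
    EE e (fun T : Fin n → ZMod 2 × S => ((onT T).card : ℝ)) = e * n := by
  have h : (fun T : Fin n → ZMod 2 × S => ((onT T).card : ℝ)) =
      fun T => ∑ j : Fin n, (fun (j : Fin n) (T : Fin n → ZMod 2 × S) => if (T j).1 = 1 then (1 : ℝ) else 0) j T := by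
    funext T
    simp only [onT]
    rw [Finset.sum_boole]
  unfold EE
  rw [h, Ex2_sum]
  have h2 : ∀ j : Fin n, Ex2 (fun _ => law e) (fun T : Fin n → ZMod 2 × S => if (T j).1 = 1 then (1 : ℝ) else 0) = e := by
    intro j
    have := EE_coord (n := n) e j (fun a : ZMod 2 × S => if a.1 = 1 then (1 : ℝ) else 0)
    unfold EE at this
    rw [this, Fintype.sum_prod_type, sum_zmod2]
    have hs : (Fintype.card S : ℝ) ≠ 0 := by
      have : 0 < Fintype.card S := Fintype.card_pos
      positivity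
    simp [law, bw_zero, bw_one]
    field_simp
  rw [Finset.sum_congr rfl fun j _ => h2 j, Finset.sum_const, Finset.card_univ, Fintype.card_fin,
    nsmul_eq_mul, mul_comm]

/-- The finite inequality. -/
theorem general_bound2 (E : (Fin k → S) → (Fin n → S)) {q e ε τ γ δ l : ℝ} (hE : IsNonAdLDC E δ t) (s0 : S)
    (he0 : 0 < e) (heq : e < q) (hq1 : q < 1)
    (hKL : 0 ≤ KL q e) (hτ0 : 0 < τ) (hε : 0 < ε) (hγ : 0 < γ) (hn : 0 < n) (ht : 0 < t)
    (hδ : (1 - q) * (Fintype.card S - 1) / Fintype.card S + γ ≤ δ) (hH : (t : ℝ) ≤ γ / 2 * n * τ)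
    (h24 : 4 / (γ ^ 2 * n) ≤ 1 / 24) (h24' : 1 / (ε ^ 2 * t) ≤ 1 / 24) (hl : 0 < l) (hl1 : l ≤ 1) :
    (k : ℝ) * (Real.log (Fintype.card S) -
      288 * (Real.exp (t * (KL q e + ε * (Real.log (q / e) - Real.log ((1 - q) / (1 - e))))) * (t * τ)) *
      Real.log (1 / l) - (Fintype.card S - 1) * l) ≤ e * n * Real.log (Fintype.card S) := by
  have he1 : e < 1 := heq.trans hq1
  have hne : Nonempty S := ⟨s0⟩
  choose A hA using hE
  let H : Fin k → Finset (Fin n) := fun i =>
    letI := (A i).fin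
    heavy (A i).prob (A i).Q τ
  let g : (Fin n → ZMod 2 × S) → (Fin n → S) → (Fin k → S) := fun T y i => dec2 (A i) q e ε s0 (H i) T y
  set ζ := 288 * (Real.exp (t * (KL q e + ε * (Real.log (q / e) - Real.log ((1 - q) / (1 - e))))) * (t * τ)) with hζ
  have hb0 : ∀ (j : Fin n) (a : ZMod 2 × S), 0 ≤ law e a := fun _ a => law_nonneg he0 he1 a
  have hN : (0 : ℝ) < (Fintype.card S : ℝ) ^ k := by
    have : (0 : ℝ) < Fintype.card S := by exact_mod_cast Fintype.card_pos
    positivity
  have h1 : ∀ T : Fin n → ZMod 2 × S, (k : ℝ) * Real.log (Fintype.card S) + Real.log l *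
      ((∑ x : Fin k → S, ∑ i, (if g T (E x) i = x i then (0 : ℝ) else 1)) / (Fintype.card S : ℝ) ^ k) ≤
      ((onT T).card : ℝ) * Real.log (Fintype.card S) + k * ((Fintype.card S - 1) * l) := by
    intro T
    apply one_set E (g T) (onT T) s0 _ hl
    intro y y' hy
    funext i
    exact dec2_congr (A i) q e ε s0 (H i) T y y' hy
  have h2 := Ex2_mono hb0 h1
  -- the error probability
  have herr : EE e (fun T : Fin n → ZMod 2 × S =>
      (∑ x : Fin k → S, ∑ i, (if g T (E x) i = x i then (0 : ℝ) else 1)) / (Fintype.card S : ℝ) ^ k) ≤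
      k * ζ := by
    have e1 : (fun T : Fin n → ZMod 2 × S =>
      (∑ x : Fin k → S, ∑ i, (if g T (E x) i = x i then (0 : ℝ) else 1)) / (Fintype.card S : ℝ) ^ k) =
      fun T => ((Fintype.card S : ℝ) ^ k)⁻¹ *
      ∑ x : Fin k → S, ∑ i, (if g T (E x) i = x i then (0 : ℝ) else 1) := by
      funext T
      rw [div_eq_inv_mul]
    unfold EE
    rw [e1, Ex2_const_mul, Ex2_sum]
    have e2 : ∀ x : Fin k → S, Ex2 (fun _ => law e) (fun T : Fin n → ZMod 2 × S =>
        ∑ i, (if g T (E x) i = x i then (0 : ℝ) else 1)) ≤ k * ζ := by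
      intro x
      rw [Ex2_sum]
      refine (Finset.sum_le_sum fun i _ => dec2_error (A i) he0 heq hq1 hKL hτ0 hε hγ hn ht hδ hH h24 h24'
        s0 (E x) (x i) (fun r hr => hA i x r hr)).trans ?_
      rw [Finset.sum_const, Finset.card_univ, Fintype.card_fin, nsmul_eq_mul]
    have e3 := Finset.sum_le_sum (s := Finset.univ) fun (x : Fin k → S) _ => e2 x
    rw [Finset.sum_const, Finset.card_univ, Fintype.card_fun, Fintype.card_fin, nsmul_eq_mul] at e3
    push_cast at e3
    calc _ ≤ ((Fintype.card S : ℝ) ^ k)⁻¹ * ((Fintype.card S : ℝ) ^ k * (k * ζ)) :=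
          mul_le_mul_of_nonneg_left e3 (inv_pos.2 hN).le
      _ = _ := by rw [← mul_assoc, inv_mul_cancel₀ hN.ne', one_mul]
  have e4 : Ex2 (fun _ => law e) (fun T : Fin n → ZMod 2 × S => (k : ℝ) * Real.log (Fintype.card S) + Real.log l *
      ((∑ x : Fin k → S, ∑ i, (if g T (E x) i = x i then (0 : ℝ) else 1)) / (Fintype.card S : ℝ) ^ k)) =
      (k : ℝ) * Real.log (Fintype.card S) + Real.log l * EE e (fun T : Fin n → ZMod 2 × S =>
      ((∑ x : Fin k → S, ∑ i, (if g T (E x) i = x i then (0 : ℝ) else 1)) / (Fintype.card S : ℝ) ^ k)) := by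
    unfold EE
    rw [Ex2_add, Ex2_const (fun _ => law_sum e), Ex2_const_mul]
  have e5 : Ex2 (fun _ => law e) (fun T : Fin n → ZMod 2 × S =>
      ((onT T).card : ℝ) * Real.log (Fintype.card S) + k * ((Fintype.card S - 1) * l)) =
      e * n * Real.log (Fintype.card S) + k * ((Fintype.card S - 1) * l) := by
    rw [Ex2_add]
    have e6 : (fun T : Fin n → ZMod 2 × S => ((onT T).card : ℝ) * Real.log (Fintype.card S)) =
      fun T => Real.log (Fintype.card S) * ((onT T).card : ℝ) := by funext T; ring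
    have e7 := EE_card_onT (n := n) (S := S) e
    unfold EE at e7
    rw [e6, Ex2_const (fun _ => law_sum e), Ex2_const_mul, e7]
    ring
  rw [e4, e5] at h2
  have hlog : Real.log l ≤ 0 := Real.log_nonpos hl.le hl1
  have h8 := mul_le_mul_of_nonpos_left herr hlog
  have h9 : Real.log (1 / l) = - Real.log l := by rw [one_div, Real.log_inv]
  rw [h9]
  have h10 : (k : ℝ) * (Real.log (Fintype.card S) - ζ * -Real.log l -
      (Fintype.card S - 1) * l) = (k : ℝ) * Real.log (Fintype.card S) +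
      Real.log l * (k * ζ) - k * ((Fintype.card S - 1) * l) := by ring
  rw [h10]
  linarith

/-- An algorithm with `t` queries is an algorithm with `t'` queries. -/
theorem IsNonAdLDC.mono {E : (Fin k → S) → (Fin n → S)} {δ : ℝ} {t t' : ℕ} (h : IsNonAdLDC E δ t)
    (htt : t ≤ t') : IsNonAdLDC E δ t' := by
  intro i
  obtain ⟨A, hA⟩ := h i
  exact ⟨⟨A.Ω, A.fin, A.prob, A.nonneg, A.sum_one, A.Q, fun ω => (A.card_le ω).trans htt, A.out, A.loc⟩, hA⟩

theorem KL_nonneg {q e : ℝ} (he0 : 0 < e) (he1 : e < 1) (hq0 : 0 < q) (hq1 : q < 1) : 0 ≤ KL q e := by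
  unfold KL
  have h1e : 0 < 1 - e := by linarith
  have h1q : 0 < 1 - q := by linarith
  have h1 : 1 - (q / e)⁻¹ ≤ Real.log (q / e) := Real.one_sub_inv_le_log_of_pos (by positivity)
  have h2 : 1 - ((1 - q) / (1 - e))⁻¹ ≤ Real.log ((1 - q) / (1 - e)) :=
    Real.one_sub_inv_le_log_of_pos (by positivity)
  have h3 : q * (1 - (q / e)⁻¹) ≤ q * Real.log (q / e) := mul_le_mul_of_nonneg_left h1 hq0.le
  have h4 : (1 - q) * (1 - ((1 - q) / (1 - e))⁻¹) ≤ (1 - q) * Real.log ((1 - q) / (1 - e)) :=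
    mul_le_mul_of_nonneg_left h2 h1q.le
  have e1 : q * (1 - (q / e)⁻¹) = q - e := by
    rw [inv_div]; field_simp
  have e2 : (1 - q) * (1 - ((1 - q) / (1 - e))⁻¹) = e - q := by
    rw [inv_div]; field_simp; ring
  linarith

theorem KL_anti {q e e' : ℝ} (he0 : 0 < e') (hee : e' < e) (heq : e < q) (hq1 : q < 1) : KL q e < KL q e' := by
  have he : 0 < e := he0.trans hee
  have hq0 : 0 < q := he.trans heq
  have h1e : 0 < 1 - e := by linarith
  have h1e' : 0 < 1 - e' := by linarith
  have h1q : 0 < 1 - q := by linarith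
  have h1 : 1 - (e / e')⁻¹ ≤ Real.log (e / e') := Real.one_sub_inv_le_log_of_pos (by positivity)
  have h2 : 1 - ((1 - e) / (1 - e'))⁻¹ ≤ Real.log ((1 - e) / (1 - e')) :=
    Real.one_sub_inv_le_log_of_pos (by positivity)
  have h3 : q * (1 - (e / e')⁻¹) ≤ q * Real.log (e / e') := mul_le_mul_of_nonneg_left h1 hq0.le
  have h4 : (1 - q) * (1 - ((1 - e) / (1 - e'))⁻¹) ≤ (1 - q) * Real.log ((1 - e) / (1 - e')) :=
    mul_le_mul_of_nonneg_left h2 h1q.le
  have e1 : q * (1 - (e / e')⁻¹) + (1 - q) * (1 - ((1 - e) / (1 - e'))⁻¹) = (e - e') * (q - e) / (e * (1 - e)) := by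
    rw [inv_div, inv_div]; field_simp; ring
  have e2 : 0 < (e - e') * (q - e) / (e * (1 - e)) := by
    have : 0 < e - e' := by linarith
    have : 0 < q - e := by linarith
    positivity
  have e3 : KL q e' - KL q e = q * Real.log (e / e') + (1 - q) * Real.log ((1 - e) / (1 - e')) := by
    unfold KL
    rw [Real.log_div hq0.ne' he0.ne', Real.log_div hq0.ne' he.ne', Real.log_div h1q.ne' h1e'.ne',
      Real.log_div h1q.ne' h1e.ne', Real.log_div he.ne' he0.ne', Real.log_div h1e.ne' h1e'.ne']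
    ring
  linarith

theorem KL_cont {q e : ℝ} (he0 : 0 < e) (he1 : e < 1) (hq0 : 0 < q) (hq1 : q < 1) :
    ContinuousAt (fun x => KL x e) q := by
  unfold KL
  have h1 : q / e ≠ 0 := (div_pos hq0 he0).ne'
  have h2 : (1 - q) / (1 - e) ≠ 0 := (div_pos (by linarith) (by linarith)).ne'
  apply ContinuousAt.add
  · apply ContinuousAt.mul continuousAt_id
    exact ContinuousAt.log (continuousAt_id.div_const e) h1
  · apply ContinuousAt.mul (continuousAt_const.sub continuousAt_id)
    exact ContinuousAt.log ((continuousAt_const.sub continuousAt_id).div_const _) h2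

end

end Pool.Agent.LDCX
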