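import Mathlib

/-!
# Product measures on finite products: factorization over disjoint sets of coordinates
-/

open scoped BigOperators
open Finset

namespace Pool.Agent.LDCX

noncomputable section

variable {ι α : Type} [Fintype ι] [DecidableEq ι] [Fintype α] [DecidableEq α]

/-- The weight of a point of the product. -/
def mu (π : α → ℝ) (S : ι → α) : ℝ := ∏ j, π (S j)

/-- The expectation. -/
def Ex (π : α → ℝ) (F : (ι → α) → ℝ) : ℝ := ∑ S, mu π S * F S

theorem mu_nonneg {π : α → ℝ} (h : ∀ a, 0 ≤ π a) (S : ι → α) : 0 ≤ mu π S :=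
  Finset.prod_nonneg fun j _ => h _

theorem mu_pos {π : α → ℝ} (h : ∀ a, 0 < π a) (S : ι → α) : 0 < mu π S :=
  Finset.prod_pos fun j _ => h _

/-- Expectation of a product of functions of the coordinates. -/
theorem Ex_prod (π : α → ℝ) (φ : ι → α → ℝ) :
    Ex π (fun S : ι → α => ∏ j, φ j (S j)) = ∏ j, ∑ a, π a * φ j a := by
  unfold Ex mu
  rw [Finset.prod_univ_sum]
  rw [Fintype.piFinset_univ]
  refine Finset.sum_congr rfl fun S _ => ?_
  rw [← Finset.prod_mul_distrib]

theorem Ex_one {π : α → ℝ} (h1 : ∑ a, π a = 1) : Ex π (fun _ : ι → α => (1 : ℝ)) = 1 := by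
  have := Ex_prod π (fun (_ : ι) (_ : α) => (1 : ℝ))
  simp only [Finset.prod_const_one, mul_one, h1] at this
  exact this

/-- Expectation of a function of one coordinate. -/
theorem Ex_coord {π : α → ℝ} (h1 : ∑ a, π a = 1) (j : ι) (ψ : α → ℝ) :
    Ex π (fun S : ι → α => ψ (S j)) = ∑ a, π a * ψ a := by
  have := Ex_prod π (fun (i : ι) (a : α) => if i = j then ψ a else 1)
  have h2 : (fun S : ι → α => ∏ i, (if i = j then ψ (S i) else 1)) = fun S => ψ (S j) := by
    funext S
    rw [Finset.prod_ite_eq' Finset.univ j (fun i => ψ (S i))]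
    simp
  rw [h2] at this
  rw [this]
  rw [Finset.prod_eq_single j]
  · simp
  · intro i _ hij
    simp [hij, h1]
  · simp

theorem Ex_add (π : α → ℝ) (F G : (ι → α) → ℝ) :
    Ex π (fun S => F S + G S) = Ex π F + Ex π G := by
  unfold Ex
  rw [← Finset.sum_add_distrib]
  exact Finset.sum_congr rfl fun S _ => by ring

theorem Ex_sub (π : α → ℝ) (F G : (ι → α) → ℝ) :
    Ex π (fun S => F S - G S) = Ex π F - Ex π G := by
  unfold Ex
  rw [← Finset.sum_sub_distrib]
  exact Finset.sum_congr rfl fun S _ => by ring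

theorem Ex_sum {κ : Type} (π : α → ℝ) (s : Finset κ) (F : κ → (ι → α) → ℝ) :
    Ex π (fun S => ∑ a ∈ s, F a S) = ∑ a ∈ s, Ex π (F a) := by
  unfold Ex
  rw [Finset.sum_comm]
  exact Finset.sum_congr rfl fun S _ => by rw [Finset.mul_sum]

theorem Ex_mono {π : α → ℝ} (h : ∀ a, 0 ≤ π a) {F G : (ι → α) → ℝ} (hFG : ∀ S, F S ≤ G S) :
    Ex π F ≤ Ex π G :=
  Finset.sum_le_sum fun S _ => mul_le_mul_of_nonneg_left (hFG S) (mu_nonneg h S)

/-- The exchange of the coordinates in `C` of a pair. -/
def swp (C : Finset ι) (P : (ι → α) × (ι → α)) : (ι → α) × (ι → α) :=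
  (fun j => if j ∈ C then P.2 j else P.1 j, fun j => if j ∈ C then P.1 j else P.2 j)

theorem swp_swp (C : Finset ι) (P : (ι → α) × (ι → α)) : swp C (swp C P) = P := by
  unfold swp
  ext j
  · by_cases h : j ∈ C <;> simp [h]
  · by_cases h : j ∈ C <;> simp [h]

/-- The factorization of an expectation. -/
theorem Ex_mul {π : α → ℝ} (h1 : ∑ a, π a = 1) (C : Finset ι) (F f : (ι → α) → ℝ)
    (hF : ∀ S S' : ι → α, (∀ j, j ∉ C → S j = S' j) → F S = F S')
    (hf : ∀ S S' : ι → α, (∀ j ∈ C, S j = S' j) → f S = f S') :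
    Ex π (fun S => F S * f S) = Ex π F * Ex π f := by
  have e1 : Ex π F * Ex π f = ∑ P : (ι → α) × (ι → α), mu π P.1 * mu π P.2 * (F P.1 * f P.2) := by
    unfold Ex
    rw [Finset.sum_mul_sum, ← Finset.univ_product_univ, Finset.sum_product]
    refine Finset.sum_congr rfl fun S _ => Finset.sum_congr rfl fun S' _ => by ring
  have e2 : Ex π (fun S => F S * f S) * Ex π (fun _ : ι → α => (1 : ℝ)) =
      ∑ P : (ι → α) × (ι → α), mu π P.1 * mu π P.2 * (F P.1 * f P.1) := by
    unfold Ex
    rw [Finset.sum_mul_sum, ← Finset.univ_product_univ, Finset.sum_product]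
    refine Finset.sum_congr rfl fun S _ => Finset.sum_congr rfl fun S' _ => by ring
  rw [Ex_one h1, mul_one] at e2
  rw [e1, e2]
  let e : (ι → α) × (ι → α) ≃ (ι → α) × (ι → α) :=
    ⟨swp C, swp C, swp_swp C, swp_swp C⟩
  refine Fintype.sum_equiv e _ _ fun P => ?_
  obtain ⟨S, S'⟩ := P
  change _ = mu π (swp C (S, S')).1 * mu π (swp C (S, S')).2 *
    (F (swp C (S, S')).1 * f (swp C (S, S')).2)
  have m1 : mu π (swp C (S, S')).1 * mu π (swp C (S, S')).2 = mu π S * mu π S' := by
    unfold mu swp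
    rw [← Finset.prod_mul_distrib, ← Finset.prod_mul_distrib]
    refine Finset.prod_congr rfl fun j _ => ?_
    by_cases h : j ∈ C <;> simp [h, mul_comm]
  rw [m1]
  have m2 : F (swp C (S, S')).1 = F S := by
    apply hF
    intro j hj
    simp [swp, hj]
  have m3 : f (swp C (S, S')).2 = f S := by
    apply hf
    intro j hj
    simp [swp, hj]
  rw [m2, m3]

/-- Independence over a family of disjoint sets. -/
theorem Ex_prod_disjoint {κ : Type} [DecidableEq κ] {π : α → ℝ} (h1 : ∑ a, π a = 1) (J : Finset κ)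
    (C : κ → Finset ι) (hC : ∀ a ∈ J, ∀ b ∈ J, a ≠ b → Disjoint (C a) (C b))
    (f : κ → (ι → α) → ℝ) (hf : ∀ a ∈ J, ∀ S S' : ι → α, (∀ j ∈ C a, S j = S' j) → f a S = f a S') :
    Ex π (fun S => ∏ a ∈ J, f a S) = ∏ a ∈ J, Ex π (f a) := by
  induction J using Finset.induction_on with
  | empty => simpa using Ex_one h1
  | insert b J hb ih =>
    have hh := ih (fun a ha c hc hac => hC a (Finset.mem_insert_of_mem ha) c
      (Finset.mem_insert_of_mem hc) hac) (fun a ha => hf a (Finset.mem_insert_of_mem ha))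
    rw [Finset.prod_insert hb, ← hh]
    have e : (fun S => ∏ a ∈ insert b J, f a S) = fun S => (∏ a ∈ J, f a S) * f b S := by
      funext S
      rw [Finset.prod_insert hb, mul_comm]
    rw [e, Ex_mul h1 (C b), mul_comm]
    · intro S S' h
      refine Finset.prod_congr rfl fun a ha => hf a (Finset.mem_insert_of_mem ha) S S' fun j hj => ?_
      apply h
      intro hjb
      have hab : a ≠ b := fun h => hb (h ▸ ha)
      exact Finset.disjoint_left.1 (hC a (Finset.mem_insert_of_mem ha) b
        (Finset.mem_insert_self _ _) hab) hj hjb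
    · exact hf b (Finset.mem_insert_self _ _)

end

end Pool.Agent.LDCX
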