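import Mathlib

/-!
# Product measures with different factors
-/

open scoped BigOperators
open Finset

namespace Pool.Agent.LDCX

noncomputable section

variable {ι α : Type} [Fintype ι] [DecidableEq ι] [Fintype α] [DecidableEq α]

/-- The weight of a point of the product. -/
def mu2 (π : ι → α → ℝ) (S : ι → α) : ℝ := ∏ j, π j (S j)

/-- The expectation. -/
def Ex2 (π : ι → α → ℝ) (F : (ι → α) → ℝ) : ℝ := ∑ S, mu2 π S * F S

theorem mu2_nonneg {π : ι → α → ℝ} (h : ∀ j a, 0 ≤ π j a) (S : ι → α) : 0 ≤ mu2 π S :=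
  Finset.prod_nonneg fun _ _ => h _ _

theorem Ex2_prod (π : ι → α → ℝ) (φ : ι → α → ℝ) :
    Ex2 π (fun S : ι → α => ∏ j, φ j (S j)) = ∏ j, ∑ a, π j a * φ j a := by
  unfold Ex2 mu2
  rw [Finset.prod_univ_sum]
  rw [Fintype.piFinset_univ]
  refine Finset.sum_congr rfl fun S _ => ?_
  rw [← Finset.prod_mul_distrib]

theorem Ex2_one {π : ι → α → ℝ} (h1 : ∀ j, ∑ a, π j a = 1) : Ex2 π (fun _ : ι → α => (1 : ℝ)) = 1 := by
  have := Ex2_prod π (fun (_ : ι) (_ : α) => (1 : ℝ))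
  simp only [Finset.prod_const_one, mul_one, h1] at this
  exact this

theorem Ex2_add (π : ι → α → ℝ) (F G : (ι → α) → ℝ) :
    Ex2 π (fun S => F S + G S) = Ex2 π F + Ex2 π G := by
  unfold Ex2
  rw [← Finset.sum_add_distrib]
  exact Finset.sum_congr rfl fun S _ => by ring

theorem Ex2_sub (π : ι → α → ℝ) (F G : (ι → α) → ℝ) :
    Ex2 π (fun S => F S - G S) = Ex2 π F - Ex2 π G := by
  unfold Ex2
  rw [← Finset.sum_sub_distrib]
  exact Finset.sum_congr rfl fun S _ => by ring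

theorem Ex2_sum {κ : Type} (π : ι → α → ℝ) (s : Finset κ) (F : κ → (ι → α) → ℝ) :
    Ex2 π (fun S => ∑ a ∈ s, F a S) = ∑ a ∈ s, Ex2 π (F a) := by
  unfold Ex2
  rw [Finset.sum_comm]
  exact Finset.sum_congr rfl fun S _ => by rw [Finset.mul_sum]

theorem Ex2_const_mul (π : ι → α → ℝ) (c : ℝ) (F : (ι → α) → ℝ) :
    Ex2 π (fun S => c * F S) = c * Ex2 π F := by
  unfold Ex2
  rw [Finset.mul_sum]
  exact Finset.sum_congr rfl fun S _ => by ring

theorem Ex2_const {π : ι → α → ℝ} (h1 : ∀ j, ∑ a, π j a = 1) (c : ℝ) :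
    Ex2 π (fun _ : ι → α => c) = c := by
  have h := Ex2_one h1
  unfold Ex2 at h ⊢
  simp only [mul_one] at h
  rw [← Finset.sum_mul, h, one_mul]

theorem Ex2_mono {π : ι → α → ℝ} (h : ∀ j a, 0 ≤ π j a) {F G : (ι → α) → ℝ} (hFG : ∀ S, F S ≤ G S) :
    Ex2 π F ≤ Ex2 π G :=
  Finset.sum_le_sum fun S _ => mul_le_mul_of_nonneg_left (hFG S) (mu2_nonneg h S)

/-- Expectation of a function of one coordinate. -/
theorem Ex2_coord {π : ι → α → ℝ} (h1 : ∀ j, ∑ a, π j a = 1) (j : ι) (ψ : α → ℝ) :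
    Ex2 π (fun S : ι → α => ψ (S j)) = ∑ a, π j a * ψ a := by
  have := Ex2_prod π (fun (i : ι) (a : α) => if i = j then ψ a else 1)
  have h2 : (fun S : ι → α => ∏ i, (if i = j then ψ (S i) else 1)) = fun S => ψ (S j) := by
    funext S
    rw [Finset.prod_ite_eq' Finset.univ j (fun i => ψ (S i))]
    simp
  rw [h2] at this
  rw [this]
  rw [Finset.prod_eq_single j]
  · simp
  · intro i _ hij
    simp [hij, h1]
  · simp

/-- The exchange of the coordinates outside `C` of a pair. -/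
def swp2 (C : Finset ι) (P : (ι → α) × (ι → α)) : (ι → α) × (ι → α) :=
  (fun j => if j ∈ C then P.1 j else P.2 j, fun j => if j ∈ C then P.2 j else P.1 j)

theorem swp2_swp2 (C : Finset ι) (P : (ι → α) × (ι → α)) : swp2 C (swp2 C P) = P := by
  unfold swp2
  ext j
  · by_cases h : j ∈ C <;> simp [h]
  · by_cases h : j ∈ C <;> simp [h]

/-- The general exchange. -/
theorem Ex2_exchange {π π' : ι → α → ℝ} (C : Finset ι) (F f : (ι → α) → ℝ)
    (hπ : ∀ j ∈ C, π j = π' j)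
    (hF : ∀ S S' : ι → α, (∀ j ∈ C, S j = S' j) → F S = F S')
    (hf : ∀ S S' : ι → α, (∀ j, j ∉ C → S j = S' j) → f S = f S') :
    Ex2 π F * Ex2 π' f = Ex2 π' (fun S => F S * f S) * Ex2 π (fun _ : ι → α => (1 : ℝ)) := by
  have e1 : Ex2 π F * Ex2 π' f = ∑ P : (ι → α) × (ι → α), mu2 π P.1 * mu2 π' P.2 * (F P.1 * f P.2) := by
    unfold Ex2
    rw [Finset.sum_mul_sum, ← Finset.univ_product_univ, Finset.sum_product]
    refine Finset.sum_congr rfl fun S _ => Finset.sum_congr rfl fun S' _ => by ring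
  have e2 : Ex2 π' (fun S => F S * f S) * Ex2 π (fun _ : ι → α => (1 : ℝ)) =
      ∑ P : (ι → α) × (ι → α), mu2 π' P.1 * mu2 π P.2 * (F P.1 * f P.1) := by
    unfold Ex2
    rw [Finset.sum_mul_sum, ← Finset.univ_product_univ, Finset.sum_product]
    refine Finset.sum_congr rfl fun S _ => Finset.sum_congr rfl fun S' _ => by ring
  rw [e1, e2]
  let e : (ι → α) × (ι → α) ≃ (ι → α) × (ι → α) :=
    ⟨swp2 C, swp2 C, swp2_swp2 C, swp2_swp2 C⟩
  refine Fintype.sum_equiv e _ _ fun P => ?_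
  obtain ⟨S, S'⟩ := P
  change _ = mu2 π' (swp2 C (S, S')).1 * mu2 π (swp2 C (S, S')).2 *
    (F (swp2 C (S, S')).1 * f (swp2 C (S, S')).1)
  have m1 : mu2 π' (swp2 C (S, S')).1 * mu2 π (swp2 C (S, S')).2 = mu2 π S * mu2 π' S' := by
    unfold mu2 swp2
    rw [← Finset.prod_mul_distrib, ← Finset.prod_mul_distrib]
    refine Finset.prod_congr rfl fun j _ => ?_
    by_cases h : j ∈ C
    · simp [h, hπ j h]
    · simp [h, mul_comm]
  rw [m1]
  have m2 : F (swp2 C (S, S')).1 = F S := by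
    apply hF
    intro j hj
    simp [swp2, hj]
  have m3 : f (swp2 C (S, S')).1 = f S' := by
    apply hf
    intro j hj
    simp [swp2, hj]
  rw [m2, m3]

/-- The factorization of an expectation. -/
theorem Ex2_mul {π : ι → α → ℝ} (h1 : ∀ j, ∑ a, π j a = 1) (C : Finset ι) (F f : (ι → α) → ℝ)
    (hF : ∀ S S' : ι → α, (∀ j ∈ C, S j = S' j) → F S = F S')
    (hf : ∀ S S' : ι → α, (∀ j, j ∉ C → S j = S' j) → f S = f S') :
    Ex2 π (fun S => F S * f S) = Ex2 π F * Ex2 π f := by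
  rw [Ex2_exchange C F f (fun _ _ => rfl) hF hf, Ex2_one h1, mul_one]

/-- The expectation of a function of the coordinates in `C` depends only on the factors in `C`. -/
theorem Ex2_change {π π' : ι → α → ℝ} (h1 : ∀ j, ∑ a, π j a = 1) (h1' : ∀ j, ∑ a, π' j a = 1)
    (C : Finset ι) (F : (ι → α) → ℝ) (hπ : ∀ j ∈ C, π j = π' j)
    (hF : ∀ S S' : ι → α, (∀ j ∈ C, S j = S' j) → F S = F S') : Ex2 π F = Ex2 π' F := by
  have h := Ex2_exchange C F (fun _ => (1 : ℝ)) hπ hF (fun _ _ _ => rfl)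
  rw [Ex2_one h1, Ex2_one h1', mul_one, mul_one] at h
  simpa using h

/-- The variance of a weighted sum of local functions. -/
theorem var_bound {Ω : Type} [Fintype Ω] {π : ι → α → ℝ} (h0 : ∀ j a, 0 ≤ π j a)
    (h1 : ∀ j, ∑ a, π j a = 1) {M τ : ℝ} {t : ℕ} (hM : 0 ≤ M) (hτ0 : 0 ≤ τ) (w : Ω → ℝ)
    (hw : ∀ ω, 0 ≤ w ω) (hw1 : ∑ ω, w ω ≤ 1) (P : Ω → Finset ι)
    (hP : ∀ ω, w ω ≠ 0 → (P ω).card ≤ t)
    (hτ : ∀ ω, w ω ≠ 0 → ∀ j ∈ P ω, ∑ ω', (if j ∈ P ω' then w ω' else 0) ≤ τ)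
    (F : Ω → (ι → α) → ℝ) (hF0 : ∀ ω S, 0 ≤ F ω S) (hFM : ∀ ω S, F ω S ≤ M)
    (hF1 : ∀ ω, Ex2 π (F ω) ≤ 1)
    (hFl : ∀ ω (S S' : ι → α), (∀ j ∈ P ω, S j = S' j) → F ω S = F ω S') :
    Ex2 π (fun S => (∑ ω, w ω * F ω S - ∑ ω, w ω * Ex2 π (F ω)) ^ 2) ≤ M * (t * τ) := by
  set m : ℝ := ∑ ω, w ω * Ex2 π (F ω) with hm
  have hEx0 : ∀ ω, 0 ≤ Ex2 π (F ω) := fun ω =>
    Finset.sum_nonneg fun S _ => mul_nonneg (mu2_nonneg h0 S) (hF0 ω S)
  have e0 : Ex2 π (fun S => ∑ ω, w ω * F ω S) = m := by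
    rw [Ex2_sum]
    exact Finset.sum_congr rfl fun ω _ => Ex2_const_mul _ _ _
  have e1 : Ex2 π (fun S => (∑ ω, w ω * F ω S - m) ^ 2) =
      ∑ ω, ∑ ω', w ω * w ω' * (Ex2 π (fun S => F ω S * F ω' S) - Ex2 π (F ω) * Ex2 π (F ω')) := by
    have e2 : (fun S : ι → α => (∑ ω, w ω * F ω S - m) ^ 2) =
        fun S => ((∑ ω, ∑ ω', (w ω * w ω') * (F ω S * F ω' S)) - (2 * m) * (∑ ω, w ω * F ω S)) + m ^ 2 := by
      funext S
      have : ∑ ω, ∑ ω', (w ω * w ω') * (F ω S * F ω' S) = (∑ ω, w ω * F ω S) * (∑ ω, w ω * F ω S) := by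
        rw [Finset.sum_mul_sum]
        exact Finset.sum_congr rfl fun ω _ => Finset.sum_congr rfl fun ω' _ => by ring
      rw [this]
      ring
    rw [e2, Ex2_add, Ex2_sub, Ex2_const_mul, e0, Ex2_const h1, Ex2_sum]
    have e3 : ∀ ω, Ex2 π (fun S => ∑ ω', (w ω * w ω') * (F ω S * F ω' S)) =
        ∑ ω', (w ω * w ω') * Ex2 π (fun S => F ω S * F ω' S) := by
      intro ω
      rw [Ex2_sum]
      exact Finset.sum_congr rfl fun ω' _ => Ex2_const_mul _ _ _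
    rw [Finset.sum_congr rfl fun ω _ => e3 ω]
    simp only [mul_sub, Finset.sum_sub_distrib]
    have e4 : ∑ ω, ∑ ω', w ω * w ω' * (Ex2 π (F ω) * Ex2 π (F ω')) = m * m := by
      rw [hm, Finset.sum_mul_sum]
      exact Finset.sum_congr rfl fun ω _ => Finset.sum_congr rfl fun ω' _ => by ring
    rw [e4]
    ring
  rw [e1]
  have h2 : ∀ ω ω', w ω * w ω' * (Ex2 π (fun S => F ω S * F ω' S) - Ex2 π (F ω) * Ex2 π (F ω')) ≤
      M * (w ω * ∑ j ∈ P ω, (if j ∈ P ω' then w ω' else 0)) := by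
    intro ω ω'
    have e3 : ∑ j ∈ P ω, (if j ∈ P ω' then w ω' else 0) = ((P ω ∩ P ω').card : ℝ) * w ω' := by
      rw [Finset.sum_ite_mem, Finset.sum_const, nsmul_eq_mul]
    rw [e3]
    have h3 : Ex2 π (fun S => F ω S * F ω' S) - Ex2 π (F ω) * Ex2 π (F ω') ≤
        M * ((P ω ∩ P ω').card : ℝ) := by
      rcases Nat.eq_zero_or_pos (P ω ∩ P ω').card with h0' | h0'
      · have hd : Disjoint (P ω) (P ω') := by
          rw [Finset.disjoint_iff_inter_eq_empty]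
          exact Finset.card_eq_zero.1 h0'
        rw [Ex2_mul h1 (P ω) (F ω) (F ω') (hFl ω) (fun S S' h => hFl ω' S S' fun j hj =>
          h j (fun hj' => Finset.disjoint_left.1 hd hj' hj)), h0']
        simp
      · have h4 : (1 : ℝ) ≤ ((P ω ∩ P ω').card : ℝ) := by exact_mod_cast h0'
        have h5 : Ex2 π (fun S => F ω S * F ω' S) ≤ M * Ex2 π (F ω) := by
          rw [← Ex2_const_mul]
          apply Ex2_mono h0
          intro S
          have := mul_le_mul_of_nonneg_left (hFM ω' S) (hF0 ω S)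
          linarith
        have h6 : 0 ≤ Ex2 π (F ω) * Ex2 π (F ω') := mul_nonneg (hEx0 _) (hEx0 _)
        have h7 : M * Ex2 π (F ω) ≤ M * 1 := mul_le_mul_of_nonneg_left (hF1 ω) hM
        have h8 : M * 1 ≤ M * ((P ω ∩ P ω').card : ℝ) := mul_le_mul_of_nonneg_left h4 hM
        linarith
    have h8 : 0 ≤ w ω * w ω' := mul_nonneg (hw _) (hw _)
    calc w ω * w ω' * (Ex2 π (fun S => F ω S * F ω' S) - Ex2 π (F ω) * Ex2 π (F ω')) ≤
        w ω * w ω' * (M * ((P ω ∩ P ω').card : ℝ)) := mul_le_mul_of_nonneg_left h3 h8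
      _ = _ := by ring
  have htτ : 0 ≤ (t : ℝ) * τ := mul_nonneg (Nat.cast_nonneg _) hτ0
  calc ∑ ω, ∑ ω', w ω * w ω' * (Ex2 π (fun S => F ω S * F ω' S) - Ex2 π (F ω) * Ex2 π (F ω'))
      ≤ ∑ ω, ∑ ω', M * (w ω * ∑ j ∈ P ω, (if j ∈ P ω' then w ω' else 0)) :=
        Finset.sum_le_sum fun ω _ => Finset.sum_le_sum fun ω' _ => h2 ω ω'
    _ = M * ∑ ω, w ω * ∑ j ∈ P ω, ∑ ω', (if j ∈ P ω' then w ω' else 0) := by
        rw [Finset.mul_sum]
        refine Finset.sum_congr rfl fun ω _ => ?_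
        rw [← Finset.mul_sum, ← Finset.mul_sum, Finset.sum_comm]
    _ ≤ M * ∑ ω, w ω * (t * τ) := by
        apply mul_le_mul_of_nonneg_left _ hM
        refine Finset.sum_le_sum fun ω _ => ?_
        by_cases hwω : w ω = 0
        · rw [hwω, zero_mul, zero_mul]
        apply mul_le_mul_of_nonneg_left ?_ (hw ω)
        calc ∑ j ∈ P ω, ∑ ω', (if j ∈ P ω' then w ω' else 0) ≤ ∑ _j ∈ P ω, τ :=
              Finset.sum_le_sum fun j hj => hτ ω hwω j hj
          _ = ((P ω).card : ℝ) * τ := by rw [Finset.sum_const, nsmul_eq_mul]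
          _ ≤ t * τ := mul_le_mul_of_nonneg_right (by exact_mod_cast hP ω hwω) hτ0
    _ ≤ M * (t * τ) := by
        apply mul_le_mul_of_nonneg_left _ hM
        rw [← Finset.sum_mul]
        calc (∑ ω, w ω) * (t * τ) ≤ 1 * (t * τ) := mul_le_mul_of_nonneg_right hw1 htτ
          _ = _ := one_mul _

/-- Chebyshev's inequality. -/
theorem cheb2 {π : ι → α → ℝ} (h0 : ∀ j a, 0 ≤ π j a) (Z : (ι → α) → ℝ) (μ V c : ℝ) (hc : 0 < c)
    (hV : Ex2 π (fun S => (Z S - μ) ^ 2) ≤ V) :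
    Ex2 π (fun S => if c ≤ |Z S - μ| then (1 : ℝ) else 0) ≤ V / c ^ 2 := by
  rw [le_div_iff₀ (by positivity), mul_comm, ← Ex2_const_mul]
  refine le_trans ?_ hV
  apply Ex2_mono h0
  intro S
  split_ifs with h
  · have h1 : c ^ 2 ≤ |Z S - μ| ^ 2 := pow_le_pow_left₀ hc.le h 2
    rw [sq_abs] at h1
    linarith
  · rw [mul_zero]
    positivity

end

end Pool.Agent.LDCX
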