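import Mathlib

/-!
# The asymptotic inequality, second form
-/

open scoped BigOperators
open Finset

namespace Pool.Agent.LDCX

noncomputable section

theorem asymX (b' b c X : ℝ) (hb' : 0 < b') (hbb : b' < b) (hb1 : b < 1) (hc : 0 < c) :
    ∃ n0 : ℕ, ∀ n : ℕ, n0 ≤ n → ∀ t : ℕ, (t : ℝ) < 2 * Real.log n / Real.log (1 / b') →
      X ≤ (⌊c * n / (2 * ((t / 2 + 1 : ℕ) : ℝ))⌋₊ : ℝ) * (b ^ (t / 2 + 1) / (2 * ((t / 2 + 1 : ℕ) : ℝ))) := by
  have hb : 0 < b := hb'.trans hbb
  set L := Real.log (1 / b') with hL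
  have hLpos : 0 < L := by
    rw [hL, one_div, Real.log_inv]
    have := Real.log_neg hb' (hbb.trans hb1)
    linarith
  set κ := Real.log (1 / b) / L with hκ
  have hlb : 0 < Real.log (1 / b) := by
    rw [one_div, Real.log_inv]
    have := Real.log_neg hb hb1
    linarith
  have hκ1 : κ < 1 := by
    rw [hκ, div_lt_one hLpos, hL]
    apply Real.log_lt_log (by positivity)
    exact one_div_lt_one_div_of_lt hb' hbb
  have hκ0 : 0 < κ := div_pos hlb hLpos
  set s := 1 - κ with hs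
  have hs0 : 0 < s := by linarith
  have hs1 : s ≤ 1 := by linarith
  set A := (1 / L + 1) * (4 / s) with hA
  have hA0 : 0 < A := by positivity
  -- the conditions on n
  have hev1 : ∀ᶠ x : ℝ in Filter.atTop, 4 * A ^ 2 ≤ c * x ^ ((1 : ℝ) / 2) :=
    (Filter.Tendsto.const_mul_atTop hc (tendsto_rpow_atTop (by norm_num))).eventually_ge_atTop _
  have hev2 : ∀ᶠ x : ℝ in Filter.atTop, X ≤ (c * b / (8 * A ^ 2)) * x ^ (s / 2) :=
    (Filter.Tendsto.const_mul_atTop (by positivity) (tendsto_rpow_atTop (by positivity))).eventually_ge_atTop _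
  have hev := ((hev1.and hev2).and (Filter.eventually_ge_atTop (3 : ℝ)))
  have hevn := tendsto_natCast_atTop_atTop.eventually hev
  obtain ⟨n0, hn0⟩ := Filter.eventually_atTop.1 hevn
  refine ⟨n0, fun n hn t ht => ?_⟩
  obtain ⟨⟨h1, h2⟩, h3⟩ := hn0 n hn
  set x : ℝ := (n : ℝ) with hx
  have hx0 : 0 < x := by linarith
  set r : ℝ := ((t / 2 + 1 : ℕ) : ℝ) with hr
  have hr1 : 1 ≤ r := by
    rw [hr]; push_cast
    have : (0 : ℝ) ≤ ((t / 2 : ℕ) : ℝ) := Nat.cast_nonneg _
    linarith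
  have hlog1 : 1 ≤ Real.log x := by
    have : Real.exp 1 ≤ x := by
      have := Real.exp_one_lt_d9
      linarith
    exact (Real.le_log_iff_exp_le hx0).2 this
  have hrt : r ≤ Real.log x / L + 1 := by
    have h4 : ((t / 2 : ℕ) : ℝ) ≤ (t : ℝ) / 2 := Nat.cast_div_le
    have h5 : r = ((t / 2 : ℕ) : ℝ) + 1 := by rw [hr]; push_cast; ring
    have h6 : 2 * Real.log x / L = 2 * (Real.log x / L) := by ring
    rw [h6] at ht
    rw [h5]
    linarith
  have hrA : r ≤ A * x ^ (s / 4) := by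
    have h4 : Real.log x ≤ x ^ (s / 4) / (s / 4) := Real.log_le_rpow_div hx0.le (by positivity)
    have h5 : r ≤ (1 / L + 1) * Real.log x := by
      have : Real.log x / L + 1 ≤ (1 / L + 1) * Real.log x := by
        have : (1 / L + 1) * Real.log x = Real.log x / L + Real.log x := by ring
        rw [this]
        linarith
      linarith
    refine h5.trans ?_
    have h6 : A * x ^ (s / 4) = (1 / L + 1) * (x ^ (s / 4) / (s / 4)) := by
      rw [hA]
      field_simp
    rw [h6]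
    exact mul_le_mul_of_nonneg_left h4 (by positivity)
  have hr2 : r ^ 2 ≤ A ^ 2 * x ^ (s / 2) := by
    have h4 : r ^ 2 ≤ (A * x ^ (s / 4)) ^ 2 := pow_le_pow_left₀ (by linarith) hrA 2
    have h5 : (A * x ^ (s / 4)) ^ 2 = A ^ 2 * x ^ (s / 2) := by
      rw [mul_pow, ← Real.rpow_natCast (x ^ (s / 4)) 2, ← Real.rpow_mul hx0.le]
      congr 2
      push_cast
      ring
    rw [h5] at h4
    exact h4
  have hx1 : 1 ≤ x := by linarith
  have hcx : 4 * r ≤ c * x := by
    have h4 : r ≤ r ^ 2 := by nlinarith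
    have h5 : x ^ (s / 2) ≤ x ^ ((1 : ℝ) / 2) := Real.rpow_le_rpow_of_exponent_le hx1 (by linarith)
    have h6 : r ≤ A ^ 2 * x ^ ((1 : ℝ) / 2) :=
      (h4.trans hr2).trans (mul_le_mul_of_nonneg_left h5 (by positivity))
    have h7 : c * x = (c * x ^ ((1 : ℝ) / 2)) * x ^ ((1 : ℝ) / 2) := by
      rw [mul_assoc, ← Real.rpow_add hx0]
      norm_num
    have h8 : 0 < x ^ ((1 : ℝ) / 2) := Real.rpow_pos_of_pos hx0 _
    rw [h7]
    calc 4 * r ≤ 4 * (A ^ 2 * x ^ ((1 : ℝ) / 2)) := by linarith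
      _ = (4 * A ^ 2) * x ^ ((1 : ℝ) / 2) := by ring
      _ ≤ _ := mul_le_mul_of_nonneg_right h1 h8.le
  -- the exponent
  set m := ⌊c * x / (2 * r)⌋₊ with hm
  have hmge : c * x / (4 * r) ≤ (m : ℝ) := by
    have h4 : c * x / (2 * r) < (m : ℝ) + 1 := by
      rw [hm]; exact Nat.lt_floor_add_one _
    have h5 : c * x / (2 * r) = 2 * (c * x / (4 * r)) := by
      field_simp
      ring
    have h6 : 1 ≤ c * x / (4 * r) := by
      rw [le_div_iff₀ (by positivity)]
      linarith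
    rw [h5] at h4
    linarith
  have hbr : b * x ^ (-κ) ≤ b ^ (t / 2 + 1) := by
    have h4 : b ^ (t / 2 + 1) = Real.exp (-(r * Real.log (1 / b))) := by
      rw [← Real.rpow_natCast, Real.rpow_def_of_pos hb, one_div, Real.log_inv, ← hr]
      congr 1
      ring
    have h5 : b * x ^ (-κ) = Real.exp (-((Real.log x / L + 1) * Real.log (1 / b))) := by
      have h6 : b = Real.exp (Real.log b) := (Real.exp_log hb).symm
      rw [Real.rpow_def_of_pos hx0]
      nth_rewrite 1 [h6]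
      rw [← Real.exp_add]
      congr 1
      rw [hκ, one_div, Real.log_inv]
      field_simp
      ring
    rw [h4, h5]
    apply Real.exp_le_exp.2
    have := mul_le_mul_of_nonneg_right hrt hlb.le
    linarith
  set y := b ^ (t / 2 + 1) / (2 * r) with hy
  refine h2.trans ?_
  have h4 : (c * x / (4 * r)) * (b * x ^ (-κ) / (2 * r)) ≤ m * y := by
    apply mul_le_mul hmge _ (by positivity) (Nat.cast_nonneg _)
    rw [hy]
    exact div_le_div_of_nonneg_right hbr (by positivity)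
  refine le_trans ?_ h4
  have h5 : (c * x / (4 * r)) * (b * x ^ (-κ) / (2 * r)) = (c * b / 8) * (x ^ s / r ^ 2) := by
    have : x ^ s = x * x ^ (-κ) := by
      rw [hs, sub_eq_add_neg, Real.rpow_add hx0, Real.rpow_one]
    rw [this]
    field_simp
    ring
  rw [h5]
  have h6 : x ^ (s / 2) / A ^ 2 ≤ x ^ s / r ^ 2 := by
    rw [div_le_div_iff₀ (by positivity) (by positivity)]
    have h7 : x ^ s = x ^ (s / 2) * x ^ (s / 2) := by
      rw [← Real.rpow_add hx0]; congr 1; ring
    rw [h7]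
    have h8 : 0 < x ^ (s / 2) := Real.rpow_pos_of_pos hx0 _
    calc x ^ (s / 2) * r ^ 2 ≤ x ^ (s / 2) * (A ^ 2 * x ^ (s / 2)) :=
          mul_le_mul_of_nonneg_left hr2 h8.le
      _ = _ := by ring
  calc (c * b / (8 * A ^ 2)) * x ^ (s / 2) = (c * b / 8) * (x ^ (s / 2) / A ^ 2) := by
        field_simp
    _ ≤ _ := mul_le_mul_of_nonneg_left h6 (by positivity)

end

end Pool.Agent.LDCX
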