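import Pool.Agent.LDCX.Ent

/-!
# Entropy and the lines of the space over a finite field
-/

open scoped BigOperators
open Finset

namespace Pool.Agent.LDCX

noncomputable section

variable {F : Type} [Field F] [Fintype F] [DecidableEq F]

theorem univ_ne : (Finset.univ : Finset F).Nonempty := ⟨0, Finset.mem_univ 0⟩

/-- The minimum of a function on `F`. -/
def mn (f : F → ℝ) : ℝ := (Finset.univ : Finset F).inf' univ_ne f

theorem mn_le (f : F → ℝ) (a : F) : mn f ≤ f a := Finset.inf'_le _ (Finset.mem_univ a)

theorem le_mn {f : F → ℝ} {x : ℝ} (h : ∀ a, x ≤ f a) : x ≤ mn f :=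
  (Finset.le_inf'_iff _ _).2 fun a _ => h a

theorem mn_exists (f : F → ℝ) : ∃ a, mn f = f a := by
  obtain ⟨a, _, ha⟩ := Finset.exists_mem_eq_inf' (univ_ne (F := F)) f
  exact ⟨a, ha⟩

theorem mn_nonneg {f : F → ℝ} (h : ∀ a, 0 ≤ f a) : 0 ≤ mn f := le_mn h

theorem mn_shift (f : F → ℝ) (a : F) : mn (fun c => f (a + c)) = mn f := by
  apply le_antisymm
  · apply le_mn
    intro b
    have := mn_le (fun c => f (a + c)) (b - a)
    simpa using this
  · apply le_mn
    intro b
    exact mn_le f (a + b)

/-- The inequality for one coordinate. -/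
theorem qpoint (W : F → ℝ) (hW : ∀ a, 0 ≤ W a) :
    Real.log (Fintype.card F) * ((Fintype.card F : ℝ) * mn W) ≤
      (∑ a, W a) * Real.log (∑ a, W a) - ∑ a, W a * Real.log (W a) := by
  set q : ℝ := (Fintype.card F : ℝ) with hq
  have hq0 : 0 < q := by rw [hq]; exact_mod_cast Fintype.card_pos
  have hq1 : 1 ≤ q := by rw [hq]; exact_mod_cast Nat.succ_le_of_lt (Fintype.card_pos (α := F))
  set s := ∑ a, W a with hs
  have hs0 : 0 ≤ s := Finset.sum_nonneg fun a _ => hW a
  have hm0 : 0 ≤ mn W := mn_nonneg hW
  have hqm : q * mn W ≤ s := by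
    have : ∑ _a : F, mn W ≤ ∑ a, W a := Finset.sum_le_sum fun a _ => mn_le W a
    rw [Finset.sum_const, Finset.card_univ, nsmul_eq_mul] at this
    exact this
  rcases eq_or_lt_of_le hs0 with h0 | h0
  · have hall : ∀ a, W a = 0 := by
      intro a
      have := (Finset.sum_eq_zero_iff_of_nonneg (fun a _ => hW a)).1 (hs.symm.trans h0.symm) a (Finset.mem_univ a)
      exact this
    have : mn W = 0 := by
      obtain ⟨a, ha⟩ := mn_exists W
      rw [ha, hall a]
    rw [this, ← h0]
    simp [hall]
  -- normalize
  set θ := q * mn W / s with hθ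
  have hθ0 : 0 ≤ θ := by positivity
  have hθ1 : θ ≤ 1 := by rw [hθ, div_le_one h0]; exact hqm
  have key : θ * Real.log q ≤ ∑ a, Real.negMulLog (W a / s) := by
    rcases eq_or_lt_of_le hθ1 with h1 | h1
    · -- all are equal
      have hall : ∀ a, W a / s = 1 / q := by
        have h2 : q * mn W = s := by
          rw [hθ, div_eq_one_iff_eq h0.ne'] at h1
          exact h1
        have h3 : ∑ a, (W a - mn W) = 0 := by
          rw [Finset.sum_sub_distrib, Finset.sum_const, Finset.card_univ, nsmul_eq_mul, ← hq, h2, ← hs, sub_self]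
        intro a
        have h4 := (Finset.sum_eq_zero_iff_of_nonneg (fun a _ => sub_nonneg.2 (mn_le W a))).1 h3 a
          (Finset.mem_univ a)
        have h5 : W a = mn W := by linarith
        rw [h5, ← h2]
        have hmn : mn W ≠ 0 := by
          intro h
          rw [h, mul_zero] at h2
          exact h0.ne h2
        field_simp
      simp only [hall]
      rw [Finset.sum_const, Finset.card_univ, nsmul_eq_mul, ← hq, h1]
      rw [Real.negMulLog, one_div, Real.log_inv]
      apply le_of_eq
      field_simp
    · have hθ' : 0 < 1 - θ := by linarith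
      have hz : ∀ a, θ * Real.negMulLog (1 / q) ≤ Real.negMulLog (W a / s) := by
        intro a
        set z := (W a / s - θ * (1 / q)) / (1 - θ) with hz
        have hz0 : 0 ≤ z := by
          apply div_nonneg _ hθ'.le
          have : θ * (1 / q) = mn W / s := by rw [hθ]; field_simp
          rw [this, ← sub_div]
          exact div_nonneg (sub_nonneg.2 (mn_le W a)) h0.le
        have hz1 : z ≤ 1 := by
          rw [hz, div_le_one hθ']
          have h6 : W a / s ≤ 1 - θ * ((q - 1) / q) := by
            have h7 : W a + (q - 1) * mn W ≤ s := by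
              have h8 : ∑ b ∈ Finset.univ.erase a, mn W ≤ ∑ b ∈ Finset.univ.erase a, W b :=
                Finset.sum_le_sum fun b _ => mn_le W b
              rw [Finset.sum_const, Finset.card_erase_of_mem (Finset.mem_univ a), Finset.card_univ,
                nsmul_eq_mul, Nat.cast_sub (Nat.succ_le_of_lt Fintype.card_pos)] at h8
              have h9 : W a + ∑ b ∈ Finset.univ.erase a, W b = s := by
                rw [hs]; exact Finset.add_sum_erase _ _ (Finset.mem_univ a)
              push_cast at h8
              rw [← hq] at h8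
              linarith
            have h10 : θ * ((q - 1) / q) = (q - 1) * mn W / s := by rw [hθ]; field_simp
            rw [h10, le_sub_iff_add_le, ← add_div, div_le_one h0]
            exact h7
          have h11 : θ * ((q - 1) / q) + θ * (1 / q) = θ := by field_simp; ring
          linarith
        have hconc := Real.concaveOn_negMulLog.2 (show (1 / q : ℝ) ∈ Set.Ici (0 : ℝ) from by
          rw [Set.mem_Ici]; positivity) (show z ∈ Set.Ici (0 : ℝ) from hz0) hθ0 hθ'.le (by ring)
        have e1 : θ • (1 / q) + (1 - θ) • z = W a / s := by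
          rw [smul_eq_mul, smul_eq_mul, hz]
          field_simp
          ring
        rw [e1, smul_eq_mul, smul_eq_mul] at hconc
        have h12 : 0 ≤ (1 - θ) * Real.negMulLog z := mul_nonneg hθ'.le (Real.negMulLog_nonneg hz0 hz1)
        linarith
      have h13 : ∑ _a : F, θ * Real.negMulLog (1 / q) ≤ ∑ a, Real.negMulLog (W a / s) :=
        Finset.sum_le_sum fun a _ => hz a
      rw [Finset.sum_const, Finset.card_univ, nsmul_eq_mul, ← hq, Real.negMulLog, one_div, Real.log_inv] at h13
      refine le_trans (le_of_eq ?_) h13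
      field_simp
  have e2 : s * ∑ a, Real.negMulLog (W a / s) = s * Real.log s - ∑ a, W a * Real.log (W a) := by
    have e3 : ∀ a, s * Real.negMulLog (W a / s) = W a * Real.log s - W a * Real.log (W a) := by
      intro a
      rcases eq_or_lt_of_le (hW a) with h | h
      · rw [← h]; simp
      · rw [Real.negMulLog, Real.log_div h.ne' h0.ne']
        field_simp
        ring
    rw [Finset.mul_sum, Finset.sum_congr rfl fun a _ => e3 a, Finset.sum_sub_distrib, ← Finset.sum_mul]
  rw [← e2]
  have e4 : Real.log q * (q * mn W) = s * (θ * Real.log q) := by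
    rw [hθ]; field_simp
  rw [e4]
  exact mul_le_mul_of_nonneg_left key h0.le

theorem sum_cons {k : ℕ} (f : (Fin (k + 1) → F) → ℝ) :
    ∑ v, f v = ∑ a : F, ∑ u : Fin k → F, f (Fin.cons a u) := by
  rw [← (Fin.consEquiv (fun _ : Fin (k + 1) => F)).sum_comp, Fintype.sum_prod_type]
  rfl

theorem cons_add_zero {k : ℕ} (a c : F) (u : Fin k → F) :
    (Fin.cons a u : Fin (k + 1) → F) + Pi.single 0 c = Fin.cons (a + c) u := by
  funext j
  refine Fin.cases ?_ (fun j => ?_) j
  · simp
  · simp

theorem cons_add_succ {k : ℕ} (a c : F) (u : Fin k → F) (i : Fin k) :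
    (Fin.cons a u : Fin (k + 1) → F) + Pi.single i.succ c = Fin.cons a (u + Pi.single i c) := by
  funext j
  refine Fin.cases ?_ (fun j => ?_) j
  · simp [Pi.single_apply]
  · simp [Pi.single_apply]

/-- The inequality for the lines. -/
theorem qcube : ∀ (k : ℕ) (w : (Fin k → F) → ℝ), (∀ v, 0 ≤ w v) →
    Real.log (Fintype.card F) * ∑ i : Fin k, ∑ v : Fin k → F, mn (fun c : F => w (v + Pi.single i c)) ≤ En w := by
  intro k
  induction k with
  | zero =>
    intro w hw
    simp [En]
  | succ k ih =>
    intro w hw
    have t0 : ∑ v : Fin (k + 1) → F, mn (fun c : F => w (v + Pi.single 0 c)) =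
        (Fintype.card F : ℝ) * ∑ u : Fin k → F, mn (fun c => w (Fin.cons c u)) := by
      rw [sum_cons]
      have : ∀ a : F, ∑ u : Fin k → F, mn (fun c => w ((Fin.cons a u : Fin (k + 1) → F) + Pi.single 0 c)) =
          ∑ u : Fin k → F, mn (fun c => w (Fin.cons c u)) := by
        intro a
        refine Finset.sum_congr rfl fun u _ => ?_
        simp only [cons_add_zero]
        exact mn_shift (fun c => w (Fin.cons c u)) a
      rw [Finset.sum_congr rfl fun a _ => this a, Finset.sum_const, Finset.card_univ, nsmul_eq_mul]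
    have t1 : ∀ i : Fin k, ∑ v : Fin (k + 1) → F, mn (fun c : F => w (v + Pi.single i.succ c)) =
        ∑ a : F, ∑ u : Fin k → F, mn (fun c : F => w (Fin.cons a (u + Pi.single i c))) := by
      intro i
      rw [sum_cons]
      refine Finset.sum_congr rfl fun a _ => Finset.sum_congr rfl fun u _ => ?_
      simp only [cons_add_succ]
    rw [Fin.sum_univ_succ, t0]
    simp only [t1]
    rw [Finset.sum_comm]
    let W : F → ℝ := fun a => ∑ u : Fin k → F, w (Fin.cons a u)
    have hW0 : ∀ a, 0 ≤ W a := fun a => Finset.sum_nonneg fun u _ => hw _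
    have hm : ∑ u : Fin k → F, mn (fun c => w (Fin.cons c u)) ≤ mn W := by
      apply le_mn
      intro a
      exact Finset.sum_le_sum fun u _ => mn_le (fun c => w (Fin.cons c u)) a
    have hq := qpoint W hW0
    have hE : En w = ∑ a : F, En (fun u : Fin k → F => w (Fin.cons a u)) +
        ((∑ a, W a) * Real.log (∑ a, W a) - ∑ a, W a * Real.log (W a)) := by
      unfold En
      rw [sum_cons, sum_cons (fun v => w v * Real.log (w v)), Finset.sum_sub_distrib]
      simp only [W]
      ring
    have hlq : 0 ≤ Real.log (Fintype.card F) := Real.log_natCast_nonneg _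
    have hq0 : (0 : ℝ) ≤ Fintype.card F := Nat.cast_nonneg _
    rw [hE, mul_add, add_comm]
    apply add_le_add
    · rw [Finset.mul_sum]
      refine Finset.sum_le_sum fun a _ => ?_
      exact ih (fun u => w (Fin.cons a u)) (fun u => hw _)
    · refine le_trans ?_ hq
      apply mul_le_mul_of_nonneg_left _ hlq
      exact mul_le_mul_of_nonneg_left hm hq0

end

end Pool.Agent.LDCX
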