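import Pool.Agent.LDCX.QTheta
import Pool.Agent.LDCX.QAsym
import Pool.Agent.LDCX.Code

/-!
# Linear codes over a finite field: the final theorem
-/

open scoped BigOperators
open Finset

namespace Pool.Agent.LDCX

noncomputable section

/-- The message part. -/
def gq {F : Type} [Field F] {n k : ℕ} (E : (Fin k → F) →ₗ[F] (Fin n → F)) (S : Fin n → F) : Fin k → F :=
  fun i => ∑ j, S j * E (Pi.single i 1) j

theorem gq_shift {F : Type} [Field F] {n k : ℕ} (E : (Fin k → F) →ₗ[F] (Fin n → F)) (c : Fin n → F) (i : Fin k)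
    (hc : ∀ x, ∑ j, c j * E x j = x i) (b : F) (S : Fin n → F) :
    gq E (S + b • c) = gq E S + Pi.single i b := by
  funext i'
  unfold gq
  have h1 := hc (Pi.single i' 1)
  have h2 : ∑ j, (S + b • c) j * E (Pi.single i' 1) j =
      ∑ j, S j * E (Pi.single i' 1) j + b * ∑ j, c j * E (Pi.single i' 1) j := by
    rw [Finset.mul_sum, ← Finset.sum_add_distrib]
    refine Finset.sum_congr rfl fun j _ => ?_
    simp only [Pi.add_apply, Pi.smul_apply, smul_eq_mul]
    ring
  rw [h2, h1, Pi.add_apply]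
  congr 1
  by_cases h : i = i'
  · subst h
    simp
  · rw [Pi.single_eq_of_ne h, Pi.single_eq_of_ne (Ne.symm h), mul_zero]

variable {F Y : Type} [Field F] [Fintype F] [DecidableEq F] [Fintype Y] [DecidableEq Y]
variable {L : Y → ℝ} {π : Y → F → ℝ}

theorem Hc_nonneg (h : IsLaw L π) : 0 ≤ Hc L π := by
  unfold Hc
  refine Finset.sum_nonneg fun a _ => mul_nonneg (lw_pos h a).le ?_
  have h1 : π a.1 a.2 ≤ 1 := by
    rw [← h.sum' a.1]
    exact Finset.single_le_sum (f := fun s => π a.1 s) (fun s _ => (h.pos' _ _).le) (Finset.mem_univ a.2)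
  have := Real.log_nonpos (h.pos' a.1 a.2).le h1
  linarith

theorem pos_final (h : IsLaw L π) {G : Y → ℝ} (hGpos : ∀ y, 0 < G y)
    (hG : ∀ y, ∑ s, Real.log (π y s) = (Fintype.card F : ℝ) * Real.log (G y))
    {B B1 ρ δ : ℝ} (hGB : (Fintype.card F : ℝ) * ∑ y, L y * G y = B1) (hB : 0 < B) (hBB : B < B1)
    (hB1 : B1 < 1) (hδ : 0 < δ) (hH : Hc L π < ρ * Real.log (Fintype.card F)) :
    ∃ n0 : ℕ, ∀ n : ℕ, n0 ≤ n → ∀ (k t : ℕ) (E : (Fin k → F) →ₗ[F] (Fin n → F)),
      ρ * n ≤ k → IsLDC (fun x => E x) δ t → Real.log n / Real.log (1 / B) ≤ t := by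
  obtain ⟨B2, hB2, hB2'⟩ := exists_between hBB
  have hB20 : 0 < B2 := hB.trans hB2
  have hB10 : 0 < B1 := hB20.trans hB2'
  have hB21 : B2 < 1 := hB2'.trans hB1
  set l := Real.log (B1 / B2) with hl
  have hl0 : 0 < l := Real.log_pos ((one_lt_div hB20).2 hB2')
  have hq1 : (1 : ℝ) ≤ Fintype.card F := by exact_mod_cast Fintype.card_pos
  have hlq : 0 ≤ Real.log (Fintype.card F) := Real.log_natCast_nonneg _
  have hvr : 0 ≤ vr L π G B1 := Finset.sum_nonneg fun a _ => mul_nonneg
    (div_nonneg (mul_nonneg (h.pos _).le (hGpos _).le) hB10.le) (sq_nonneg _)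
  set K := Real.sqrt (2 * (Fintype.card F : ℝ) * vr L π G B1 + 1) with hK
  have hK2 : K ^ 2 = 2 * (Fintype.card F : ℝ) * vr L π G B1 + 1 := Real.sq_sqrt (by positivity)
  have hK0 : 0 < K := Real.sqrt_pos.2 (by positivity)
  set c1 := 1 / 2 * Real.exp (-(K ^ 2 / (4 * l))) with hc1
  have hc10 : 0 < c1 := by positivity
  have hc11 : c1 ≤ 1 := by
    have : Real.exp (-(K ^ 2 / (4 * l))) ≤ 1 := Real.exp_le_one_iff.2 (by
      have : 0 ≤ K ^ 2 / (4 * l) := by positivity
      linarith)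
    rw [hc1]; linarith
  have hHc := Hc_nonneg h
  set R := ρ * Real.log (Fintype.card F) with hR
  have hR0 : 0 < R := hHc.trans_lt hH
  set η := (R - Hc L π) / (2 * R) with hη
  have hη0 : 0 < η := div_pos (by linarith) (by linarith)
  have hη1 : R * η = (R - Hc L π) / 2 := by
    rw [hη]; field_simp
  have hη2 : η < 1 := by
    rw [hη, div_lt_one (by positivity)]
    linarith
  obtain ⟨n0, hn0⟩ := asymX (B ^ 2) (B2 ^ 2) (δ / 2) (Real.log (1 / η) / c1) (by positivity)
    (by nlinarith) (by nlinarith) (by positivity)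
  refine ⟨max n0 1, fun n hn k t E hk hE => ?_⟩
  have hn1 : n0 ≤ n := (le_max_left _ _).trans hn
  have hnpos : (0 : ℝ) < n := by
    have : 1 ≤ n := (le_max_right _ _).trans hn
    exact_mod_cast this
  by_contra hcon
  push Not at hcon
  have hcon' : (t : ℝ) < 2 * Real.log n / Real.log (1 / B ^ 2) := by
    have : Real.log (1 / B ^ 2) = 2 * Real.log (1 / B) := by
      rw [one_div, one_div, Real.log_inv, Real.log_inv, Real.log_pow]
      push_cast
      ring
    rw [this, mul_div_mul_left _ _ (by norm_num : (2 : ℝ) ≠ 0)]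
    exact hcon
  have hy := hn0 n hn1 t hcon'
  set r : ℕ := t / 2 + 1 with hr
  have hrpos : 0 < r := by omega
  have htr : t ≤ 2 * r := by omega
  have hr0 : (0 : ℝ) < r := by exact_mod_cast hrpos
  have hr1 : (1 : ℝ) ≤ r := by exact_mod_cast hrpos
  set m := ⌊δ / 2 * n / (2 * (r : ℝ))⌋₊ with hm
  have hmle : (m : ℝ) * (2 * r) ≤ δ / 2 * n := by
    have : (m : ℝ) ≤ δ / 2 * n / (2 * r) := Nat.floor_le (by positivity)
    calc (m : ℝ) * (2 * r) ≤ δ / 2 * n / (2 * r) * (2 * r) :=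
          mul_le_mul_of_nonneg_right this (by positivity)
      _ = δ / 2 * n := by field_simp
  have hmt : (m : ℝ) * t < δ * n := by
    have h1 : (m : ℝ) * t ≤ (m : ℝ) * (2 * r) := by
      apply mul_le_mul_of_nonneg_left _ (Nat.cast_nonneg _)
      exact_mod_cast htr
    have h3 : 0 < δ / 2 * n := by positivity
    linarith
  -- the recovery sets
  have hrec : ∀ i : Fin k, ∃ (Q : Fin m → Finset (Fin n)) (c : Fin m → Fin n → F), (∀ a, (Q a).card ≤ t) ∧
      (∀ a b, a ≠ b → Disjoint (Q a) (Q b)) ∧ (∀ a j, j ∉ Q a → c a j = 0) ∧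
      ∀ a x, ∑ j, c a j * E x j = x i := fun i => exists_disjoint E hE i m hmt
  choose Q c hQt hQd hQc hcE using hrec
  set y : ℝ := (B2 ^ 2) ^ r / (2 * (r : ℝ)) with hydef
  have hy0 : 0 < y := by positivity
  have hy1 : y ≤ (B2 ^ 2) ^ r := by
    rw [hydef, div_le_iff₀ (by positivity)]
    have : 0 < (B2 ^ 2) ^ r := by positivity
    nlinarith
  have hyone : y ≤ 1 := hy1.trans (pow_le_one₀ (by positivity) (by nlinarith))
  have hθ : ∀ i a, c1 * y ≤ EL L π (psi L π (Q i a) (c i a)) := by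
    intro i a
    have h1 := theta_q h hGpos hG hGB hB10 hB1.le (Q i a) (c i a) (t := 2 * r) (by omega)
      ((hQt i a).trans htr) hK0 (by rw [hK2]; linarith)
    refine le_trans ?_ h1
    have h2 : Real.exp (-(K ^ 2 / (4 * l))) * (B2 ^ 2) ^ r ≤
        B1 ^ (2 * r) * Real.exp (-(K * Real.sqrt ((2 * r : ℕ) : ℝ))) := by
      set x := Real.sqrt ((2 * r : ℕ) : ℝ) with hx
      have hx2 : x ^ 2 = ((2 * r : ℕ) : ℝ) := Real.sq_sqrt (Nat.cast_nonneg _)
      have h3 : (B2 ^ 2) ^ r = Real.exp (x ^ 2 * Real.log B2) := by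
        rw [← pow_mul, hx2, ← Real.exp_log (pow_pos hB20 (2 * r)), Real.log_pow]
      have h4 : B1 ^ (2 * r) = Real.exp (x ^ 2 * Real.log B1) := by
        rw [hx2, ← Real.exp_log (pow_pos hB10 (2 * r)), Real.log_pow]
      rw [h3, h4, ← Real.exp_add, ← Real.exp_add]
      apply Real.exp_le_exp.2
      have h5 : l = Real.log B1 - Real.log B2 := by
        rw [hl, Real.log_div hB10.ne' hB20.ne']
      have h6 : 0 ≤ l * x ^ 2 - K * x + K ^ 2 / (4 * l) := by
        have : l * x ^ 2 - K * x + K ^ 2 / (4 * l) = (2 * l * x - K) ^ 2 / (4 * l) := by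
          field_simp
          ring
        rw [this]
        positivity
      have h7 : l * x ^ 2 = x ^ 2 * Real.log B1 - x ^ 2 * Real.log B2 := by
        rw [h5]
        ring
      linarith
    calc c1 * y ≤ c1 * (B2 ^ 2) ^ r := mul_le_mul_of_nonneg_left hy1 hc10.le
      _ = 1 / 2 * (Real.exp (-(K ^ 2 / (4 * l))) * (B2 ^ 2) ^ r) := by rw [hc1]; ring
      _ ≤ _ := mul_le_mul_of_nonneg_left h2 (by norm_num)
  have hmain := qmain h (gq E) Q c (fun i a b hab => hQd i a b hab) (fun i a j hj => hQc i a j hj)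
    (fun i a b S => gq_shift E (c i a) i (hcE i a) b S) hθ
  rw [Fintype.card_fin] at hmain
  have hpow : (1 - c1 * y) ^ m ≤ η := by
    have h0 : c1 * y ≤ 1 := by nlinarith
    calc (1 - c1 * y) ^ m ≤ (Real.exp (-(c1 * y))) ^ m := by
          apply pow_le_pow_left₀ (by linarith)
          have := Real.add_one_le_exp (-(c1 * y))
          linarith
      _ = Real.exp (-(c1 * (m * y))) := by
          rw [← Real.exp_nat_mul]
          congr 1
          ring
      _ ≤ Real.exp (- Real.log (1 / η)) := by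
          apply Real.exp_le_exp.2
          rw [div_le_iff₀ hc10] at hy
          linarith
      _ = η := by
          rw [one_div, Real.log_inv, neg_neg, Real.exp_log hη0]
  have h1 : (k : ℝ) * (1 - η) ≤ (k : ℝ) * (1 - (1 - c1 * y) ^ m) :=
    mul_le_mul_of_nonneg_left (by linarith) (Nat.cast_nonneg k)
  have h2 : ρ * n * (1 - η) ≤ (k : ℝ) * (1 - η) := mul_le_mul_of_nonneg_right hk (by linarith)
  have h3 : Real.log (Fintype.card F) * (ρ * n * (1 - η)) ≤ (n : ℝ) * Hc L π :=
    (mul_le_mul_of_nonneg_left (h2.trans h1) hlq).trans hmain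
  have h5 : Real.log (Fintype.card F) * (ρ * n * (1 - η)) = n * (R - R * η) := by
    rw [hR]; ring
  rw [h5, hη1] at h3
  have h8 : R - (R - Hc L π) / 2 ≤ Hc L π := le_of_mul_le_mul_left h3 hnpos
  linarith

end

end Pool.Agent.LDCX
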