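import Pool.Agent.LDCX.QFinal

/-!
# Linear codes over a finite field: arbitrary probability vectors
-/

open scoped BigOperators
open Finset

namespace Pool.Agent.LDCX

noncomputable section

/-- The exponent for linear codes over a finite field, all probability vectors. -/
theorem q_final {F Y : Type} [Field F] [Fintype F] [Fintype Y] (L : Y → ℝ) (π : Y → F → ℝ) (ρ δ : ℝ)
    (hδ : 0 < δ) (hL : ∀ y, 0 ≤ L y) (hL1 : ∑ y, L y = 1) (hπ : ∀ y s, 0 ≤ π y s) (hπ1 : ∀ y, ∑ s, π y s = 1)
    (hH : ∑ y, L y * ∑ s, Real.negMulLog (π y s) < ρ * Real.log (Fintype.card F)) :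
    ∃ n0 : ℕ, ∀ n : ℕ, n0 ≤ n → ∀ (k t : ℕ) (E : (Fin k → F) →ₗ[F] (Fin n → F)),
      ρ * n ≤ k → IsLDC (fun x => E x) δ t →
      Real.log n / Real.log (1 / ((Fintype.card F : ℝ) *
        ∑ y, L y * ∏ s, (π y s) ^ (1 / (Fintype.card F : ℝ)))) ≤ t := by
  classical
  set q : ℝ := (Fintype.card F : ℝ) with hq
  have hq0 : 0 < q := by rw [hq]; exact_mod_cast Fintype.card_pos
  set B := q * ∑ y, L y * ∏ s, (π y s) ^ (1 / q) with hB
  have hBnn : 0 ≤ B := mul_nonneg hq0.le (Finset.sum_nonneg fun y _ => mul_nonneg (hL y)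
    (Finset.prod_nonneg fun s _ => Real.rpow_nonneg (hπ y s) _))
  rcases hBnn.eq_or_lt with hB0 | hB0
  · refine ⟨0, fun n _ k t E _ _ => ?_⟩
    rw [← hB0]
    simp
  rcases le_or_gt 1 B with hB1 | hB1
  · refine ⟨0, fun n _ k t E _ _ => ?_⟩
    have h1 : Real.log (1 / B) ≤ 0 := by
      rw [one_div, Real.log_inv]
      have := Real.log_nonneg hB1
      linarith
    exact (div_nonpos_of_nonneg_of_nonpos (Real.log_natCast_nonneg n) h1).trans (Nat.cast_nonneg t)
  -- the uniform symbol is added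
  set H := ∑ y, L y * ∑ s, Real.negMulLog (π y s) with hHdef
  set R := ρ * Real.log (Fintype.card F) with hR
  -- the perturbed law
  let N : ℝ := (Fintype.card (Option Y) : ℝ)
  have hN : 0 < N := by
    change (0 : ℝ) < (Fintype.card (Option Y) : ℝ)
    exact_mod_cast Fintype.card_pos
  let L0 : ℝ → Option Y → ℝ := fun e o => o.elim e (fun y => (1 - e) * L y)
  let π0 : Option Y → F → ℝ := fun o s => o.elim (1 / q) (fun y => π y s)
  let L1 : ℝ → ℝ → Option Y → ℝ := fun e f o => (1 - f) * L0 e o + f / N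
  let π1 : ℝ → Option Y → F → ℝ := fun f o s => (1 - f) * π0 o s + f / q
  have hu : q * (1 / q) = 1 := by field_simp
  have hqc : ∑ _s : F, (1 / q : ℝ) = 1 := by
    rw [Finset.sum_const, Finset.card_univ, nsmul_eq_mul, ← hq, hu]
  have hL0sum : ∀ e, ∑ o, L0 e o = 1 := by
    intro e
    rw [Fintype.sum_option]
    change e + ∑ y, (1 - e) * L y = 1
    rw [← Finset.mul_sum, hL1]
    ring
  have hπ0sum : ∀ o, ∑ s, π0 o s = 1 := by
    intro o
    cases o with
    | none => exact hqc
    | some y => exact hπ1 y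
  have hπ0nn : ∀ o s, 0 ≤ π0 o s := by
    intro o s
    cases o with
    | none =>
      change 0 ≤ 1 / q
      positivity
    | some y => exact hπ y s
  -- the two functionals
  let Hf : ℝ → ℝ → ℝ := fun e f => ∑ o, L1 e f o * ∑ s, Real.negMulLog (π1 f o s)
  let Bf : ℝ → ℝ → ℝ := fun e f => q * ∑ o, L1 e f o * ∏ s, (π1 f o s) ^ (1 / q)
  have hf0L : ∀ e o, L1 e 0 o = L0 e o := by
    intro e o
    simp [L1]
  have hf0π : ∀ o s, π1 0 o s = π0 o s := by
    intro o s
    simp [π1]
  have hlogq : ∑ _s : F, Real.negMulLog (1 / q) = Real.log q := by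
    rw [Finset.sum_const, Finset.card_univ, nsmul_eq_mul, ← hq, Real.negMulLog, one_div, Real.log_inv]
    field_simp
  have hprodq : ∏ _s : F, ((1 / q : ℝ)) ^ (1 / q) = 1 / q := by
    rw [Finset.prod_const, Finset.card_univ, ← Real.rpow_natCast, ← Real.rpow_mul (by positivity), ← hq]
    have : 1 / q * q = 1 := by field_simp
    rw [this, Real.rpow_one]
  have hH0 : ∀ e, Hf e 0 = e * Real.log q + (1 - e) * H := by
    intro e
    simp only [Hf, hf0L, hf0π]
    rw [Fintype.sum_option]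
    change e * ∑ _s : F, Real.negMulLog (1 / q) + ∑ y, ((1 - e) * L y) * ∑ s, Real.negMulLog (π y s) = _
    rw [hlogq, hHdef, Finset.mul_sum]
    congr 1
    exact Finset.sum_congr rfl fun y _ => by ring
  have hB0' : ∀ e, Bf e 0 = e + (1 - e) * B := by
    intro e
    simp only [Bf, hf0L, hf0π]
    rw [Fintype.sum_option]
    change q * (e * ∏ _s : F, (1 / q : ℝ) ^ (1 / q) + ∑ y, ((1 - e) * L y) * ∏ s, (π y s) ^ (1 / q)) = _
    rw [hprodq, hB]
    have : ∑ y, ((1 - e) * L y) * ∏ s, (π y s) ^ (1 / q) = (1 - e) * ∑ y, L y * ∏ s, (π y s) ^ (1 / q) := by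
      rw [Finset.mul_sum]
      exact Finset.sum_congr rfl fun y _ => by ring
    rw [this]
    field_simp
  -- choose e
  obtain ⟨e, he0, he1, heH⟩ : ∃ e : ℝ, 0 < e ∧ e < 1 ∧ Hf e 0 < R := by
    have hcont : Continuous (fun e : ℝ => e * Real.log q + (1 - e) * H) := by fun_prop
    have h1 : (0 : ℝ) * Real.log q + (1 - 0) * H < R := by
      rw [zero_mul, sub_zero, one_mul, zero_add]
      exact hH
    have h2 := (hcont.tendsto 0).eventually (gt_mem_nhds h1)
    have h3 : ∀ᶠ x : ℝ in nhds 0, x < 1 := gt_mem_nhds one_pos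
    have h4 := (Filter.Eventually.filter_mono (nhdsWithin_le_nhds (s := Set.Ioi (0 : ℝ))) (h2.and h3)).and
      (self_mem_nhdsWithin (a := (0 : ℝ)) (s := Set.Ioi 0))
    obtain ⟨x, hx⟩ := h4.exists
    exact ⟨x, hx.2, hx.1.2, by rw [hH0]; exact hx.1.1⟩
  have heB : B < Bf e 0 := by
    rw [hB0']
    nlinarith
  have heB1 : Bf e 0 < 1 := by
    rw [hB0']
    nlinarith
  -- choose f
  have hcL : ∀ o, Continuous (fun f : ℝ => L1 e f o) := by
    intro o
    simp only [L1]
    fun_prop
  have hcπ : ∀ o s, Continuous (fun f : ℝ => π1 f o s) := by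
    intro o s
    simp only [π1]
    fun_prop
  have hcH : Continuous (fun f : ℝ => Hf e f) :=
    continuous_finset_sum _ fun o _ => (hcL o).mul
      (continuous_finset_sum _ fun s _ => Real.continuous_negMulLog.comp (hcπ o s))
  have hcB : Continuous (fun f : ℝ => Bf e f) :=
    continuous_const.mul (continuous_finset_sum _ fun o _ => (hcL o).mul
      (continuous_finset_prod _ fun s _ => (hcπ o s).rpow_const fun x => Or.inr (by positivity)))
  obtain ⟨f, hf0, hf1, hfH, hfB, hfB1⟩ : ∃ f : ℝ, 0 < f ∧ f < 1 ∧ Hf e f < R ∧ B < Bf e f ∧ Bf e f < 1 := by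
    have h1 := (hcH.tendsto 0).eventually (gt_mem_nhds heH)
    have h2 := (hcB.tendsto 0).eventually (lt_mem_nhds heB)
    have h3 := (hcB.tendsto 0).eventually (gt_mem_nhds heB1)
    have h4 : ∀ᶠ x : ℝ in nhds 0, x < 1 := gt_mem_nhds one_pos
    have h5 := (Filter.Eventually.filter_mono (nhdsWithin_le_nhds (s := Set.Ioi (0 : ℝ)))
      (h1.and (h2.and (h3.and h4)))).and (self_mem_nhdsWithin (a := (0 : ℝ)) (s := Set.Ioi 0))
    obtain ⟨x, hx⟩ := h5.exists
    exact ⟨x, hx.2, hx.1.2.2.2, hx.1.1, hx.1.2.1, hx.1.2.2.1⟩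
  have hlaw : IsLaw (L1 e f) (π1 f) := by
    refine ⟨?_, ?_, ?_, ?_⟩
    · intro o
      have h1 : 0 ≤ L0 e o := by
        cases o with
        | none => exact he0.le
        | some y => exact mul_nonneg (by linarith) (hL y)
      have h2 : 0 ≤ (1 - f) * L0 e o := mul_nonneg (by linarith) h1
      have h3 : 0 < f / N := div_pos hf0 hN
      change 0 < (1 - f) * L0 e o + f / N
      linarith
    · change ∑ o, ((1 - f) * L0 e o + f / N) = 1
      rw [Finset.sum_add_distrib, ← Finset.mul_sum, hL0sum, Finset.sum_const, Finset.card_univ, nsmul_eq_mul]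
      change (1 - f) * 1 + N * (f / N) = 1
      field_simp
      ring
    · intro o s
      have h2 : 0 ≤ (1 - f) * π0 o s := mul_nonneg (by linarith) (hπ0nn o s)
      have h3 : 0 < f / q := div_pos hf0 hq0
      change 0 < (1 - f) * π0 o s + f / q
      linarith
    · intro o
      change ∑ s, ((1 - f) * π0 o s + f / q) = 1
      rw [Finset.sum_add_distrib, ← Finset.mul_sum, hπ0sum, Finset.sum_const, Finset.card_univ, nsmul_eq_mul, ← hq]
      field_simp
      ring
  have hGpos : ∀ o, 0 < ∏ s, (π1 f o s) ^ (1 / q) := fun o =>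
    Finset.prod_pos fun s _ => Real.rpow_pos_of_pos (hlaw.pos' o s) _
  have hHc : Hc (L1 e f) (π1 f) = Hf e f := by
    unfold Hc
    rw [Fintype.sum_prod_type]
    refine Finset.sum_congr rfl fun o _ => ?_
    rw [Finset.mul_sum]
    refine Finset.sum_congr rfl fun s _ => ?_
    simp only [lw, Real.negMulLog]
    ring
  exact pos_final hlaw hGpos (fun o => by
    rw [Real.log_prod (fun s _ => (Real.rpow_pos_of_pos (hlaw.pos' o s) _).ne'), ← hq, Finset.mul_sum]
    refine Finset.sum_congr rfl fun s _ => ?_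
    rw [Real.log_rpow (hlaw.pos' o s)]
    field_simp) rfl hB0 hfB hfB1 hδ (by rw [hHc]; exact hfH)

end

end Pool.Agent.LDCX
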