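import Pool.Agent.LDCX.QCube
import Pool.Agent.LDCX.Prob2

/-!
# The main inequality for linear codes over a finite field
-/

open scoped BigOperators
open Finset

namespace Pool.Agent.LDCX

noncomputable section

variable {ι F Y : Type} [Fintype ι] [DecidableEq ι] [Field F] [Fintype F] [DecidableEq F] [Fintype Y]
  [DecidableEq Y]

/-- The law of one coordinate. -/
def lw (L : Y → ℝ) (π : Y → F → ℝ) (a : Y × F) : ℝ := L a.1 * π a.1 a.2

/-- The conditions on the law. -/
structure IsLaw (L : Y → ℝ) (π : Y → F → ℝ) : Prop where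
  pos : ∀ y, 0 < L y
  sum : ∑ y, L y = 1
  pos' : ∀ y s, 0 < π y s
  sum' : ∀ y, ∑ s, π y s = 1

variable {L : Y → ℝ} {π : Y → F → ℝ}

omit [DecidableEq F] [Fintype F] [Field F] [DecidableEq Y] [Fintype Y] in
theorem lw_def (a : Y × F) : lw L π a = L a.1 * π a.1 a.2 := rfl

theorem lw_pos (h : IsLaw L π) (a : Y × F) : 0 < lw L π a := mul_pos (h.pos _) (h.pos' _ _)

theorem lw_sum (h : IsLaw L π) : ∑ a : Y × F, lw L π a = 1 := by
  rw [Fintype.sum_prod_type]
  have : ∀ y : Y, ∑ s : F, lw L π (y, s) = L y := by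
    intro y
    simp only [lw]
    rw [← Finset.mul_sum, h.sum' y, mul_one]
  rw [Finset.sum_congr rfl fun y _ => this y, h.sum]

/-- The expectation. -/
abbrev EL (L : Y → ℝ) (π : Y → F → ℝ) (G : (ι → Y × F) → ℝ) : ℝ := Ex2 (fun _ => lw L π) G

/-- The first components. -/
def yv (T : ι → Y × F) : ι → Y := fun j => (T j).1

/-- The second components. -/
def sv (T : ι → Y × F) : ι → F := fun j => (T j).2

/-- The shift. -/
def sh (c : ι → F) (T : ι → Y × F) : ι → Y × F := fun j => ((T j).1, (T j).2 + c j)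

omit [Fintype ι] [DecidableEq ι] [Fintype F] [DecidableEq F] [Fintype Y] [DecidableEq Y] in
theorem sh_sh (c c' : ι → F) (T : ι → Y × F) : sh c (sh c' T) = sh (c' + c) T := by
  funext j
  simp [sh, add_assoc]

omit [Fintype ι] [DecidableEq ι] [Fintype F] [DecidableEq F] [Fintype Y] [DecidableEq Y] in
theorem sh_zero (T : ι → Y × F) : sh (0 : ι → F) T = T := by
  funext j
  simp [sh]

/-- The shift as a permutation. -/
def shE (c : ι → F) : (ι → Y × F) ≃ (ι → Y × F) :=
  ⟨sh c, sh (-c), fun T => by rw [sh_sh]; simp [sh_zero], fun T => by rw [sh_sh]; simp [sh_zero]⟩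

/-- The joint law of the first components and of `g`. -/
def pw {k : ℕ} (L : Y → ℝ) (π : Y → F → ℝ) (g : (ι → F) → (Fin k → F)) (y : ι → Y) (v : Fin k → F) : ℝ :=
  EL L π (fun T => if yv T = y ∧ g (sv T) = v then (1 : ℝ) else 0)

theorem pw_nonneg {k : ℕ} (h : IsLaw L π) (g : (ι → F) → (Fin k → F)) (y : ι → Y) (v : Fin k → F) :
    0 ≤ pw L π g y v := by
  unfold pw EL Ex2
  refine Finset.sum_nonneg fun T _ => mul_nonneg (mu2_nonneg (fun _ a => (lw_pos h a).le) T) ?_
  dsimp only
  split_ifs <;> norm_num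

theorem sum_pw_mul {k : ℕ} (g : (ι → F) → (Fin k → F)) (G : (ι → Y) → (Fin k → F) → ℝ) :
    ∑ y, ∑ v, pw L π g y v * G y v = EL L π (fun T => G (yv T) (g (sv T))) := by
  unfold pw EL Ex2
  simp only [Finset.sum_mul]
  have e : ∀ y : ι → Y, ∑ v : Fin k → F, ∑ T : ι → Y × F, mu2 (fun _ => lw L π) T *
      (if yv T = y ∧ g (sv T) = v then (1 : ℝ) else 0) * G y v =
      ∑ T : ι → Y × F, ∑ v : Fin k → F, mu2 (fun _ => lw L π) T *
      (if yv T = y ∧ g (sv T) = v then (1 : ℝ) else 0) * G y v := fun y => Finset.sum_comm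
  rw [Finset.sum_congr rfl fun y _ => e y, Finset.sum_comm]
  refine Finset.sum_congr rfl fun T _ => ?_
  rw [Finset.sum_eq_single (yv T)]
  · rw [Finset.sum_eq_single (g (sv T))]
    · simp
    · intro v _ hv
      rw [if_neg (fun h => hv h.2.symm)]
      ring
    · simp
  · intro y _ hy
    refine Finset.sum_eq_zero fun v _ => ?_
    rw [if_neg (fun h => hy h.1.symm)]
    ring
  · simp

theorem mu2_le_pw {k : ℕ} (h : IsLaw L π) (g : (ι → F) → (Fin k → F)) (T : ι → Y × F) :
    mu2 (fun _ => lw L π) T ≤ pw L π g (yv T) (g (sv T)) := by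
  unfold pw EL Ex2
  have := Finset.single_le_sum (f := fun T' : ι → Y × F => mu2 (fun _ => lw L π) T' *
    (if yv T' = yv T ∧ g (sv T') = g (sv T) then (1 : ℝ) else 0))
    (fun T' _ => mul_nonneg (mu2_nonneg (fun _ a => (lw_pos h a).le) T') (by
      split_ifs <;> norm_num)) (Finset.mem_univ T)
  simpa using this

theorem sum_pw {k : ℕ} (h : IsLaw L π) (g : (ι → F) → (Fin k → F)) (y : ι → Y) :
    ∑ v, pw L π g y v = ∏ j, L (y j) := by
  have e1 : ∑ v, pw L π g y v = EL L π (fun T => ∏ j, (if (T j).1 = y j then (1 : ℝ) else 0)) := by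
    unfold pw EL Ex2
    rw [Finset.sum_comm]
    refine Finset.sum_congr rfl fun T _ => ?_
    rw [← Finset.mul_sum]
    congr 1
    by_cases hy : yv T = y
    · have h1 : ∀ v : Fin k → F, (if yv T = y ∧ g (sv T) = v then (1 : ℝ) else 0) =
          if g (sv T) = v then 1 else 0 := by
        intro v
        by_cases hv : g (sv T) = v
        · rw [if_pos ⟨hy, hv⟩, if_pos hv]
        · rw [if_neg (fun h => hv h.2), if_neg hv]
      rw [Finset.sum_congr rfl fun v _ => h1 v, Finset.sum_ite_eq, if_pos (Finset.mem_univ _)]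
      symm
      refine Finset.prod_eq_one fun j _ => ?_
      rw [if_pos]
      exact congrFun hy j
    · have h1 : ∀ v : Fin k → F, (if yv T = y ∧ g (sv T) = v then (1 : ℝ) else 0) = 0 := by
        intro v
        rw [if_neg (fun h => hy h.1)]
      rw [Finset.sum_congr rfl fun v _ => h1 v, Finset.sum_const_zero]
      symm
      have : ∃ j, (T j).1 ≠ y j := by
        by_contra hcon
        push Not at hcon
        exact hy (funext hcon)
      obtain ⟨j, hj⟩ := this
      exact Finset.prod_eq_zero (Finset.mem_univ j) (if_neg hj)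
  rw [e1]
  unfold EL
  rw [Ex2_prod (fun _ => lw L π) (fun j (a : Y × F) => if a.1 = y j then (1 : ℝ) else 0)]
  refine Finset.prod_congr rfl fun j _ => ?_
  rw [Fintype.sum_prod_type]
  rw [Finset.sum_eq_single (y j)]
  · simp only [lw, if_true, mul_one]
    rw [← Finset.mul_sum, h.sum', mul_one]
  · intro b _ hb
    refine Finset.sum_eq_zero fun s _ => ?_
    rw [if_neg hb, mul_zero]
  · simp

/-- The conditional entropy of one coordinate. -/
def Hc (L : Y → ℝ) (π : Y → F → ℝ) : ℝ := ∑ a : Y × F, lw L π a * (- Real.log (π a.1 a.2))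

theorem sum_En_le {k : ℕ} (h : IsLaw L π) (g : (ι → F) → (Fin k → F)) :
    ∑ y, En (pw L π g y) ≤ (Fintype.card ι : ℝ) * Hc L π := by
  have hlp := lw_pos h
  have hmu : ∀ T : ι → Y × F, 0 < mu2 (fun _ => lw L π) T := fun T => Finset.prod_pos fun j _ => hlp _
  have e1 : ∑ y, En (pw L π g y) = EL L π (fun T : ι → Y × F =>
      Real.log (∏ j, L ((T j).1)) - Real.log (pw L π g (yv T) (g (sv T)))) := by
    have h1 := sum_pw_mul (L := L) (π := π) g (fun y _ => Real.log (∏ j, L (y j)))
    have h2 := sum_pw_mul (L := L) (π := π) g (fun y v => Real.log (pw L π g y v))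
    unfold En EL
    rw [Finset.sum_sub_distrib, Ex2_sub]
    congr 1
    have h3 : ∀ y : ι → Y, (∑ v, pw L π g y v) * Real.log (∑ v, pw L π g y v) =
        ∑ v, pw L π g y v * Real.log (∏ j, L (y j)) := by
      intro y
      rw [← Finset.sum_mul, sum_pw h g y]
    rw [Finset.sum_congr rfl fun y _ => h3 y, h1]
    rfl
  rw [e1]
  have e2 : EL L π (fun T : ι → Y × F =>
      Real.log (∏ j, L ((T j).1)) - Real.log (pw L π g (yv T) (g (sv T)))) ≤
      EL L π (fun T : ι → Y × F => ∑ j, (- Real.log (π (T j).1 (T j).2))) := by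
    apply Ex2_mono (fun _ a => (hlp a).le)
    intro T
    have h1 := Real.log_le_log (hmu T) (mu2_le_pw h g T)
    have h2 : Real.log (mu2 (fun _ => lw L π) T) = ∑ j, (Real.log (L (T j).1) + Real.log (π (T j).1 (T j).2)) := by
      unfold mu2
      rw [Real.log_prod]
      · refine Finset.sum_congr rfl fun j _ => ?_
        change Real.log (L (T j).1 * π (T j).1 (T j).2) = _
        rw [Real.log_mul (h.pos _).ne' (h.pos' _ _).ne']
      · intro j _
        exact (hlp _).ne'
    have h3 : Real.log (∏ j, L ((T j).1)) = ∑ j, Real.log (L (T j).1) := by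
      rw [Real.log_prod]
      intro j _
      exact (h.pos _).ne'
    rw [Finset.sum_add_distrib] at h2
    rw [h3, Finset.sum_neg_distrib]
    linarith
  refine e2.trans (le_of_eq ?_)
  unfold EL
  rw [Ex2_sum]
  have e3 : ∀ j : ι, Ex2 (fun _ => lw L π) (fun T : ι → Y × F => - Real.log (π (T j).1 (T j).2)) = Hc L π :=
    fun j => Ex2_coord (fun _ => lw_sum h) j (fun a : Y × F => - Real.log (π a.1 a.2))
  rw [Finset.sum_congr rfl fun j _ => e3 j, Finset.sum_const, Finset.card_univ, nsmul_eq_mul]

/-- The weight of the coordinates in `C`. -/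
def Lam (L : Y → ℝ) (π : Y → F → ℝ) (C : Finset ι) (T : ι → Y × F) : ℝ := ∏ j ∈ C, lw L π (T j)

/-- The probability to be flippable. -/
def psi (L : Y → ℝ) (π : Y → F → ℝ) (C : Finset ι) (c : ι → F) (T : ι → Y × F) : ℝ :=
  mn (fun b : F => Lam L π C (sh (b • c) T)) / Lam L π C T

theorem Lam_pos (h : IsLaw L π) (C : Finset ι) (T : ι → Y × F) : 0 < Lam L π C T :=
  Finset.prod_pos fun j _ => lw_pos h _

theorem psi_nonneg (h : IsLaw L π) (C : Finset ι) (c : ι → F) (T : ι → Y × F) : 0 ≤ psi L π C c T :=
  div_nonneg (mn_nonneg fun _ => (Lam_pos h C _).le) (Lam_pos h C T).le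

theorem psi_le_one (h : IsLaw L π) (C : Finset ι) (c : ι → F) (T : ι → Y × F) : psi L π C c T ≤ 1 := by
  unfold psi
  rw [div_le_one (Lam_pos h C T)]
  have := mn_le (fun b : F => Lam L π C (sh (b • c) T)) 0
  simpa [sh_zero] using this

theorem Lam_congr (C : Finset ι) (T T' : ι → Y × F) (hT : ∀ j ∈ C, T j = T' j) :
    Lam L π C T = Lam L π C T' :=
  Finset.prod_congr rfl fun j hj => by rw [hT j hj]

theorem psi_congr (C : Finset ι) (c : ι → F) (T T' : ι → Y × F) (hT : ∀ j ∈ C, T j = T' j) :
    psi L π C c T = psi L π C c T' := by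
  unfold psi
  rw [Lam_congr C T T' hT]
  congr 2
  funext b
  exact Lam_congr C _ _ fun j hj => by simp [sh, hT j hj]

/-- The invariance. -/
theorem mu2_psi_sh (h : IsLaw L π) (C : Finset ι) (c : ι → F) (hc : ∀ j, j ∉ C → c j = 0) (b : F)
    (T : ι → Y × F) :
    mu2 (fun _ => lw L π) (sh (b • c) T) * psi L π C c (sh (b • c) T) =
      mu2 (fun _ => lw L π) T * psi L π C c T := by
  have e1 : ∀ T' : ι → Y × F, mu2 (fun _ => lw L π) T' * psi L π C c T' =
      (∏ j ∈ Cᶜ, lw L π (T' j)) * mn (fun b : F => Lam L π C (sh (b • c) T')) := by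
    intro T'
    unfold psi mu2
    rw [← Finset.prod_mul_prod_compl C]
    have h1 : (∏ j ∈ C, lw L π (T' j)) = Lam L π C T' := rfl
    have h2 := (Lam_pos h C T').ne'
    rw [h1]
    field_simp
  rw [e1, e1]
  congr 1
  · refine Finset.prod_congr rfl fun j hj => ?_
    have : c j = 0 := hc j (Finset.mem_compl.1 hj)
    simp [sh, this]
  · have h3 : (fun b' : F => Lam L π C (sh (b' • c) (sh (b • c) T))) =
        fun b' : F => (fun b'' : F => Lam L π C (sh (b'' • c) T)) (b + b') := by
      funext b'
      rw [sh_sh, ← add_smul]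
    rw [h3]
    exact mn_shift (fun b'' : F => Lam L π C (sh (b'' • c) T)) b

/-- The main inequality. -/
theorem qmain {k m : ℕ} (h : IsLaw L π) (g : (ι → F) → (Fin k → F)) (C : Fin k → Fin m → Finset ι)
    (c : Fin k → Fin m → ι → F) (hC : ∀ i a b, a ≠ b → Disjoint (C i a) (C i b))
    (hc : ∀ i a j, j ∉ C i a → c i a j = 0)
    (hg : ∀ i a (b : F) S, g (S + b • c i a) = g S + Pi.single i b) {θ : ℝ}
    (hθ : ∀ i a, θ ≤ EL L π (psi L π (C i a) (c i a))) :
    Real.log (Fintype.card F) * ((k : ℝ) * (1 - (1 - θ) ^ m)) ≤ (Fintype.card ι : ℝ) * Hc L π := by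
  have hlp := lw_pos h
  have h1 := sum_En_le h g
  have h2 : ∀ y : ι → Y, Real.log (Fintype.card F) * ∑ i : Fin k, ∑ v : Fin k → F,
      mn (fun b : F => pw L π g y (v + Pi.single i b)) ≤ En (pw L π g y) :=
    fun y => qcube k (pw L π g y) (fun v => pw_nonneg h g y v)
  have h3 := (Finset.sum_le_sum (s := Finset.univ) fun y _ => h2 y).trans h1
  rw [← Finset.mul_sum] at h3
  refine le_trans ?_ h3
  apply mul_le_mul_of_nonneg_left _ (Real.log_natCast_nonneg _)
  rw [Finset.sum_comm]
  have h4 : ∀ i : Fin k, 1 - (1 - θ) ^ m ≤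
      ∑ y : ι → Y, ∑ v : Fin k → F, mn (fun b : F => pw L π g y (v + Pi.single i b)) := by
    intro i
    let x : Fin m → (ι → Y × F) → ℝ := fun a T => psi L π (C i a) (c i a) T
    have hx0 : ∀ a T, 0 ≤ x a T := fun a T => psi_nonneg h _ _ _
    have hx1 : ∀ a T, x a T ≤ 1 := fun a T => psi_le_one h _ _ _
    let τ : Fin m → (ι → Y × F) → ℝ := fun a T =>
      x a T * ∏ b ∈ Finset.univ.filter (fun b => b < a), (1 - x b T)
    have hτ0 : ∀ a T, 0 ≤ τ a T := fun a T => mul_nonneg (hx0 a T)
      (Finset.prod_nonneg fun b _ => by linarith [hx1 b T])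
    have hτsum : ∀ T, ∑ a, τ a T = 1 - ∏ a, (1 - x a T) := by
      intro T
      have := Finset.prod_one_sub_ordered (Finset.univ : Finset (Fin m)) (fun a => x a T)
      rw [this]
      ring
    have hμτ : ∀ a (b : F) T, mu2 (fun _ => lw L π) (sh (b • c i a) T) * τ a (sh (b • c i a) T) =
        mu2 (fun _ => lw L π) T * τ a T := by
      intro a b T
      simp only [τ]
      rw [← mul_assoc, ← mul_assoc, mu2_psi_sh h (C i a) (c i a) (hc i a) b T]
      congr 1
      refine Finset.prod_congr rfl fun b' hb' => ?_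
      rw [Finset.mem_filter] at hb'
      congr 1
      apply psi_congr
      intro j hj
      have hd := hC i b' a (ne_of_lt hb'.2)
      have : c i a j = 0 := hc i a j (Finset.disjoint_left.1 hd hj)
      simp [sh, this]
    let u : (ι → Y) → (Fin k → F) → ℝ := fun y v =>
      ∑ a, ∑ T, mu2 (fun _ => lw L π) T * τ a T * (if yv T = y ∧ g (sv T) = v then (1 : ℝ) else 0)
    have hu1 : ∀ y v, u y v ≤ pw L π g y v := by
      intro y v
      simp only [u, pw, EL, Ex2]
      rw [Finset.sum_comm]
      refine Finset.sum_le_sum fun T _ => ?_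
      rw [← Finset.sum_mul, ← Finset.mul_sum, hτsum]
      have h5 : 0 ≤ ∏ a, (1 - x a T) := Finset.prod_nonneg fun b _ => by linarith [hx1 b T]
      have h6 : mu2 (fun _ => lw L π) T * (1 - ∏ a, (1 - x a T)) ≤ mu2 (fun _ => lw L π) T := by
        have := mul_nonneg (mu2_nonneg (fun _ a => (hlp a).le) T) h5
        linarith
      exact mul_le_mul_of_nonneg_right h6 (by split_ifs <;> norm_num)
    have hu2 : ∀ y v (b : F), u y (v + Pi.single i b) = u y v := by
      intro y v b
      simp only [u]
      refine Finset.sum_congr rfl fun a _ => ?_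
      symm
      refine Fintype.sum_equiv (shE (b • c i a)) _ _ fun T => ?_
      change _ = mu2 (fun _ => lw L π) (sh (b • c i a) T) * τ a (sh (b • c i a) T) *
        (if yv (sh (b • c i a) T) = y ∧ g (sv (sh (b • c i a) T)) = v + Pi.single i b then (1 : ℝ) else 0)
      rw [hμτ]
      have e5 : (yv (sh (b • c i a) T) = y ∧ g (sv (sh (b • c i a) T)) = v + Pi.single i b) ↔
          (yv T = y ∧ g (sv T) = v) := by
        have e6 : yv (sh (b • c i a) T) = yv T := rfl
        have e7 : sv (sh (b • c i a) T) = sv T + b • c i a := rfl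
        rw [e6, e7, hg, add_left_inj]
      by_cases hv : yv T = y ∧ g (sv T) = v
      · rw [if_pos hv, if_pos (e5.2 hv)]
      · rw [if_neg hv, if_neg (fun h => hv (e5.1 h))]
    have hu3 : 1 - (1 - θ) ^ m ≤ ∑ y, ∑ v, u y v := by
      have e1 : ∑ y, ∑ v, u y v = EL L π (fun T => 1 - ∏ a, (1 - x a T)) := by
        have e2 : ∀ y : ι → Y, ∑ v, u y v = ∑ T, mu2 (fun _ => lw L π) T * (1 - ∏ a, (1 - x a T)) *
            (if yv T = y then (1 : ℝ) else 0) := by
          intro y
          simp only [u]
          have e3 : ∀ v : Fin k → F, ∑ a, ∑ T, mu2 (fun _ => lw L π) T * τ a T *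
              (if yv T = y ∧ g (sv T) = v then (1 : ℝ) else 0) =
              ∑ T, mu2 (fun _ => lw L π) T * (1 - ∏ a, (1 - x a T)) *
              (if yv T = y ∧ g (sv T) = v then (1 : ℝ) else 0) := by
            intro v
            rw [Finset.sum_comm]
            refine Finset.sum_congr rfl fun T _ => ?_
            rw [← Finset.sum_mul, ← Finset.mul_sum, hτsum]
          rw [Finset.sum_congr rfl fun v _ => e3 v, Finset.sum_comm]
          refine Finset.sum_congr rfl fun T _ => ?_
          rw [← Finset.mul_sum]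
          congr 1
          by_cases hy : yv T = y
          · have h1 : ∀ v : Fin k → F, (if yv T = y ∧ g (sv T) = v then (1 : ℝ) else 0) =
                if g (sv T) = v then 1 else 0 := by
              intro v
              by_cases hv : g (sv T) = v
              · rw [if_pos ⟨hy, hv⟩, if_pos hv]
              · rw [if_neg (fun h => hv h.2), if_neg hv]
            rw [Finset.sum_congr rfl fun v _ => h1 v, Finset.sum_ite_eq, if_pos (Finset.mem_univ _), if_pos hy]
          · have h1 : ∀ v : Fin k → F, (if yv T = y ∧ g (sv T) = v then (1 : ℝ) else 0) = 0 := by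
              intro v
              rw [if_neg (fun h => hy h.1)]
            rw [Finset.sum_congr rfl fun v _ => h1 v, Finset.sum_const_zero, if_neg hy]
        rw [Finset.sum_congr rfl fun y _ => e2 y, Finset.sum_comm]
        unfold EL Ex2
        refine Finset.sum_congr rfl fun T _ => ?_
        rw [← Finset.mul_sum, Finset.sum_ite_eq, if_pos (Finset.mem_univ _), mul_one]
      rw [e1]
      have e3 : EL L π (fun T : ι → Y × F => 1 - ∏ a, (1 - x a T)) =
          1 - EL L π (fun T : ι → Y × F => ∏ a, (1 - x a T)) := by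
        unfold EL
        rw [Ex2_sub, Ex2_one (fun _ => lw_sum h)]
      rw [e3]
      have e4 : EL L π (fun T : ι → Y × F => ∏ a, (1 - x a T)) = ∏ a, (1 - EL L π (x a)) := by
        have e5 : ∀ J : Finset (Fin m), EL L π (fun T : ι → Y × F => ∏ a ∈ J, (1 - x a T)) =
            ∏ a ∈ J, (1 - EL L π (x a)) := by
          intro J
          induction J using Finset.induction_on with
          | empty =>
            simp only [Finset.prod_empty]
            exact Ex2_one (fun _ => lw_sum h)
          | insert b J hb ih =>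
            rw [Finset.prod_insert hb, ← ih]
            have e6 : (fun T : ι → Y × F => ∏ a ∈ insert b J, (1 - x a T)) =
                fun T => (1 - x b T) * ∏ a ∈ J, (1 - x a T) := by
              funext T
              rw [Finset.prod_insert hb]
            have e7 : EL L π (fun T : ι → Y × F => 1 - x b T) = 1 - EL L π (x b) := by
              unfold EL
              rw [Ex2_sub, Ex2_one (fun _ => lw_sum h)]
            rw [e6, ← e7]
            unfold EL
            apply Ex2_mul (fun _ => lw_sum h) (C i b)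
            · intro T T' hT
              simp only [x]
              rw [psi_congr _ _ T T' hT]
            · intro T T' hT
              refine Finset.prod_congr rfl fun a ha => ?_
              simp only [x]
              rw [psi_congr _ _ T T' fun j hj => ?_]
              apply hT
              intro hjb
              have hab : a ≠ b := fun h => hb (h ▸ ha)
              exact Finset.disjoint_left.1 (hC i a b hab) hj hjb
        exact e5 Finset.univ
      rw [e4]
      have h7 : ∏ a : Fin m, (1 - EL L π (x a)) ≤ ∏ _a : Fin m, (1 - θ) := by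
        refine Finset.prod_le_prod (fun a _ => ?_) (fun a _ => ?_)
        · have h8 : EL L π (x a) ≤ EL L π (fun _ : ι → Y × F => (1 : ℝ)) :=
            Ex2_mono (fun _ a => (hlp a).le) (fun T => hx1 a T)
          have h9 : EL L π (fun _ : ι → Y × F => (1 : ℝ)) = 1 := Ex2_one (fun _ => lw_sum h)
          linarith
        · have := hθ i a
          linarith
      rw [Finset.prod_const, Finset.card_univ, Fintype.card_fin] at h7
      linarith
    refine hu3.trans ?_
    refine Finset.sum_le_sum fun y _ => Finset.sum_le_sum fun v _ => le_mn fun b => ?_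
    rw [← hu2 y v b]
    exact hu1 y _
  calc (k : ℝ) * (1 - (1 - θ) ^ m) = ∑ _i : Fin k, (1 - (1 - θ) ^ m) := by
        rw [Finset.sum_const, Finset.card_univ, Fintype.card_fin, nsmul_eq_mul]
    _ ≤ _ := Finset.sum_le_sum fun i _ => h4 i

end

end Pool.Agent.LDCX
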