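import Pool.Agent.LDCX.QMain

/-!
# The lower bound for the probability to be flippable
-/

open scoped BigOperators
open Finset

namespace Pool.Agent.LDCX

noncomputable section

variable {ι F Y : Type} [Fintype ι] [DecidableEq ι] [Field F] [Fintype F] [DecidableEq F] [Fintype Y]
  [DecidableEq Y]

/-- The variance of a sum of independent functions with mean zero. -/
theorem var_sum {α : Type} [Fintype α] [DecidableEq α] {ν : α → ℝ} (h1 : ∑ a, ν a = 1) (φ : ι → α → ℝ)
    (hφ : ∀ j, ∑ a, ν a * φ j a = 0) (C : Finset ι) :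
    Ex2 (fun _ => ν) (fun T : ι → α => (∑ j ∈ C, φ j (T j)) ^ 2) = ∑ j ∈ C, ∑ a, ν a * φ j a ^ 2 := by
  induction C using Finset.induction_on with
  | empty =>
    simp only [Finset.sum_empty]
    have := Ex2_const (ι := ι) (π := fun _ => ν) (fun _ => h1) (0 : ℝ)
    simpa using this
  | insert j C hj ih =>
    rw [Finset.sum_insert hj, ← ih]
    have e1 : (fun T : ι → α => (∑ i ∈ insert j C, φ i (T i)) ^ 2) =
        fun T => (φ j (T j) ^ 2 + 2 * (φ j (T j) * ∑ i ∈ C, φ i (T i))) + (∑ i ∈ C, φ i (T i)) ^ 2 := by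
      funext T
      rw [Finset.sum_insert hj]
      ring
    rw [e1, Ex2_add, Ex2_add, Ex2_const_mul]
    have e2 : Ex2 (fun _ => ν) (fun T : ι → α => φ j (T j) * ∑ i ∈ C, φ i (T i)) = 0 := by
      rw [Ex2_mul (π := fun _ => ν) (fun _ => h1) {j} (fun T : ι → α => φ j (T j))
        (fun T => ∑ i ∈ C, φ i (T i))]
      · rw [Ex2_coord (π := fun _ => ν) (fun _ => h1) j (φ j), hφ j, zero_mul]
      · intro S S' h
        rw [h j (Finset.mem_singleton_self j)]
      · intro S S' h
        refine Finset.sum_congr rfl fun i hi => ?_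
        rw [h i]
        intro hi'
        rw [Finset.mem_singleton] at hi'
        exact hj (hi' ▸ hi)
    rw [e2, mul_zero, add_zero]
    congr 1
    exact Ex2_coord (π := fun _ => ν) (fun _ => h1) j (fun a => φ j a ^ 2)

variable {L : Y → ℝ} {π : Y → F → ℝ}

/-- The tilted law. -/
def tl (L G : Y → ℝ) (B : ℝ) (a : Y × F) : ℝ := L a.1 * G a.1 / B

/-- The log-likelihood. -/
def xi (π : Y → F → ℝ) (G : Y → ℝ) (a : Y × F) : ℝ := Real.log (π a.1 a.2) - Real.log (G a.1)

theorem tl_sum {G : Y → ℝ} {B : ℝ} (hB : B ≠ 0) (hGB : (Fintype.card F : ℝ) * ∑ y, L y * G y = B) :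
    ∑ a : Y × F, tl L G B a = 1 := by
  rw [Fintype.sum_prod_type]
  have : ∀ y : Y, ∑ s : F, tl L G B (y, s) = (Fintype.card F : ℝ) * (L y * G y) / B := by
    intro y
    simp only [tl]
    rw [Finset.sum_const, Finset.card_univ, nsmul_eq_mul]
    ring
  rw [Finset.sum_congr rfl fun y _ => this y, ← Finset.sum_div, ← Finset.mul_sum, hGB, div_self hB]

theorem tl_xi {G : Y → ℝ} {B : ℝ} (hG : ∀ y, ∑ s, Real.log (π y s) = (Fintype.card F : ℝ) * Real.log (G y))
    (d : F) : ∑ a : Y × F, tl L G B a * xi π G (a.1, a.2 + d) = 0 := by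
  rw [Fintype.sum_prod_type]
  refine Finset.sum_eq_zero fun y _ => ?_
  simp only [tl]
  rw [← Finset.mul_sum]
  have : ∑ s : F, xi π G (y, s + d) = 0 := by
    have e1 : ∑ s : F, xi π G (y, s + d) = ∑ s : F, xi π G (y, s) :=
      Fintype.sum_equiv (Equiv.addRight d) _ _ fun s => rfl
    rw [e1]
    simp only [xi]
    rw [Finset.sum_sub_distrib, hG, Finset.sum_const, Finset.card_univ, nsmul_eq_mul, sub_self]
  rw [this, mul_zero]

/-- The variance. -/
def vr (L : Y → ℝ) (π : Y → F → ℝ) (G : Y → ℝ) (B : ℝ) : ℝ := ∑ a : Y × F, tl L G B a * xi π G a ^ 2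

theorem tl_vr {G : Y → ℝ} {B : ℝ} (d : F) :
    ∑ a : Y × F, tl L G B a * xi π G (a.1, a.2 + d) ^ 2 = vr L π G B := by
  unfold vr
  rw [Fintype.sum_prod_type, Fintype.sum_prod_type]
  refine Finset.sum_congr rfl fun y _ => ?_
  simp only [tl]
  rw [← Finset.mul_sum, ← Finset.mul_sum]
  congr 1
  exact Fintype.sum_equiv (Equiv.addRight d) _ _ fun s => rfl

theorem theta_q (h : IsLaw L π) {G : Y → ℝ} {B : ℝ} (hGpos : ∀ y, 0 < G y)
    (hG : ∀ y, ∑ s, Real.log (π y s) = (Fintype.card F : ℝ) * Real.log (G y))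
    (hGB : (Fintype.card F : ℝ) * ∑ y, L y * G y = B) (hB0 : 0 < B) (hB1 : B ≤ 1)
    (C : Finset ι) (c : ι → F) {t : ℕ} (ht : 1 ≤ t) (hC : C.card ≤ t) {K : ℝ} (hK : 0 < K)
    (hKV : 2 * (Fintype.card F : ℝ) * vr L π G B ≤ K ^ 2) :
    1 / 2 * (B ^ t * Real.exp (-(K * Real.sqrt t))) ≤ EL L π (psi L π C c) := by
  have hq : (0 : ℝ) < Fintype.card F := by exact_mod_cast Fintype.card_pos
  have hlp := lw_pos h
  set ν : Y × F → ℝ := tl L G B with hν
  have hνpos : ∀ a, 0 < ν a := fun a => div_pos (mul_pos (h.pos _) (hGpos _)) hB0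
  have hνsum : ∑ a, ν a = 1 := tl_sum hB0.ne' hGB
  have ht0 : (0 : ℝ) < t := by exact_mod_cast ht
  set κ := K * Real.sqrt t with hκ
  have hκ0 : 0 < κ := mul_pos hK (Real.sqrt_pos.2 ht0)
  have hκ2 : κ ^ 2 = K ^ 2 * t := by rw [hκ, mul_pow, Real.sq_sqrt ht0.le]
  -- the sums
  set Z : F → (ι → Y × F) → ℝ := fun b T => ∑ j ∈ C, xi π G ((T j).1, (T j).2 + (b • c) j) with hZ
  -- change of measure
  have e1 : EL L π (psi L π C c) = Ex2 (fun _ => ν) (fun T : ι → Y × F =>
      (∏ j ∈ C, (lw L π (T j) / ν (T j))) * psi L π C c T) := by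
    have h1 : EL L π (psi L π C c) = Ex2 (fun j => if j ∈ C then lw L π else ν) (psi L π C c) := by
      apply Ex2_change (fun _ => lw_sum h) _ C
      · intro j hj
        rw [if_pos hj]
      · intro T T' hT
        exact psi_congr C c T T' hT
      · intro j
        split_ifs
        · exact lw_sum h
        · exact hνsum
    rw [h1]
    unfold Ex2
    refine Finset.sum_congr rfl fun T _ => ?_
    rw [← mul_assoc]
    congr 1
    unfold mu2
    rw [← Finset.prod_mul_prod_compl C, ← Finset.prod_mul_prod_compl C (fun j => ν (T j))]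
    have h2 : ∏ j ∈ C, (if j ∈ C then lw L π else ν) (T j) = ∏ j ∈ C, lw L π (T j) :=
      Finset.prod_congr rfl fun j hj => by rw [if_pos hj]
    have h3 : ∏ j ∈ Cᶜ, (if j ∈ C then lw L π else ν) (T j) = ∏ j ∈ Cᶜ, ν (T j) :=
      Finset.prod_congr rfl fun j hj => by rw [if_neg (Finset.mem_compl.1 hj)]
    rw [h2, h3, Finset.prod_div_distrib]
    have h4 : ∏ j ∈ C, ν (T j) ≠ 0 := Finset.prod_ne_zero_iff.2 fun j _ => (hνpos _).ne'
    field_simp
  -- pointwise bound
  have e2 : ∀ T : ι → Y × F, B ^ t * Real.exp (-κ) * (1 - ∑ b : F, (if κ ≤ |Z b T - 0| then (1 : ℝ) else 0)) ≤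
      (∏ j ∈ C, (lw L π (T j) / ν (T j))) * psi L π C c T := by
    intro T
    have hpos1 : 0 < ∏ j ∈ C, (lw L π (T j) / ν (T j)) :=
      Finset.prod_pos fun j _ => div_pos (hlp _) (hνpos _)
    by_cases hall : ∀ b : F, |Z b T - 0| < κ
    · have h1 : ∑ b : F, (if κ ≤ |Z b T - 0| then (1 : ℝ) else 0) = 0 :=
        Finset.sum_eq_zero fun b _ => if_neg (not_le.2 (hall b))
      rw [h1, sub_zero, mul_one]
      obtain ⟨b, hb⟩ := mn_exists (fun b : F => Lam L π C (sh (b • c) T))
      have h2 : psi L π C c T = Lam L π C (sh (b • c) T) / Lam L π C T := by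
        unfold psi
        rw [hb]
      rw [h2]
      have h3 : (∏ j ∈ C, (lw L π (T j) / ν (T j))) * (Lam L π C (sh (b • c) T) / Lam L π C T) =
          ∏ j ∈ C, (lw L π (sh (b • c) T j) / ν (T j)) := by
        have h4 : (∏ j ∈ C, lw L π (T j)) = Lam L π C T := rfl
        have h5 : (∏ j ∈ C, lw L π (sh (b • c) T j)) = Lam L π C (sh (b • c) T) := rfl
        rw [Finset.prod_div_distrib, Finset.prod_div_distrib, h4, h5]
        have h6 := (Lam_pos h C T).ne'
        have h7 : ∏ j ∈ C, ν (T j) ≠ 0 := Finset.prod_ne_zero_iff.2 fun j _ => (hνpos _).ne'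
        field_simp
      rw [h3]
      have h8 : ∀ j ∈ C, lw L π (sh (b • c) T j) / ν (T j) =
          B * Real.exp (xi π G ((T j).1, (T j).2 + (b • c) j)) := by
        intro j _
        have h9 : Real.exp (xi π G ((T j).1, (T j).2 + (b • c) j)) =
            π (T j).1 ((T j).2 + (b • c) j) / G (T j).1 := by
          unfold xi
          rw [Real.exp_sub, Real.exp_log (h.pos' _ _), Real.exp_log (hGpos _)]
        rw [h9]
        have h10 : lw L π (sh (b • c) T j) = L (T j).1 * π (T j).1 ((T j).2 + (b • c) j) := rfl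
        have h11 : ν (T j) = L (T j).1 * G (T j).1 / B := rfl
        rw [h10, h11]
        have := (h.pos (T j).1).ne'
        have := (hGpos (T j).1).ne'
        field_simp
      rw [Finset.prod_congr rfl h8, Finset.prod_mul_distrib, Finset.prod_const, ← Real.exp_sum]
      have h12 : B ^ t ≤ B ^ C.card := pow_le_pow_of_le_one hB0.le hB1 hC
      have h13 : Real.exp (-κ) ≤ Real.exp (∑ j ∈ C, xi π G ((T j).1, (T j).2 + (b • c) j)) := by
        apply Real.exp_le_exp.2
        have h14 := hall b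
        rw [sub_zero, abs_lt] at h14
        exact h14.1.le
      exact mul_le_mul h12 h13 (Real.exp_pos _).le (by positivity)
    · push Not at hall
      obtain ⟨b, hb⟩ := hall
      have h1 : (1 : ℝ) ≤ ∑ b : F, (if κ ≤ |Z b T - 0| then (1 : ℝ) else 0) := by
        have := Finset.single_le_sum (f := fun b : F => if κ ≤ |Z b T - 0| then (1 : ℝ) else 0)
          (fun b _ => by split_ifs <;> norm_num) (Finset.mem_univ b)
        simp only [if_pos hb] at this
        exact this
      have h2 : 0 ≤ (∏ j ∈ C, (lw L π (T j) / ν (T j))) * psi L π C c T :=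
        mul_nonneg hpos1.le (psi_nonneg h _ _ _)
      refine le_trans ?_ h2
      apply mul_nonpos_of_nonneg_of_nonpos (by positivity)
      linarith
  -- Chebyshev
  have e3 : ∀ b : F, Ex2 (fun _ => ν) (fun T : ι → Y × F => if κ ≤ |Z b T - 0| then (1 : ℝ) else 0) ≤
      1 / (2 * (Fintype.card F : ℝ)) := by
    intro b
    have h1 : Ex2 (fun _ => ν) (fun T : ι → Y × F => (Z b T - 0) ^ 2) ≤ (t : ℝ) * vr L π G B := by
      have h2 := var_sum hνsum (fun (j : ι) (a : Y × F) => xi π G (a.1, a.2 + (b • c) j))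
        (fun j => tl_xi hG _) C
      have h3 : (fun T : ι → Y × F => (Z b T - 0) ^ 2) =
          fun T : ι → Y × F => (∑ j ∈ C, xi π G ((T j).1, (T j).2 + (b • c) j)) ^ 2 := by
        funext T
        rw [sub_zero]
      rw [h3]
      refine h2.le.trans ?_
      have h4 : ∀ j ∈ C, ∑ a : Y × F, ν a * xi π G (a.1, a.2 + (b • c) j) ^ 2 = vr L π G B :=
        fun j _ => tl_vr _
      rw [Finset.sum_congr rfl h4, Finset.sum_const, nsmul_eq_mul]
      apply mul_le_mul_of_nonneg_right _ (Finset.sum_nonneg fun a _ => mul_nonneg (hνpos a).le (sq_nonneg _))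
      exact_mod_cast hC
    have h5 := cheb2 (π := fun _ : ι => ν) (fun _ a => (hνpos a).le) (Z b) 0 _ κ hκ0 h1
    refine h5.trans ?_
    rw [hκ2, div_le_div_iff₀ (by positivity) (by positivity)]
    calc (t : ℝ) * vr L π G B * (2 * (Fintype.card F : ℝ)) = (2 * (Fintype.card F : ℝ) * vr L π G B) * t := by ring
      _ ≤ K ^ 2 * t := mul_le_mul_of_nonneg_right hKV ht0.le
      _ = 1 * (K ^ 2 * t) := by ring
  rw [e1]
  have e4 := Ex2_mono (π := fun _ : ι => ν) (fun _ a => (hνpos a).le) e2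
  refine le_trans ?_ e4
  rw [Ex2_const_mul, Ex2_sub, Ex2_sum, Ex2_one (fun _ => hνsum)]
  have e5 : ∑ b : F, Ex2 (fun _ => ν) (fun T : ι → Y × F => if κ ≤ |Z b T - 0| then (1 : ℝ) else 0) ≤ 1 / 2 := by
    calc _ ≤ ∑ _b : F, 1 / (2 * (Fintype.card F : ℝ)) := Finset.sum_le_sum fun b _ => e3 b
      _ = 1 / 2 := by
        rw [Finset.sum_const, Finset.card_univ, nsmul_eq_mul]
        field_simp
  have e6 : 0 ≤ B ^ t * Real.exp (-κ) := by positivity
  have e7 := mul_le_mul_of_nonneg_left (by linarith : (1 : ℝ) / 2 ≤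
    1 - ∑ b : F, Ex2 (fun _ => ν) (fun T : ι → Y × F => if κ ≤ |Z b T - 0| then (1 : ℝ) else 0)) e6
  linarith

end

end Pool.Agent.LDCX
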